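import Pool.Agent.LibZW67.Iso
import Pool.Agent.LibUS38.Lev
import Pool.Agent.LibUS38.Lev2
import Pool.Agent.LibUS38.Grow2

/-! The potential of one member of the family. -/

open Matrix Complex Filter Topology
open UpperHalfPlane hiding I
open scoped ComplexOrder ContDiff

namespace ZW67

open SP38 US38

variable {m : ℕ} {w : ℤ} {K : ℕ} {Q : Matrix (Fin m) (Fin m) ℝ}

/-- the extension splits over `ℝ` iff `δ = 0` -/
theorem split_hd {P : ℤ → Matrix (Fin m) (Fin m) ℂ} (hd : HD w K Q P) (x : Fin m → ℂ) :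
    (∃ e : Fin m → ℝ, ∀ b : ℤ, b < 0 → P b *ᵥ (x - ofR e) = 0) ↔ Rm w P *ᵥ imv x = 0 := by
  have h2I : (2 * I : ℂ) ≠ 0 := mul_ne_zero two_ne_zero I_ne_zero
  constructor
  · rintro ⟨e, he⟩
    have h1 : Rm w P *ᵥ (x - ofR e) = 0 := del_Rm_mulVec_eq_zero he
    rw [Matrix.mulVec_sub, sub_eq_zero] at h1
    have h2 : Rm w P *ᵥ cj x = Rm w P *ᵥ ofR e := by
      have h3 := congrArg cj h1
      rw [hd1_cj_mulVec, hd1_cj_mulVec, Rm_real hd, del_cj_ofR] at h3
      exact h3
    have h4 : (2 * I) • (Rm w P *ᵥ imv x) = 0 := by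
      rw [← Matrix.mulVec_smul, ← del_imv, Matrix.mulVec_sub, h1, h2, sub_self]
    exact (smul_eq_zero.mp h4).resolve_left h2I
  · intro hR
    set v := imv x with hv
    set c : ℤ → ℂ := fun a => if 0 ≤ a then (if a ≤ w then 1 / 2 else 1) else 0 with hc
    have hcr : ∀ a, (starRingEnd ℂ) (c a) = c a := by
      intro a
      simp only [hc]
      split_ifs
      · rw [map_div₀, map_one, map_ofNat]
      · rw [map_one]
      · rw [map_zero]
    set f := ∑ a ∈ Finset.Icc (-(K : ℤ)) K, c a • (P a *ᵥ v) with hf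
    have hPf : ∀ b, P b *ᵥ f = c b • (P b *ᵥ v) := fun b => del_P_sum hd c v b
    have hPf' : ∀ b, P b *ᵥ cj f = c (w - b) • (P b *ᵥ v) := by
      intro b
      have h1 := hd.hd1_cj (w - b) f
      rw [sub_sub_cancel] at h1
      rw [← h1, hPf, del_cj_smul, hcr, hd.hd1_cj, sub_sub_cancel, del_cj_imv]
    have hsum : f + cj f = v := by
      apply del_ext hd
      intro b
      rw [Matrix.mulVec_add, hPf, hPf', ← add_smul]
      by_cases hb : w < b ∧ b < 0
      · have h1 : P b *ᵥ v = 0 := by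
          have h2 := (Rm_P hd b).2
          rw [if_pos hb] at h2
          rw [← h2, ← Matrix.mulVec_mulVec, hR, Matrix.mulVec_zero]
        rw [h1, smul_zero]
      · have h1 : c b + c (w - b) = 1 := by
          simp only [hc]
          split_ifs <;> first | omega | norm_num
        rw [h1, one_smul]
    set y := x - (2 * I) • f with hy
    have hyr : cj y = y := by
      have h1 : y - cj y = 0 := by
        rw [hy, del_cj_sub, del_cj_smul, map_mul, Complex.conj_I, map_ofNat]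
        have h2 : x - (2 * I) • f - (cj x - (2 * -I) • cj f) =
            (x - cj x) - (2 * I) • (f + cj f) := by
          funext i
          simp only [Pi.sub_apply, Pi.add_apply, Pi.smul_apply, smul_eq_mul]
          ring
        rw [h2, hsum, del_imv, sub_self]
      exact (sub_eq_zero.mp h1).symm
    refine ⟨fun i => (y i).re, ?_⟩
    rw [del_ofR hyr, hy, sub_sub_cancel]
    intro b hb
    rw [Matrix.mulVec_smul, hPf]
    have h1 : c b = 0 := by
      simp only [hc]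
      rw [if_neg (not_le.mpr hb)]
    rw [h1, zero_smul, smul_zero]

/-! ### the functions of one member -/

variable {D : ℂ → Matrix (Fin m) (Fin m) ℂ} {e : ℂ → Fin m → ℂ}

/-- the norm of the real extension class -/
noncomputable def NM (w : ℤ) (K : ℕ) (Q : Matrix (Fin m) (Fin m) ℝ)
    (D : ℂ → Matrix (Fin m) (Fin m) ℂ) (e : ℂ → Fin m → ℂ) : ℂ → ℂ :=
  NN w K Q (fun z a => LP K (D z) a) (fun z => imv (e z))

/-- the auxiliary form -/
noncomputable def TM (w : ℤ) (K : ℕ) (Q : Matrix (Fin m) (Fin m) ℝ)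
    (D : ℂ → Matrix (Fin m) (Fin m) ℂ) (e : ℂ → Fin m → ℂ) : ℂ → ℂ :=
  TT w K Q (fun z a => LP K (D z) a) (DZ D) (fun z => imv (e z))

theorem Mem.toE (hm : Mem w K Q D e) :
    ExtE w K Q (Hc 0) (fun z a => LP K (D z) a) (DZ D) e :=
  ⟨hm.gd.pv (isOpen_Hc 0), hm.sme, hm.d0, hm.d1⟩

theorem Mem.real_iff (hm : Mem w K Q D e) {z : ℂ} (hz : z ∈ Hc 0) :
    RealAt K D e z ↔ Rm w (fun a => LP K (D z) a) *ᵥ imv (e z) = 0 := split_hd (hm.hd hz) _

theorem Mem.NM_eq (hm : Mem w K Q D e) {z : ℂ} (hz : z ∈ Hc 0) :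
    NM w K Q D e z = ((qf (metr w K Q (fun a => LP K (D z) a))
      (Rm w (fun a => LP K (D z) a) *ᵥ imv (e z)) : ℝ) : ℂ) :=
  hm_self (hm.hd hz).posDef _

theorem Mem.NM_zero_iff (hm : Mem w K Q D e) {z : ℂ} (hz : z ∈ Hc 0) :
    NM w K Q D e z = 0 ↔ RealAt K D e z := by
  rw [hm.real_iff hz, hm.NM_eq hz, Complex.ofReal_eq_zero]
  constructor
  · intro h0
    by_contra hne
    exact (qf_pos (hm.hd hz).posDef hne).ne' h0
  · intro h0
    rw [h0]
    simp [qf]

/-- weights `≥ -2`: the extension is flat -/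
theorem Mem.flat_of_weight (hm : Mem w K Q D e) (hw : -2 ≤ w) : FlatE K D e := by
  have hsplit : ∀ z ∈ Hc 0, RealAt K D e z := by
    intro z hz
    rw [hm.real_iff hz]
    have hR : Rm w (fun a => LP K (D z) a) = 0 := by
      rw [Rm]
      refine Finset.sum_eq_zero fun b hb => ?_
      rw [Finset.mem_Ioo] at hb
      by_contra hne
      rcases hm.types z hz b hne with h | h <;> omega
    rw [hR, Matrix.zero_mulVec]
  have hI : 0 < (I : ℂ).im := by simp
  refine flat_of_frequently hm (z₀ := I) hI ?_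
  have hev : ∀ᶠ z in 𝓝[≠] (I : ℂ), RealAt K D e z := by
    apply eventually_nhdsWithin_of_eventually_nhds
    filter_upwards [(isOpen_Hc 0).mem_nhds (show (I : ℂ) ∈ Hc 0 from hI)] with z hz
    exact hsplit z hz
  exact hev.frequently

theorem Mem.hs_le (hm : Mem w K Q D e) {z : ℂ} (hz : z ∈ Hc 0) :
    hs (metr w K Q (fun a => LP K (D z) a))
      (YY K (fun a => LP K (D z) a) - ((w : ℂ) / 2) • (1 : Matrix (Fin m) (Fin m) ℂ)) =
    (Matrix.trace ((D z - ((w : ℂ) / 2) • 1) * (D z - ((w : ℂ) / 2) • 1))).re := by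
  rw [hs, lev_adj (hm.hd hz), hm.gd.YY_eq hz]

theorem Mem.pot (hm : Mem w K Q D e) (hw : w ≤ -3) {κ : ℝ}
    (hκ : ∀ z ∈ Hc 0, (Matrix.trace ((D z - ((w : ℂ) / 2) • 1) *
      (D z - ((w : ℂ) / 2) • 1))).re ≤ κ) : Pot ⊥ κ (NM w K Q D e) (TM w K Q D e) := by
  have hopen := isOpen_Hc 0
  have hE := hm.toE.toD hopen hw
  have hY : ∀ z ∈ Hc 0, SP38.hs (metr w K Q (fun a => LP K (D z) a))
      (YY K (fun a => LP K (D z) a) - ((w : ℂ) / 2) • (1 : Matrix (Fin m) (Fin m) ℂ)) ≤ κ :=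
    fun z hz => by rw [hm.hs_le hz]; exact hκ z hz
  have hκ0 : 0 ≤ κ := by
    have hI : (I : ℂ) ∈ Hc 0 := by
      show 0 < (I : ℂ).im
      simp
    exact (hs_nonneg (hm.hd hI).posDef _).trans (hY I hI)
  have hθ : ∀ z ∈ Hc 0, SP38.hs (metr w K Q (fun a => LP K (D z) a)) (DZ D z) ≤
      κ / (2 * z.im ^ 2) := fun z hz => hs_theta_B hE.pv hκ0 hY hz
  refine ⟨hκ0, hE.sm_NN hopen, hE.sm_TT hopen, ?_, ?_, ?_, ?_, ?_, ?_⟩
  · intro z hz
    rw [hm.NM_eq hz]
    exact Complex.ofReal_im _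
  · intro z hz
    exact (hE.NN_eq hz).2
  · intro z hz
    have hz' : 0 < z.im := hz
    refine (hE.TT_le hz).trans (mul_le_mul_of_nonneg_right ?_ (hE.NN_eq hz).2)
    have h1 : SP38.hs (metr w K Q (fun a => LP K (D z) a)) (DZ D z) ≤ κ / z.im ^ 2 := by
      refine (hθ z hz).trans ?_
      apply div_le_div_of_nonneg_left hκ0 (by positivity)
      nlinarith [sq_nonneg z.im]
    calc √(SP38.hs (metr w K Q (fun a => LP K (D z) a)) (DZ D z)) ≤ √(κ / z.im ^ 2) :=
          Real.sqrt_le_sqrt h1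
      _ = √κ / z.im := by
          rw [Real.sqrt_div hκ0, Real.sqrt_sq hz'.le]
  · intro ε hε z hz
    have hz' : 0 < z.im := hz
    have h1 := hE.rho_ge hopen hw hε hz
    have h2 := hθ z hz
    refine le_trans ?_ h1
    have h3 : κ / z.im ^ 2 = 2 * (κ / (2 * z.im ^ 2)) := by
      field_simp
    rw [h3]
    linarith
  · intro δ hδ z hz
    rw [Subgroup.mem_bot.1 hδ, mob_one]
  · intro δ hδ z hz
    have h2 : mob 1 = fun z => z := funext mob_one
    rw [Subgroup.mem_bot.1 hδ, pb, h2]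
    simp

/-! ### transport by a real isometry between two members -/

variable {m' : ℕ} {Q' : Matrix (Fin m') (Fin m') ℝ} {D' : ℂ → Matrix (Fin m') (Fin m') ℂ}
  {e' : ℂ → Fin m' → ℂ}

theorem aeval_tr {A' : Matrix (Fin m') (Fin m') ℂ} {A : Matrix (Fin m) (Fin m) ℂ}
    {G : Matrix (Fin m') (Fin m) ℂ} (h : A' * G = G * A) (f : Polynomial ℂ) :
    Polynomial.aeval A' f * G = G * Polynomial.aeval A f := by
  induction f using Polynomial.induction_on' with
  | add p q hp hq => rw [map_add, map_add, Matrix.add_mul, hp, hq, Matrix.mul_add]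
  | monomial n a =>
    rw [Polynomial.aeval_monomial, Polynomial.aeval_monomial, Algebra.algebraMap_eq_smul_one,
      Algebra.algebraMap_eq_smul_one, smul_mul_assoc, one_mul, smul_mul_assoc, one_mul,
      Matrix.smul_mul, Matrix.mul_smul]
    congr 1
    induction n with
    | zero => simp
    | succ n ih => rw [pow_succ, pow_succ, Matrix.mul_assoc, h, ← Matrix.mul_assoc, ih,
        Matrix.mul_assoc]

theorem LP_tr {A' : Matrix (Fin m') (Fin m') ℂ} {A : Matrix (Fin m) (Fin m) ℂ}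
    {G : Matrix (Fin m') (Fin m) ℂ} (h : A' * G = G * A) (a : ℤ) :
    LP K A' a * G = G * LP K A a := aeval_tr h _

/-- transport of the hermitian form by a real isometry -/
theorem hm_tr {P : ℤ → Matrix (Fin m) (Fin m) ℂ} {P' : ℤ → Matrix (Fin m') (Fin m') ℂ}
    {γ : Matrix (Fin m') (Fin m) ℝ}
    (hγ : γᵀ * Q' * γ = Q) (hP' : ∀ a, P' a * cm γ = cm γ * P a) (x y : Fin m → ℂ) :
    hm (metr w K Q' P') (cm γ *ᵥ x) (cm γ *ᵥ y) = hm (metr w K Q P) x y := by
  have h1 : (cm γ)ᴴ * (cm Q')ᵀ * cm γ = (cm Q)ᵀ := by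
    have h2 : (cm γ)ᴴ = (cm γ)ᵀ := by
      ext i j
      simp [cm, Matrix.conjTranspose_apply]
    have h3 : (cm γ)ᵀ * cm Q' * cm γ = cm Q := by
      have h4 : (cm γ)ᵀ = cm γᵀ := by
        ext i j
        simp [cm]
      have h5 : cm (γᵀ * Q' * γ) = cm γᵀ * cm Q' * cm γ := by
        show (γᵀ * Q' * γ).map Complex.ofRealHom = γᵀ.map Complex.ofRealHom *
          Q'.map Complex.ofRealHom * γ.map Complex.ofRealHom
        rw [Matrix.map_mul, Matrix.map_mul]
      rw [h4, ← h5, hγ]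
    rw [h2]
    have h5 := congrArg Matrix.transpose h3
    rw [Matrix.transpose_mul, Matrix.transpose_mul, Matrix.transpose_transpose,
      ← Matrix.mul_assoc] at h5
    exact h5
  have h6 : (cm γ)ᴴ * metr w K Q' P' * cm γ = metr w K Q P := by
    rw [metr, metr, Matrix.mul_sum, Matrix.sum_mul]
    refine Finset.sum_congr rfl fun a _ => ?_
    rw [Matrix.mul_smul, Matrix.smul_mul]
    congr 1
    calc (cm γ)ᴴ * ((cm Q')ᵀ * P' a) * cm γ = (cm γ)ᴴ * (cm Q')ᵀ * (P' a * cm γ) := by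
          simp only [Matrix.mul_assoc]
      _ = (cm γ)ᴴ * (cm Q')ᵀ * cm γ * P a := by rw [hP']; simp only [Matrix.mul_assoc]
      _ = (cm Q)ᵀ * P a := by rw [h1]
  rw [hm, hm, Matrix.star_mulVec, ← Matrix.dotProduct_mulVec, Matrix.mulVec_mulVec,
    Matrix.mulVec_mulVec, ← h6]

theorem imv_tr (γ : Matrix (Fin m') (Fin m) ℝ) (x : Fin m → ℂ) :
    imv (cm γ *ᵥ x) = cm γ *ᵥ imv x := by
  funext i
  simp only [imv, cm, Matrix.mulVec, dotProduct, Matrix.map_apply, Complex.im_sum]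
  push_cast
  refine Finset.sum_congr rfl fun j _ => ?_
  rw [Complex.im_ofReal_mul]
  push_cast
  rfl

theorem trans_mem (hm : Mem w K Q D e) (hm' : Mem w K Q' D' e') {γ : Matrix (Fin m') (Fin m) ℝ}
    {b : Fin m' → ℝ} (hγ : γᵀ * Q' * γ = Q) {δ : Matrix.SpecialLinearGroup (Fin 2) ℝ}
    (hδ : ∀ z ∈ Hc 0, D' (mob δ z) * cm γ = cm γ * D z ∧
      e' (mob δ z) = cm γ *ᵥ e z + ofR b) {z : ℂ} (hz : z ∈ Hc 0) :
    NM w K Q' D' e' (mob δ z) = NM w K Q D e z ∧
      pb (mob δ) (TM w K Q' D' e') z = TM w K Q D e z := by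
  have hΩ := isOpen_Hc 0
  have hz1 : mob δ z ∈ Hc 0 := mob_mem δ hz
  have hP : ∀ a, LP K (D' (mob δ z)) a * cm γ = cm γ * LP K (D z) a :=
    fun a => LP_tr (hδ z hz).1 a
  have hdel : del w (fun z a => LP K (D' z) a) (fun z => imv (e' z)) (mob δ z) =
      cm γ *ᵥ del w (fun z a => LP K (D z) a) (fun z => imv (e z)) z := by
    show Rm w (fun a => LP K (D' (mob δ z)) a) *ᵥ imv (e' (mob δ z)) =
      cm γ *ᵥ (Rm w (fun a => LP K (D z) a) *ᵥ imv (e z))
    have h2 : Rm w (fun a => LP K (D' (mob δ z)) a) * cm γ =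
        cm γ * Rm w (fun a => LP K (D z) a) := by
      rw [Rm, Rm, Matrix.sum_mul, Matrix.mul_sum]
      exact Finset.sum_congr rfl fun a _ => hP a
    rw [(hδ z hz).2, inv_imv_add, inv_imv_ofR, add_zero, imv_tr, Matrix.mulVec_mulVec,
      Matrix.mulVec_mulVec, h2]
  have hθ : deriv (mob δ) z • (DZ D' (mob δ z) * cm γ) = cm γ * DZ D z := by
    have hdiff : DifferentiableAt ℂ (mob δ) z := mob_diffAt δ hz
    have e1 : DZ (fun z => D' (mob δ z) * cm γ) z = DZ (fun z => cm γ * D z) z := by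
      apply DZ_congr
      filter_upwards [hΩ.mem_nhds hz] with x hx
      exact (hδ x hx).1
    have s1 : Sm (Hc 0) (fun z => D' (mob δ z)) := fun i j =>
      SmS.compS hΩ (hm'.gd.sm i j) (mob_holo δ) fun x hx => mob_mem δ hx
    have e2 := DZ_mul hΩ hz (F := fun z => D' (mob δ z)) (H := fun _ : ℂ => cm γ) s1 (Sm.const _)
    rw [DZ_const, Matrix.mul_zero, add_zero, Inv2_DZ_comp hΩ hm'.gd.sm hz1 hdiff] at e2
    have e3 := DZ_mul hΩ hz (F := fun _ : ℂ => cm γ) (H := fun z => D z) (Sm.const _) hm.gd.sm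
    rw [DZ_const, Matrix.zero_mul, zero_add] at e3
    rw [← Matrix.smul_mul, ← e2, e1, e3]
  constructor
  · show US38.hm (metr w K Q' (fun a => LP K (D' (mob δ z)) a))
      (del w (fun z a => LP K (D' z) a) (fun z => imv (e' z)) (mob δ z))
      (del w (fun z a => LP K (D' z) a) (fun z => imv (e' z)) (mob δ z)) =
      US38.hm (metr w K Q (fun a => LP K (D z) a)) _ _
    rw [hdel]
    exact hm_tr hγ hP _ _
  · show US38.hm (metr w K Q' (fun a => LP K (D' (mob δ z)) a)) (DZ D' (mob δ z) *ᵥ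
      del w (fun z a => LP K (D' z) a) (fun z => imv (e' z)) (mob δ z))
      (del w (fun z a => LP K (D' z) a) (fun z => imv (e' z)) (mob δ z)) *
      deriv (mob δ) z = US38.hm (metr w K Q (fun a => LP K (D z) a)) (DZ D z *ᵥ
      del w (fun z a => LP K (D z) a) (fun z => imv (e z)) z) _
    rw [hdel, Matrix.mulVec_mulVec]
    rw [← hm_tr (w := w) (K := K) (P' := fun a => LP K (D' (mob δ z)) a) hγ hP
      (DZ D z *ᵥ _) _, Matrix.mulVec_mulVec, ← hθ]
    simp only [US38.hm]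
    rw [Matrix.smul_mulVec, Matrix.mulVec_smul, dotProduct_smul, smul_eq_mul, mul_comm]

end ZW67
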