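import Pool.Agent.LibZW67.Stmt

/-! The points where the class is real modulo `F^0` are isolated, or the class is flat. -/

open Matrix Complex MeasureTheory Filter Topology
open UpperHalfPlane hiding I
open scoped ComplexOrder ContDiff

namespace ZW67

open SP38 US38

variable {w : ℤ} {K r : ℕ} {Q : Matrix (Fin r) (Fin r) ℝ} {D : ℂ → Matrix (Fin r) (Fin r) ℂ}
  {e : ℂ → Fin r → ℂ} {β : Type} [Fintype β] {pq : β → ℤ} {A : ℂ → Matrix β (Fin r) ℂ}
  {M : ℂ → Matrix β β ℂ}

theorem Mem.hd (hm : Mem w K Q D e) {z : ℂ} (hz : z ∈ Hc 0) : HD w K Q (fun a => LP K (D z) a) :=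
  (hm.gd.pv (isOpen_Hc 0)).hd z hz

/-- real-differentiable functions with `∂̄ f = 0` are holomorphic -/
theorem diff_of_dzb {f : ℂ → ℂ} {z : ℂ} (hf : DifferentiableAt ℝ f z) (h0 : dzb f z = 0) :
    DifferentiableAt ℂ f z := by
  rw [differentiableAt_iff_restrictScalars ℝ hf]
  refine ⟨ContinuousLinearMap.toSpanSingleton ℂ (dz f z), ?_⟩
  ext w
  rw [fderiv_eq_dz hf w, h0, zero_mul, add_zero]
  simp [ContinuousLinearMap.toSpanSingleton_apply, mul_comm]

/-- a real vector in `F^{-1}` vanishes -/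
theorem Mem.real_zero (hm : Mem w K Q D e) {z : ℂ} (hz : z ∈ Hc 0) {c : Fin r → ℝ}
    (h : ∀ a : ℤ, a < -1 → LP K (D z) a *ᵥ ofR c = 0) : c = 0 := by
  have hd := hm.hd hz
  have h0 : ofR c = 0 := by
    apply del_ext hd
    intro b
    rw [Matrix.mulVec_zero]
    show LP K (D z) b *ᵥ ofR c = 0
    by_cases hb : b < -1
    · exact h b hb
    · by_cases hb' : w - b < -1
      · have h1 := hd.hd1_cj (w - b) (ofR c)
        rw [h (w - b) hb', sub_sub_cancel, del_cj_ofR, cj_zero] at h1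
        exact h1.symm
      · have h1 : LP K (D z) b = 0 := by
          by_contra hne
          rcases hm.types z hz b hne with h2 | h2
          · exact hb h2
          · exact hb' h2
        rw [h1, Matrix.zero_mulVec]
  funext i
  have := congrFun h0 i
  simpa [ofR] using this

/-- the equations of `F^0` on real vectors -/
noncomputable def TT0 (pq : β → ℤ) (A : Matrix β (Fin r) ℂ) : (Fin r → ℝ) →ₗ[ℝ] (β → ℂ) where
  toFun c j := if pq j < 0 then (A *ᵥ ofR c) j else 0
  map_add' c d := by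
    funext j
    have h1 : ofR (c + d) = ofR c + ofR d := by
      funext i
      simp [ofR]
    simp only [h1, Matrix.mulVec_add, Pi.add_apply]
    split_ifs <;> simp
  map_smul' t c := by
    funext j
    have h1 : ofR (t • c) = (t : ℂ) • ofR c := by
      funext i
      simp [ofR]
    simp only [h1, Matrix.mulVec_smul, Pi.smul_apply, RingHom.id_apply, smul_eq_mul]
    split_ifs
    · rw [Complex.real_smul]
    · simp

theorem TT0_apply (pq : β → ℤ) (A : Matrix β (Fin r) ℂ) (c : Fin r → ℝ) (j : β) :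
    TT0 pq A c j = if pq j < 0 then (A *ᵥ ofR c) j else 0 := rfl

theorem TT0_inj (hm : Mem w K Q D e) (hF : Frame K D pq A M) {z : ℂ} (hz : z ∈ Hc 0) :
    LinearMap.ker (TT0 pq (A z)) = ⊥ := by
  rw [LinearMap.ker_eq_bot']
  intro c hc
  apply hm.real_zero hz
  intro a ha
  refine (hF.mem z hz 0 (ofR c)).2 (fun j hj => ?_) a (by omega)
  have := congrFun hc j
  rw [TT0_apply, if_pos hj] at this
  exact this

/-- the vector of equations -/
noncomputable def gg (pq : β → ℤ) (A : ℂ → Matrix β (Fin r) ℂ) (e : ℂ → Fin r → ℂ)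
    (c : Fin r → ℝ) (z : ℂ) : β → ℂ :=
  fun j => if pq j < 0 then (A z *ᵥ (e z - ofR c)) j else 0

theorem gg_diff (hm : Mem w K Q D e) (hF : Frame K D pq A M) (c : Fin r → ℝ) :
    DifferentiableOn ℂ (gg pq A e c) (Hc 0) := by
  rw [differentiableOn_pi]
  intro j
  by_cases hj : pq j < 0
  · have h1 : (fun z => gg pq A e c z j) = fun z => ∑ i, A z j i * (e z i - (c i : ℂ)) := by
      funext z
      simp [gg, hj, Matrix.mulVec, dotProduct, ofR]
    rw [h1]
    intro z hz
    apply DifferentiableAt.differentiableWithinAt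
    have hΩ := isOpen_Hc 0
    have hAd : ∀ i, DifferentiableAt ℂ (fun z => A z j i) z := fun i =>
      (hF.hol j i).differentiableAt (hΩ.mem_nhds hz)
    have hed : ∀ i, DifferentiableAt ℝ (fun z => e z i - (c i : ℂ)) z := fun i =>
      ((hm.sme i).differentiableAt hΩ hz).sub_const _
    apply diff_of_dzb
    · exact DifferentiableAt.fun_sum fun i _ => ((hAd i).restrictScalars ℝ).mul (hed i)
    · have hsum := WirtM_dzb_sum (Finset.univ : Finset (Fin r))
        (f := fun i z => A z j i * (e z i - (c i : ℂ))) (z := z)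
        fun i _ => ((hAd i).restrictScalars ℝ).mul (hed i)
      refine hsum.trans ?_
      have h2 : ∀ i, dzb (fun z => A z j i * (e z i - (c i : ℂ))) z = A z j i * DVb e z i := by
        intro i
        rw [dzb_mul ((hAd i).restrictScalars ℝ) (hed i), dzb_of_holo (hAd i), zero_mul, zero_add]
        congr 1
        rw [WirtM_dzb_sub ((hm.sme i).differentiableAt hΩ hz) (differentiableAt_const _),
          dzb_const, sub_zero]
        rfl
      simp only [h2]
      exact (hF.mem z hz 0 (DVb e z)).1 (hm.d0 z hz) j hj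
  · have h1 : (fun z => gg pq A e c z j) = fun _ => 0 := by
      funext z
      simp [gg, hj]
    rw [h1]
    exact differentiableOn_const _

/-- the derivative of the equations of index less than `-1` -/
theorem gg_deriv (hm : Mem w K Q D e) (hF : Frame K D pq A M) (c : Fin r → ℝ) {j : β}
    (hj : pq j < -1) {z : ℂ} (hz : z ∈ Hc 0) :
    deriv (fun z => gg pq A e c z j) z = ∑ i, M z j i * gg pq A e c z i := by
  have hΩ := isOpen_Hc 0
  have h1 : (fun z => gg pq A e c z j) = fun z => ∑ i, A z j i * (e z i - (c i : ℂ)) := by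
    funext z
    have : pq j < 0 := by omega
    simp [gg, this, Matrix.mulVec, dotProduct, ofR]
  have hAd : ∀ i, DifferentiableAt ℂ (fun z => A z j i) z := fun i =>
    (hF.hol j i).differentiableAt (hΩ.mem_nhds hz)
  have hed : ∀ i, DifferentiableAt ℝ (fun z => e z i - (c i : ℂ)) z := fun i =>
    ((hm.sme i).differentiableAt hΩ hz).sub_const _
  have hgd : DifferentiableAt ℂ (fun z => gg pq A e c z j) z :=
    ((differentiableOn_pi.1 (gg_diff hm hF c)) j).differentiableAt (hΩ.mem_nhds hz)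
  have hsum := WirtM_dz_sum (Finset.univ : Finset (Fin r))
    (f := fun i z => A z j i * (e z i - (c i : ℂ))) (z := z)
    fun i _ => ((hAd i).restrictScalars ℝ).mul (hed i)
  rw [← dz_of_holo hgd, h1]
  refine hsum.trans ?_
  have h2 : ∀ i, dz (fun z => A z j i * (e z i - (c i : ℂ))) z =
      (M z * A z) j i * (e z i - (c i : ℂ)) + A z j i * DV e z i := by
    intro i
    rw [dz_mul ((hAd i).restrictScalars ℝ) (hed i), dz_of_holo (hAd i), hF.der z hz]
    congr 2
    rw [WirtM_dz_sub ((hm.sme i).differentiableAt hΩ hz) (differentiableAt_const _),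
      dz_const, sub_zero]
    rfl
  simp only [h2]
  rw [Finset.sum_add_distrib]
  have h3 : ∑ i, A z j i * DV e z i = 0 := (hF.mem z hz (-1) (DV e z)).1 (hm.d1 z hz) j hj
  have h4 : ∑ i, (M z * A z) j i * (e z i - (c i : ℂ)) =
      ((M z * A z) *ᵥ (e z - ofR c)) j := rfl
  rw [h3, add_zero, h4, ← Matrix.mulVec_mulVec]
  show ∑ i, M z j i * (A z *ᵥ (e z - ofR c)) i = _
  refine Finset.sum_congr rfl fun i _ => ?_
  by_cases hi : pq i < 0
  · simp [gg, hi]
  · rw [hF.tr z hz j i (by omega), zero_mul, zero_mul]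

theorem flat_of_gg (hF : Frame K D pq A M) {c : Fin r → ℝ}
    (h : ∀ z ∈ Hc 0, gg pq A e c z = 0) : FlatE K D e := by
  refine ⟨c, fun z hz a ha => (hF.mem z hz 0 _).2 (fun j hj => ?_) a ha⟩
  have := congrFun (h z hz) j
  simpa [gg, hj] using this

theorem gg_cont (hm : Mem w K Q D e) (hF : Frame K D pq A M) (c : Fin r → ℝ) {z : ℂ}
    (hz : z ∈ Hc 0) : ContinuousAt (gg pq A e c) z :=
  ((gg_diff hm hF c).differentiableAt ((isOpen_Hc 0).mem_nhds hz)).continuousAt

/-- a uniform lower bound on real vectors -/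
theorem lower (hm : Mem w K Q D e) (hF : Frame K D pq A M) {z₀ : ℂ} (hz₀ : z₀ ∈ Hc 0) :
    ∃ c₀ : ℝ, 0 < c₀ ∧ ∀ᶠ z in 𝓝 z₀, ∀ c : Fin r → ℝ, c₀ * ‖c‖ ≤ ‖TT0 pq (A z) c‖ := by
  obtain ⟨L, hL, hL'⟩ := LinearMap.exists_antilipschitzWith (TT0 pq (A z₀)) (TT0_inj hm hF hz₀)
  have hLr : (0 : ℝ) < L := hL
  have h1 : ∀ c : Fin r → ℝ, ‖c‖ ≤ L * ‖TT0 pq (A z₀) c‖ := by
    intro c
    have := hL'.le_mul_dist c 0
    rwa [map_zero, dist_zero_right, dist_zero_right] at this
  set η : ℝ := 1 / (2 * L * (r + 1)) with hη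
  have hη0 : 0 < η := by positivity
  refine ⟨1 / (2 * L), by positivity, ?_⟩
  have h2 : ∀ᶠ z in 𝓝 z₀, ∀ j i, ‖A z j i - A z₀ j i‖ < η := by
    rw [Filter.eventually_all]
    intro j
    rw [Filter.eventually_all]
    intro i
    have h3 : ContinuousAt (fun z => A z j i) z₀ :=
      ((hF.hol j i).differentiableAt ((isOpen_Hc 0).mem_nhds hz₀)).continuousAt
    have h4 := Metric.tendsto_nhds.1 h3 η hη0
    simpa [dist_eq_norm] using h4
  filter_upwards [h2] with z hz c
  have h3 : ‖TT0 pq (A z) c - TT0 pq (A z₀) c‖ ≤ r * η * ‖c‖ := by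
    refine (pi_norm_le_iff_of_nonneg (by positivity)).2 fun j => ?_
    rw [Pi.sub_apply, TT0_apply, TT0_apply]
    split_ifs
    · rw [← Pi.sub_apply, ← Matrix.sub_mulVec]
      simp only [Matrix.mulVec, dotProduct, Matrix.sub_apply]
      refine (norm_sum_le _ _).trans ?_
      have h5 : ∀ i ∈ Finset.univ, ‖(A z j i - A z₀ j i) * ofR c i‖ ≤ η * ‖c‖ := by
        intro i _
        rw [norm_mul]
        refine mul_le_mul (hz j i).le ?_ (norm_nonneg _) hη0.le
        rw [ofR, Complex.norm_real]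
        exact norm_le_pi_norm c i
      refine (Finset.sum_le_card_nsmul _ _ _ h5).trans (le_of_eq ?_)
      rw [Finset.card_univ, Fintype.card_fin, nsmul_eq_mul]
      ring
    · rw [sub_self, norm_zero]
      positivity
  have h4 : ‖TT0 pq (A z₀) c‖ ≤ ‖TT0 pq (A z) c‖ + r * η * ‖c‖ := by
    have := norm_sub_norm_le (TT0 pq (A z₀) c) (TT0 pq (A z) c)
    rw [norm_sub_rev] at this
    linarith
  have h5 := h1 c
  have h6 : (r : ℝ) * η ≤ 1 / (2 * L) := by
    rw [hη, mul_one_div, div_le_div_iff₀ (by positivity) (by positivity)]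
    nlinarith
  have h7 : 1 / (L : ℝ) * ‖c‖ ≤ ‖TT0 pq (A z₀) c‖ := by
    rw [one_div, inv_mul_le_iff₀ hLr]
    exact h5
  have h8 : (r : ℝ) * η * ‖c‖ ≤ 1 / (2 * L) * ‖c‖ := mul_le_mul_of_nonneg_right h6 (norm_nonneg _)
  have h9 : 1 / (L : ℝ) * ‖c‖ = 1 / (2 * L) * ‖c‖ + 1 / (2 * L) * ‖c‖ := by
    field_simp
    ring
  linarith

theorem realAt_iff (hF : Frame K D pq A M) {z : ℂ} (hz : z ∈ Hc 0) (c : Fin r → ℝ) :
    (∀ a : ℤ, a < 0 → LP K (D z) a *ᵥ (e z - ofR c) = 0) ↔ gg pq A e c z = 0 := by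
  rw [hF.mem z hz 0]
  constructor
  · intro h
    funext j
    by_cases hj : pq j < 0
    · simpa [gg, hj] using h j hj
    · simp [gg, hj]
  · intro h j hj
    have := congrFun h j
    simpa [gg, hj] using this

theorem gg_sub (c c' : Fin r → ℝ) (z : ℂ) :
    gg pq A e c z - gg pq A e c' z = TT0 pq (A z) (c' - c) := by
  funext j
  rw [Pi.sub_apply, TT0_apply]
  simp only [gg]
  split_ifs
  · rw [← Pi.sub_apply, ← Matrix.mulVec_sub]
    congr 2
    funext i
    simp [ofR]
  · simp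

/-- accumulating real points force flatness -/
theorem flat_of_frequently (hm : Mem w K Q D e) {z₀ : ℂ} (hz₀ : 0 < z₀.im)
    (hfr : ∃ᶠ z in 𝓝[≠] z₀, RealAt K D e z) : FlatE K D e := by
  obtain ⟨β, _, pq, A, M, hF⟩ := hm.frame
  have hzH : z₀ ∈ Hc 0 := hz₀
  have hΩ := isOpen_Hc 0
  obtain ⟨c₀, hc₀, hlow⟩ := lower hm hF hzH
  -- the sequence
  have hfr' : ∃ᶠ z in 𝓝[≠] z₀, RealAt K D e z ∧ z ∈ Hc 0 ∧
      (∀ c : Fin r → ℝ, c₀ * ‖c‖ ≤ ‖TT0 pq (A z) c‖) ∧ z ≠ z₀ := by
    refine hfr.and_eventually ?_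
    filter_upwards [mem_nhdsWithin_of_mem_nhds (hΩ.mem_nhds hzH),
      mem_nhdsWithin_of_mem_nhds hlow, self_mem_nhdsWithin] with z h1 h2 h3
    exact ⟨h1, h2, h3⟩
  obtain ⟨s, hs, hsP⟩ := exists_seq_forall_of_frequently hfr'
  have hs0 : Tendsto s atTop (𝓝 z₀) := hs.mono_right nhdsWithin_le_nhds
  choose hR hsH hslow hsne using hsP
  choose c hc using hR
  have hgc : ∀ n, gg pq A e (c n) (s n) = 0 := fun n => (realAt_iff hF (hsH n) (c n)).1 (hc n)
  have hT : ∀ n, TT0 pq (A (s n)) (c n) = gg pq A e 0 (s n) := by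
    intro n
    have := gg_sub (pq := pq) (A := A) (e := e) 0 (c n) (s n)
    rw [hgc n, sub_zero, sub_zero] at this
    exact this.symm
  -- bounded
  have hg0 : Tendsto (fun n => gg pq A e 0 (s n)) atTop (𝓝 (gg pq A e 0 z₀)) :=
    (gg_cont hm hF 0 hzH).tendsto.comp hs0
  obtain ⟨B, hB⟩ := hg0.norm.bddAbove_range
  have hcb : ∀ n, c n ∈ Metric.closedBall (0 : Fin r → ℝ) (B / c₀) := by
    intro n
    rw [mem_closedBall_zero_iff, le_div_iff₀ hc₀, mul_comm]
    refine (hslow n (c n)).trans ?_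
    rw [hT n]
    exact hB ⟨n, rfl⟩
  obtain ⟨c', -, φ, hφ, hcφ⟩ := (isCompact_closedBall (0 : Fin r → ℝ) (B / c₀)).tendsto_subseq hcb
  -- `g = 0` at `z₀`
  have hsφ : Tendsto (fun n => s (φ n)) atTop (𝓝 z₀) := hs0.comp hφ.tendsto_atTop
  have hTcont : ∀ (x : ℕ → Fin r → ℝ) (t : ℕ → ℂ) (x' : Fin r → ℝ), Tendsto t atTop (𝓝 z₀) →
      Tendsto x atTop (𝓝 x') →
      Tendsto (fun n => TT0 pq (A (t n)) (x n)) atTop (𝓝 (TT0 pq (A z₀) x')) := by
    intro x t x' ht hx
    rw [tendsto_pi_nhds]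
    intro j
    simp only [TT0_apply]
    by_cases hj : pq j < 0
    · simp only [hj, if_true, Matrix.mulVec, dotProduct, ofR]
      refine tendsto_finsetSum _ fun i _ => ?_
      have h1 : Tendsto (fun n => A (t n) j i) atTop (𝓝 (A z₀ j i)) :=
        ((hF.hol j i).differentiableAt (hΩ.mem_nhds hzH)).continuousAt.tendsto.comp ht
      have h2 : Tendsto (fun n => ((x n i : ℝ) : ℂ)) atTop (𝓝 ((x' i : ℝ) : ℂ)) :=
        (Complex.continuous_ofReal.tendsto _).comp ((tendsto_pi_nhds.1 hx) i)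
      exact h1.mul h2
    · simp only [hj, if_false]
      exact tendsto_const_nhds
  have hgz : gg pq A e c' z₀ = 0 := by
    have h1 := hTcont (fun n => c (φ n)) (fun n => s (φ n)) c' hsφ hcφ
    have h2 : Tendsto (fun n => gg pq A e 0 (s (φ n))) atTop (𝓝 (gg pq A e 0 z₀)) :=
      (gg_cont hm hF 0 hzH).tendsto.comp hsφ
    have h3 : TT0 pq (A z₀) c' = gg pq A e 0 z₀ := by
      refine tendsto_nhds_unique h1 (h2.congr fun n => ?_)
      exact (hT (φ n)).symm
    have h4 := gg_sub (pq := pq) (A := A) (e := e) 0 c' z₀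
    rw [sub_zero, h3, sub_eq_self] at h4
    exact h4
  have han : AnalyticOnNhd ℂ (gg pq A e c') (Hc 0) := (gg_diff hm hF c').analyticOnNhd hΩ
  by_cases hev : ∀ᶠ z in 𝓝 z₀, gg pq A e c' z = 0
  · apply flat_of_gg hF (c := c')
    intro z hz
    exact han.eqOn_zero_of_preconnected_of_eventuallyEq_zero glo1_preconnected_uhp hzH hev hz
  exfalso
  obtain ⟨k, G, hG, hG0, hGeq⟩ :=
    (han z₀ hzH).exists_eventuallyEq_pow_smul_nonzero_iff.2 hev
  have hk : 0 < k := by
    rcases Nat.eq_zero_or_pos k with rfl | hk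
    · exfalso
      have := hGeq.self_of_nhds
      rw [hgz, pow_zero, one_smul] at this
      exact hG0 this.symm
    · exact hk
  -- the low components of `G z₀` vanish
  have hGj : ∀ j, pq j < -1 → G z₀ j = 0 := by
    intro j hj
    have hGd : ∀ᶠ z in 𝓝 z₀, DifferentiableAt ℂ G z := by
      filter_upwards [hG.eventually_analyticAt] with z hz
      exact hz.differentiableAt
    have h1 : ∀ᶠ z in 𝓝 z₀, deriv (fun z => gg pq A e c' z j) z =
        (k : ℂ) * (z - z₀) ^ (k - 1) * G z j + (z - z₀) ^ k * deriv (fun z => G z j) z := by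
      filter_upwards [hGeq.eventually_nhds, hGd] with z hz hzd
      have h2 : (fun z => gg pq A e c' z j) =ᶠ[𝓝 z] fun z => (z - z₀) ^ k * G z j := by
        filter_upwards [hz] with x hx
        rw [hx]
        rfl
      rw [h2.deriv_eq]
      have h3 : HasDerivAt (fun z : ℂ => (z - z₀) ^ k) ((k : ℂ) * (z - z₀) ^ (k - 1)) z := by
        have := ((hasDerivAt_id z).sub_const z₀).fun_pow k
        simpa using this
      have h4 : HasDerivAt (fun z => G z j) (deriv (fun z => G z j) z) z :=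
        (differentiableAt_pi.1 hzd j).hasDerivAt
      exact (h3.mul h4).deriv
    have h2 : ∀ᶠ z in 𝓝[≠] z₀, (k : ℂ) * G z j =
        (z - z₀) * ((∑ i, M z j i * G z i) - deriv (fun z => G z j) z) := by
      filter_upwards [mem_nhdsWithin_of_mem_nhds h1, mem_nhdsWithin_of_mem_nhds hGeq,
        mem_nhdsWithin_of_mem_nhds (hΩ.mem_nhds hzH), self_mem_nhdsWithin] with z e1 e2 e3 e4
      have e5 := gg_deriv hm hF c' hj e3
      rw [e1] at e5
      have e6 : ∀ i, gg pq A e c' z i = (z - z₀) ^ k * G z i := by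
        intro i
        rw [e2]
        rfl
      simp only [e6] at e5
      have e7 : ∑ i, M z j i * ((z - z₀) ^ k * G z i) = (z - z₀) ^ k * ∑ i, M z j i * G z i := by
        rw [Finset.mul_sum]
        exact Finset.sum_congr rfl fun i _ => by ring
      rw [e7] at e5
      have hne : z - z₀ ≠ 0 := sub_ne_zero.2 e4
      have hne' : (z - z₀) ^ (k - 1) ≠ 0 := pow_ne_zero _ hne
      have e8 : (z - z₀) ^ k = (z - z₀) ^ (k - 1) * (z - z₀) := by
        rw [← pow_succ, Nat.sub_add_cancel hk]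
      rw [e8] at e5
      apply mul_left_cancel₀ hne'
      linear_combination e5
    have h3 : Tendsto (fun z => (k : ℂ) * G z j) (𝓝[≠] z₀) (𝓝 ((k : ℂ) * G z₀ j)) := by
      have h4 : ContinuousAt G z₀ := hG.continuousAt
      have h5 : Tendsto (fun z => G z j) (𝓝 z₀) (𝓝 (G z₀ j)) := (tendsto_pi_nhds.1 h4.tendsto) j
      exact (h5.const_mul _).mono_left nhdsWithin_le_nhds
    have h4 : Tendsto (fun z => (z - z₀) * ((∑ i, M z j i * G z i) - deriv (fun z => G z j) z))
        (𝓝[≠] z₀) (𝓝 0) := by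
      have h5 : ContinuousAt G z₀ := hG.continuousAt
      have h6 : ∀ i, Tendsto (fun z => G z i) (𝓝 z₀) (𝓝 (G z₀ i)) := tendsto_pi_nhds.1 h5.tendsto
      have h7 : ∀ i, Tendsto (fun z => M z j i) (𝓝 z₀) (𝓝 (M z₀ j i)) := fun i =>
        ((hF.cont j i).continuousAt (hΩ.mem_nhds hzH)).tendsto
      have h8 : Tendsto (fun z => deriv (fun z => G z j) z) (𝓝 z₀) (𝓝 (deriv (fun z => G z j) z₀)) := by
        have h9 : AnalyticAt ℂ (fun z => G z j) z₀ := by
          have := (ContinuousLinearMap.proj (R := ℂ) (φ := fun _ : β => ℂ) j).analyticAt (G z₀)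
          exact this.comp hG
        exact h9.deriv.continuousAt.tendsto
      have h10 : Tendsto (fun z : ℂ => z - z₀) (𝓝 z₀) (𝓝 0) := by
        have h12 : Continuous fun z : ℂ => z - z₀ := by fun_prop
        have h13 := h12.tendsto z₀
        rwa [sub_self] at h13
      have h11 := h10.mul ((tendsto_finsetSum Finset.univ fun i _ => (h7 i).mul (h6 i)).sub h8)
      rw [zero_mul] at h11
      exact h11.mono_left nhdsWithin_le_nhds
    have h5 : (k : ℂ) * G z₀ j = 0 := by
      haveI : (𝓝[≠] z₀).NeBot := inferInstance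
      exact tendsto_nhds_unique (h3.congr' h2) h4
    exact (mul_eq_zero.1 h5).resolve_left (by exact_mod_cast hk.ne')
  -- the scaled differences
  set t : ℕ → ℂ := fun n => s (φ n) with ht
  set d : ℕ → Fin r → ℝ := fun n => (‖t n - z₀‖ ^ k)⁻¹ • (c (φ n) - c') with hd
  set om : ℕ → ℂ := fun n => (t n - z₀) ^ k * (((‖t n - z₀‖ ^ k)⁻¹ : ℝ) : ℂ) with hom
  have htne : ∀ n, t n - z₀ ≠ 0 := fun n => sub_ne_zero.2 (hsne (φ n))
  have homn : ∀ n, om n ∈ Metric.closedBall (0 : ℂ) 1 := by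
    intro n
    rw [mem_closedBall_zero_iff, hom, norm_mul, norm_pow, Complex.norm_real, norm_inv, norm_pow,
      norm_norm, mul_inv_cancel₀ (pow_ne_zero _ (norm_ne_zero_iff.2 (htne n)))]
  have hom1 : ∀ n, ‖om n‖ = 1 := by
    intro n
    rw [hom, norm_mul, norm_pow, Complex.norm_real, norm_inv, norm_pow,
      norm_norm, mul_inv_cancel₀ (pow_ne_zero _ (norm_ne_zero_iff.2 (htne n)))]
  have htz : Tendsto t atTop (𝓝 z₀) := hsφ
  have hTd : ∀ᶠ n in atTop, TT0 pq (A (t n)) (d n) = om n • G (t n) := by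
    filter_upwards [htz.eventually hGeq] with n hn
    have h1 := gg_sub (pq := pq) (A := A) (e := e) c' (c (φ n)) (t n)
    rw [hgc (φ n), sub_zero, hn] at h1
    rw [hd, map_smul, ← h1, hom]
    funext j
    simp only [Pi.smul_apply, smul_eq_mul, Complex.real_smul]
    ring
  have hGt : Tendsto (fun n => G (t n)) atTop (𝓝 (G z₀)) := hG.continuousAt.tendsto.comp htz
  obtain ⟨B', hB'⟩ := hGt.norm.bddAbove_range
  obtain ⟨n₀, hn₀⟩ := Filter.eventually_atTop.1 hTd
  have hdb : ∀ n, d (n + n₀) ∈ Metric.closedBall (0 : Fin r → ℝ) (B' / c₀) := by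
    intro n
    rw [mem_closedBall_zero_iff, le_div_iff₀ hc₀, mul_comm]
    refine (hslow (φ (n + n₀)) (d (n + n₀))).trans ?_
    have h1 := hn₀ (n + n₀) (by omega)
    rw [ht] at h1
    simp only at h1
    rw [h1, norm_smul, hom1, one_mul]
    exact hB' ⟨n + n₀, rfl⟩
  obtain ⟨d', -, ψ, hψ, hdψ⟩ := (isCompact_closedBall (0 : Fin r → ℝ) (B' / c₀)).tendsto_subseq hdb
  obtain ⟨om', -, χ, hχ, homχ⟩ := (isCompact_closedBall (0 : ℂ) 1).tendsto_subseq
    (fun n => homn (ψ n + n₀))
  have hidx : Tendsto (fun n => ψ (χ n) + n₀) atTop atTop :=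
    (tendsto_add_atTop_nat n₀).comp (hψ.tendsto_atTop.comp hχ.tendsto_atTop)
  have ht' : Tendsto (fun n => t (ψ (χ n) + n₀)) atTop (𝓝 z₀) := htz.comp hidx
  have h1 := hTcont (fun n => d (ψ (χ n) + n₀)) (fun n => t (ψ (χ n) + n₀)) d' ht'
    (hdψ.comp hχ.tendsto_atTop)
  have h2 : Tendsto (fun n => om (ψ (χ n) + n₀) • G (t (ψ (χ n) + n₀))) atTop
      (𝓝 (om' • G z₀)) := homχ.smul (hGt.comp hidx)
  have h3 : TT0 pq (A z₀) d' = om' • G z₀ := by
    refine tendsto_nhds_unique h1 (h2.congr fun n => ?_)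
    exact (hn₀ _ (by omega)).symm
  have hom' : ‖om'‖ = 1 := by
    refine tendsto_nhds_unique homχ.norm ?_
    simp only [Function.comp_def, hom1]
    exact tendsto_const_nhds
  have h4 : d' = 0 := by
    apply hm.real_zero hzH
    intro a ha
    refine (hF.mem z₀ hzH (-1) (ofR d')).2 (fun j hj => ?_) a ha
    have h5 := congrFun h3 j
    rw [TT0_apply, if_pos (by omega), Pi.smul_apply, hGj j hj, smul_zero] at h5
    exact h5
  rw [h4, map_zero] at h3
  have h5 : om' ≠ 0 := by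
    intro h0
    rw [h0, norm_zero] at hom'
    exact zero_ne_one hom'
  exact hG0 ((smul_eq_zero.1 h3.symm).resolve_left h5)

/-- real points are isolated unless the class is flat -/
theorem isolated (hm : Mem w K Q D e) (hflat : ¬ FlatE K D e) {z₀ : ℂ} (hz₀ : 0 < z₀.im) :
    ∀ᶠ z in 𝓝[≠] z₀, ¬ RealAt K D e z := by
  by_contra hcon
  exact hflat (flat_of_frequently hm hz₀ hcon)

end ZW67
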