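import Pool.Agent.LibSP38.Glo2
import Pool.Agent.LibSP38.Gro3
import Pool.Agent.LibUS38.Inv2
import Pool.Agent.LibUS38.WirtC2

/-! Pull back of a polarized variation and polynomial comparison of the Hodge norm at a cusp. -/

open Matrix Complex
open scoped ComplexOrder ContDiff

namespace ZW67

open SP38 US38

variable {m : ℕ} {w : ℤ} {K : ℕ} {Q : Matrix (Fin m) (Fin m) ℝ} {Ω Ω' : Set ℂ}
  {P : ℂ → ℤ → Matrix (Fin m) (Fin m) ℂ} {θ : ℂ → Matrix (Fin m) (Fin m) ℂ} {φ : ℂ → ℂ}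

/-- pull back by a holomorphic map -/
theorem PV_comp (h : PV w K Q Ω P θ) (hΩ : IsOpen Ω) (hΩ' : IsOpen Ω')
    (hφ : DifferentiableOn ℂ φ Ω') (hm : ∀ z ∈ Ω', φ z ∈ Ω) :
    PV w K Q Ω' (fun z => P (φ z)) (fun z => deriv φ z • θ (φ z)) where
  hd z hz := h.hd _ (hm z hz)
  sm a := fun i j => SmS.compS hΩ' (h.sm a i j) hφ hm
  smθ := fun i j => SmS.mulS (SmS.of_holo hΩ' (wirtC2_deriv hΩ' hφ)) (SmS.compS hΩ' (h.smθ i j) hφ hm)
  der z hz a := by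
    have hd : DifferentiableAt ℂ φ z := hφ.differentiableAt (hΩ'.mem_nhds hz)
    rw [Inv2_DZ_comp (F := fun z => P z a) hΩ (h.sm a) (hm z hz) hd, h.der _ (hm z hz) a,
      smul_sub, smul_mul_assoc, mul_smul_comm]
  deg z hz a := by
    rw [smul_mul_assoc, h.deg _ (hm z hz) a, mul_smul_comm]
  skew z hz := by
    rw [Matrix.transpose_smul, smul_mul_assoc, mul_smul_comm, ← smul_add, h.skew _ (hm z hz),
      smul_zero]

/-- polynomial comparison of the Hodge norm with the fixed norm near a cusp, on every strip -/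
theorem mob_compare (h : PV w K Q (Hc 0) P θ) (σ : Matrix.SpecialLinearGroup (Fin 2) ℝ) (M : ℝ) :
    ∃ (C : ℕ) (Y : ℝ), 1 ≤ Y ∧ ∀ ζ : ℂ, |ζ.re| ≤ M → Y ≤ ζ.im → ∀ v : Fin m → ℂ,
      qf (metr w K Q (P (mob σ ζ))) v ≤ ζ.im ^ C * ‖v‖ ^ 2 ∧
      ‖v‖ ^ 2 ≤ ζ.im ^ C * qf (metr w K Q (P (mob σ ζ))) v := by
  set L : ℝ := 2 * |M| + 1 with hL
  have hL0 : 0 < L := by positivity
  have hL1 : 1 ≤ L := by
    rw [hL]
    have := abs_nonneg M
    linarith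
  set ψ : ℂ → ℂ := fun ξ => (L : ℂ) * ξ - ((|M| : ℝ) : ℂ) with hψ
  have hψim : ∀ ξ : ℂ, (ψ ξ).im = L * ξ.im := by
    intro ξ
    simp [hψ]
  have hψm : ∀ ξ ∈ Hc 0, ψ ξ ∈ Hc 0 := by
    intro ξ hξ
    have h1 : 0 < ξ.im := hξ
    show 0 < (ψ ξ).im
    rw [hψim]
    positivity
  have hψd : Differentiable ℂ ψ := by
    intro ξ
    exact ((differentiableAt_id).const_mul _).sub_const _
  have h1 := PV_comp h (isOpen_Hc 0) (isOpen_Hc 0) (φ := fun ξ => mob σ (ψ ξ))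
    ((mob_holo σ).comp hψd.differentiableOn hψm) (fun ξ hξ => mob_mem σ (hψm ξ hξ))
  obtain ⟨C, hC⟩ := h1.exists_compare
  obtain ⟨y, hy⟩ := glo2_strip hC
  refine ⟨C, max 1 (L * y), le_max_left _ _, fun ζ hζ hζ' v => ?_⟩
  have him0 : 1 ≤ ζ.im := (le_max_left _ _).trans hζ'
  set ξ : ℂ := (ζ + ((|M| : ℝ) : ℂ)) / (L : ℂ) with hξ
  have hLc : (L : ℂ) ≠ 0 := by exact_mod_cast hL0.ne'
  have e1 : ψ ξ = ζ := by
    rw [hψ, hξ]
    field_simp
    ring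
  have e2 : ξ.im = ζ.im / L := by
    rw [hξ, Complex.div_ofReal_im]
    simp
  have e3 : ξ.re = (ζ.re + |M|) / L := by
    rw [hξ, Complex.div_ofReal_re]
    simp
  have hM : |ζ.re| ≤ |M| := hζ.trans (le_abs_self M)
  have h2 := hy ξ (by
    rw [e2, le_div_iff₀ hL0, mul_comm]
    exact (le_max_right _ _).trans hζ') (by
    rw [e3]
    apply div_nonneg _ hL0.le
    linarith [(abs_le.1 hM).1]) (by
    rw [e3, div_le_one hL0, hL]
    linarith [(abs_le.1 hM).2]) v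
  simp only [e1] at h2
  have h3 : ξ.im ^ C ≤ ζ.im ^ C := by
    apply pow_le_pow_left₀
    · rw [e2]
      exact div_nonneg (by linarith) hL0.le
    · rw [e2]
      exact div_le_self (by linarith) hL1
  refine ⟨h2.1.trans (mul_le_mul_of_nonneg_right h3 (by positivity)),
    h2.2.trans (mul_le_mul_of_nonneg_right h3 (qf_nonneg (h.hd _ (mob_mem σ ?_)).posDef v))⟩
  show 0 < ζ.im
  linarith

end ZW67
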