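import Pool.Agent.LibZW67.QE3

/-! The frame of a quotient of the unipotent part, the polarized variation. -/

set_option linter.unusedSectionVars false

open Matrix Complex
open MW38 (Fl Tri blk dg HDA)
open SP38 (Hc)
open ZQ38
open scoped ComplexOrder

namespace ZW67

variable {ι : Type} [Fintype ι] [DecidableEq ι] {wt p : ι → ℤ} {K : ℕ} {w : ℤ} {r : ℕ}
  {m n : Submodule ℚ (Matrix ι ι ℚ)} {rho : Matrix ι ι ℚ →ₗ[ℚ] Matrix (Fin r) (Fin r) ℚ}
  {lam : Matrix ι ι ℚ →ₗ[ℚ] (Fin r → ℚ)}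
  {j : (Fin r → ℚ) →ₗ[ℚ] Matrix ι ι ℚ} {t₀ : Matrix ι ι ℚ} {Q : Matrix ι ι ℚ}
  {Φ : ℂ → Matrix ι ι ℂ} {P : ℂ → ℤ → Matrix ι ι ℂ} {h : ℂ → Matrix ι ι ℂ} {Ω : Set ℂ}

/-- the graded pieces of a holomorphic frame -/
theorem HolTr_dg (hΩ : IsOpen Ω) (hΦ : HolTr p Ω Φ) (ht : ∀ z ∈ Ω, Tri wt (Φ z)) :
    HolTr p Ω (fun z => dg wt (Φ z)) where
  unit z hz := MW38.dg_isUnit (hΦ.unit z hz) (ht z hz)
  hol i k := by
    by_cases hik : wt i = wt k
    · have e : (fun z => dg wt (Φ z) i k) = fun z => Φ z i k := by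
        funext z
        rw [dg, if_pos hik]
      rw [e]
      exact hΦ.hol i k
    · have e : (fun z => dg wt (Φ z) i k) = fun _ => (0 : ℂ) := by
        funext z
        rw [dg, if_neg hik]
      rw [e]
      exact differentiableOn_const 0
  tr z hz k := by
    have hu := hΦ.unit z hz
    have hdu := MW38.dg_isUnit hu (ht z hz)
    rw [MW38.mem_Fl_iff hdu]
    intro i hi
    -- derivative of the graded part
    set Φ' : Matrix ι ι ℂ := Matrix.of fun i k => deriv (fun z => Φ z i k) z with hΦ'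
    have hT : Tri wt Φ' := by
      intro a b hab
      have h1 : (fun z => Φ z a b) =ᶠ[nhds z] fun _ => (0 : ℂ) := by
        filter_upwards [hΩ.mem_nhds hz] with x hx
        exact ht x hx a b hab
      rw [hΦ', Matrix.of_apply, h1.deriv_eq, deriv_const]
    have hcol : (fun i => deriv (fun z => dg wt (Φ z) i k) z) = fun i => dgR wt Φ' i k := by
      funext a
      by_cases hak : wt a = wt k
      · have e : (fun z => dg wt (Φ z) a k) = fun z => Φ z a k := by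
          funext z
          rw [dg, if_pos hak]
        rw [e, dgR, if_pos hak]
        rfl
      · have e : (fun z => dg wt (Φ z) a k) = fun _ => (0 : ℂ) := by
          funext z
          rw [dg, if_neg hak]
        rw [e, dgR, if_neg hak, deriv_const]
    rw [hcol]
    have e1 : ((dg wt (Φ z))⁻¹ *ᵥ fun i => dgR wt Φ' i k) i = ((dg wt (Φ z))⁻¹ * dgR wt Φ') i k :=
      rfl
    have e2 : (dg wt (Φ z))⁻¹ = dgR wt (Φ z)⁻¹ := MW38.Col_dg_inv hu (ht z hz)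
    rw [e1, e2, ← dgR_mul ((ht z hz).inv hu) hT, dgR]
    split_ifs
    · have h1 := (MW38.mem_Fl_iff hu _).1 (hΦ.tr z hz k) i hi
      exact h1
    · rfl

/-- conjugation by a frame -/
theorem DZ_conj_frame (hΩ : IsOpen Ω) (hΦ : HolTr p Ω Φ) (B : Matrix ι ι ℂ) {z : ℂ} (hz : z ∈ Ω) :
    SP38.DZ (fun z => (Φ z)⁻¹ * B * Φ z) z =
      ((Φ z)⁻¹ * B * Φ z) * ((Φ z)⁻¹ * SP38.DZ Φ z) -
        ((Φ z)⁻¹ * SP38.DZ Φ z) * ((Φ z)⁻¹ * B * Φ z) := by
  have hdet : ∀ x ∈ Ω, IsUnit (Φ x).det := fun x hx =>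
    (Matrix.isUnit_iff_isUnit_det _).1 (hΦ.unit x hx)
  have hΨh : ∀ i j, DifferentiableOn ℂ (fun z => (Φ z)⁻¹ i j) Ω := MW38.homT_inv hΦ.hol hΦ.unit
  have sΦ : SP38.Sm Ω Φ := SP38.Sm.of_holo hΩ hΦ.hol
  have sΨ : SP38.Sm Ω (fun z => (Φ z)⁻¹) := SP38.Sm.of_holo hΩ hΨh
  have zΨ : SP38.DZ (fun z => (Φ z)⁻¹) z = -((Φ z)⁻¹ * SP38.DZ Φ z * (Φ z)⁻¹) := by
    have e : SP38.DZ (fun z => (Φ z)⁻¹ * Φ z) z = 0 := by
      rw [← SP38.DZ_const (z := z) (1 : Matrix ι ι ℂ)]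
      refine SP38.DZ_congr ?_
      filter_upwards [hΩ.mem_nhds hz] with x hx
      exact Matrix.nonsing_inv_mul _ (hdet x hx)
    rw [SP38.DZ_mul hΩ hz sΨ sΦ] at e
    have e2 : SP38.DZ (fun z => (Φ z)⁻¹) z * Φ z = -((Φ z)⁻¹ * SP38.DZ Φ z) :=
      eq_neg_of_add_eq_zero_left e
    calc SP38.DZ (fun z => (Φ z)⁻¹) z
        = (SP38.DZ (fun z => (Φ z)⁻¹) z * Φ z) * (Φ z)⁻¹ := by
          rw [Matrix.mul_assoc, Matrix.mul_nonsing_inv _ (hdet z hz), Matrix.mul_one]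
      _ = _ := by rw [e2, Matrix.neg_mul]
  have sB : SP38.Sm Ω (fun _ : ℂ => B) := SP38.Sm.const B
  rw [SP38.DZ_mul hΩ hz (SP38.Sm.mul sΨ sB) sΦ, SP38.DZ_mul hΩ hz sΨ sB, SP38.DZ_const, mul_zero,
    add_zero, zΨ]
  have e3 : (Φ z)⁻¹ * B * SP38.DZ Φ z =
      ((Φ z)⁻¹ * B * Φ z) * ((Φ z)⁻¹ * SP38.DZ Φ z) := by
    simp only [Matrix.mul_assoc]
    rw [← Matrix.mul_assoc (Φ z) (Φ z)⁻¹, Matrix.mul_nonsing_inv _ (hdet z hz), Matrix.one_mul]
  rw [e3]
  simp only [Matrix.neg_mul, Matrix.mul_assoc]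
  abel

/-- the connection matrix of the frame of the endomorphisms -/
noncomputable def MF (N : Matrix ι ι ℂ) : Matrix (ι × ι) (ι × ι) ℂ := fun x y =>
  (if x.1 = y.1 then N y.2 x.2 else 0) - (if y.2 = x.2 then N x.1 y.1 else 0)

theorem MF_mul (N X : Matrix ι ι ℂ) (x : ι × ι) :
    ∑ y : ι × ι, MF N x y * X y.1 y.2 = (X * N - N * X) x.1 x.2 := by
  rw [Fintype.sum_prod_type, Matrix.sub_apply, Matrix.mul_apply, Matrix.mul_apply]
  simp only [MF, sub_mul, Finset.sum_sub_distrib, ite_mul, zero_mul]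
  congr 1
  · rw [Finset.sum_eq_single_of_mem x.1 (Finset.mem_univ _)]
    · simp only [if_true]
      exact Finset.sum_congr rfl fun y _ => mul_comm _ _
    · intro a _ ha
      refine Finset.sum_eq_zero fun b _ => ?_
      rw [if_neg (Ne.symm ha)]
  · refine Finset.sum_congr rfl fun a _ => ?_
    rw [Finset.sum_ite_eq', if_pos (Finset.mem_univ _)]

theorem frame_of_JE (hO : OpD wt p K Φ P h) (hQ : QuD wt K P h m n t₀ w r lam rho)
    (hj : JE wt m w r rho j)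
    (hp : ∀ z ∈ Hc 0, Polynomial.aeval (DD K P h rho z) (npoly (2 * K)) = 0) :
    ∃ (β : Type) (_ : Fintype β) (pq : β → ℤ) (A : ℂ → Matrix β (Fin r) ℂ)
      (M : ℂ → Matrix β β ℂ), Frame (2 * K) (DD K P h rho) pq A M := by
  have hΩ : IsOpen (Hc 0) := isOpen_lt continuous_const Complex.continuous_im
  have hT : ∀ z ∈ Hc 0, Tri wt (Φ z) := fun z hz => (hO.gr z hz).tri
  have hH := HolTr_dg (wt := wt) hΩ hO.hol hT
  set Ψ : ℂ → Matrix ι ι ℂ := fun z => dg wt (Φ z) with hΨ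
  have hΨi : ∀ i j, DifferentiableOn ℂ (fun z => (Ψ z)⁻¹ i j) (Hc 0) := MW38.homT_inv hH.hol hH.unit
  have sΨ : SP38.Sm (Hc 0) Ψ := SP38.Sm.of_holo hΩ hH.hol
  have sΨi : SP38.Sm (Hc 0) (fun z => (Ψ z)⁻¹) := SP38.Sm.of_holo hΩ hΨi
  set B : Fin r → Matrix ι ι ℂ := fun l => jC j (Pi.single l 1) with hB
  have hA : ∀ l, ∀ a b, DifferentiableOn ℂ (fun z => ((Ψ z)⁻¹ * B l * Ψ z) a b) (Hc 0) := by
    intro l a b
    have e : (fun z => ((Ψ z)⁻¹ * B l * Ψ z) a b) =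
        fun z => ∑ d, (∑ c, (Ψ z)⁻¹ a c * B l c d) * Ψ z d b := by
      funext z
      simp only [Matrix.mul_apply]
    rw [e]
    exact DifferentiableOn.fun_sum fun d _ => (DifferentiableOn.fun_sum fun c _ =>
      (hΨi a c).mul_const _).mul (hH.hol d b)
  refine ⟨ι × ι, inferInstance, fun x => p x.1 - p x.2,
    fun z x l => ((Ψ z)⁻¹ * B l * Ψ z) x.1 x.2, fun z => MF ((Ψ z)⁻¹ * SP38.DZ Ψ z), ?_⟩
  constructor
  · intro x l
    exact hA l x.1 x.2
  · intro z hz l v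
    have h1 : ∀ x : ι × ι, ((fun x l => ((Ψ z)⁻¹ * B l * Ψ z) x.1 x.2 :
        Matrix (ι × ι) (Fin r) ℂ) *ᵥ v) x = ((Ψ z)⁻¹ * jC j v * Ψ z) x.1 x.2 := by
      intro x
      rw [jC_decomp v, Finset.mul_sum, Finset.sum_mul, Matrix.sum_apply]
      simp only [Matrix.mulVec, dotProduct]
      refine Finset.sum_congr rfl fun a _ => ?_
      rw [mul_smul_comm, smul_mul_assoc, Matrix.smul_apply, smul_eq_mul, mul_comm]
    have h2 := hj.mem_iff (hO.gr z hz) (hO.del z hz).un (hQ.opP z hz) (hp z hz) l v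
    have h3 : DD K P h rho z = rhoC rho (oP K (P z) (h z)) := rfl
    rw [h3, h2, mem_Fend_iff (hH.unit z hz)]
    constructor
    · intro h4 x hx
      have h5 := h1 x
      have hx' : p x.1 - p x.2 < l := hx
      rw [h4 x.1 x.2 (by omega)] at h5
      exact h5
    · intro h4 a b hab
      have h5 := h1 (a, b)
      have hx' : p (a, b).1 - p (a, b).2 < l := by
        show p a - p b < l
        omega
      rw [h4 (a, b) hx'] at h5
      exact h5.symm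
  · have sN : SP38.Sm (Hc 0) (fun z => (Ψ z)⁻¹ * SP38.DZ Ψ z) := SP38.Sm.mul sΨi (SP38.Sm.DZ hΩ sΨ)
    intro x y
    have c1 : ∀ a b, ContinuousOn (fun z => ((Ψ z)⁻¹ * SP38.DZ Ψ z) a b) (Hc 0) := fun a b =>
      (sN a b).continuousOn
    simp only [MF]
    refine ContinuousOn.sub ?_ ?_
    · by_cases h1 : x.1 = y.1
      · simp only [h1, if_true]
        exact c1 _ _
      · simp only [h1, if_false]
        exact continuousOn_const
    · by_cases h1 : y.2 = x.2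
      · simp only [h1, if_true]
        exact c1 _ _
      · simp only [h1, if_false]
        exact continuousOn_const
  · intro z hz x l
    have h1 := congrFun (congrFun (DZ_conj_frame hΩ hH (B l) hz) x.1) x.2
    rw [← MF_mul] at h1
    rw [Matrix.mul_apply]
    refine Eq.trans ?_ h1
    exact (SP38.dz_of_holo ((hA l x.1 x.2).differentiableAt (hΩ.mem_nhds hz))).symm
  · intro z hz x y hxy
    have hN : ∀ a b, p a < p b - 1 → ((Ψ z)⁻¹ * SP38.DZ Ψ z) a b = 0 := by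
      intro a b hab
      have h1 := (MW38.mem_Fl_iff (hH.unit z hz) _).1 (hH.tr z hz b) a hab
      rw [SP38.DZ_of_holo hΩ hz hH.hol]
      exact h1
    have hxy' : p x.1 - p x.2 + 1 < p y.1 - p y.2 := hxy
    clear hxy
    have e1 : (if x.1 = y.1 then ((Ψ z)⁻¹ * SP38.DZ Ψ z) y.2 x.2 else 0) = 0 := by
      split_ifs with h1
      · rw [h1] at hxy'
        exact hN _ _ (by omega)
      · rfl
    have e2 : (if y.2 = x.2 then ((Ψ z)⁻¹ * SP38.DZ Ψ z) x.1 y.1 else 0) = 0 := by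
      split_ifs with h1
      · rw [h1] at hxy'
        exact hN _ _ (by omega)
      · rfl
    show (if x.1 = y.1 then ((Ψ z)⁻¹ * SP38.DZ Ψ z) y.2 x.2 else 0) -
      (if y.2 = x.2 then ((Ψ z)⁻¹ * SP38.DZ Ψ z) x.1 y.1 else 0) = 0
    rw [e1, e2, sub_zero]

/-- the polarized variation of a quotient -/
theorem gd_of_JE (hO : OpD wt p K Φ P h) (hQ : QuD wt K P h m n t₀ w r lam rho)
    (hj : JE wt m w r rho j)
    (hg : ∀ z ∈ Hc 0, PolG wt p K (Q.map (algebraMap ℚ ℝ)) (Φ z) (P z))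
    (hs : SP38.Sm (Hc 0) (DD K P h rho))
    (hp : ∀ z ∈ Hc 0, Polynomial.aeval (DD K P h rho z) (npoly (2 * K)) = 0)
    (hc : ∀ z ∈ Hc 0, (DD K P h rho z).map (starRingEnd ℂ) = (w : ℂ) • 1 - DD K P h rho z)
    (hd : ∀ z ∈ Hc 0, SP38.DZ (DD K P h rho) z * DD K P h rho z -
      DD K P h rho z * SP38.DZ (DD K P h rho) z = SP38.DZ (DD K P h rho) z) :
    GD w (2 * K) (QJ wt Q j) (Hc 0) (DD K P h rho) where
  sm := hs
  poly := hp
  conj := hc
  skew z hz := hj.skew (hg z hz) (hO.del z hz).un (hQ.opP z hz)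
  deg := hd
  pos z hz a v hv hv0 := hj.pos (hg z hz) (hO.del z hz).un (hQ.opP z hz) hv hv0

end ZW67
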