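import Pool.Agent.LibUS38.DelD2

/-! Frame-free data of an extension: a smooth section `e` of the pure variation with
`∂̄ e ∈ F^0` and `∂ e ∈ F^{-1}` (MP_eeb1a4_ag). -/

open Matrix Complex
open scoped ComplexOrder ContDiff

namespace ZW67

open SP38 US38

variable {m : ℕ} {w : ℤ} {K : ℕ} {Q : Matrix (Fin m) (Fin m) ℝ} {Ω : Set ℂ}
  {P : ℂ → ℤ → Matrix (Fin m) (Fin m) ℂ} {θ : ℂ → Matrix (Fin m) (Fin m) ℂ}
  {e : ℂ → Fin m → ℂ} {v u : ℂ → Fin m → ℂ} {z : ℂ}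

/-- frame-free data of an extension of the constant variation by a pure one -/
structure ExtE (w : ℤ) (K : ℕ) (Q : Matrix (Fin m) (Fin m) ℝ) (Ω : Set ℂ)
    (P : ℂ → ℤ → Matrix (Fin m) (Fin m) ℂ) (θ : ℂ → Matrix (Fin m) (Fin m) ℂ)
    (e : ℂ → Fin m → ℂ) : Prop where
  pv : PV w K Q Ω P θ
  sme : SmV Ω e
  d0 : ∀ z ∈ Ω, ∀ a : ℤ, a < 0 → P z a *ᵥ DVb e z = 0
  d1 : ∀ z ∈ Ω, ∀ a : ℤ, a < -1 → P z a *ᵥ DV e z = 0

/-- the two differential equations for `δ`, all that is needed for the inequality -/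
structure ExtD (w : ℤ) (K : ℕ) (Q : Matrix (Fin m) (Fin m) ℝ) (Ω : Set ℂ)
    (P : ℂ → ℤ → Matrix (Fin m) (Fin m) ℂ) (θ : ℂ → Matrix (Fin m) (Fin m) ℂ)
    (v u : ℂ → Fin m → ℂ) : Prop where
  pv : PV w K Q Ω P θ
  smv : SmV Ω v
  smu : SmV Ω u
  real : ∀ z ∈ Ω, cj (v z) = v z
  D1_del : ∀ z ∈ Ω, D1 θ (del w P v) z =
    eta P θ v u z - Rm w (P z) *ᵥ (θ z *ᵥ del w P v z)
  D2_eta : ∀ z ∈ Ω, D2 θ (eta P θ v u) z = θ z *ᵥ (tb θ z *ᵥ (P z (-1) *ᵥ v z))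

theorem imv_eq (x : Fin m → ℂ) : imv x = (2 * I : ℂ)⁻¹ • (x - cj x) := by
  rw [del_imv, smul_smul, inv_mul_cancel₀ (mul_ne_zero two_ne_zero I_ne_zero), one_smul]

theorem cj_smul' (c : ℂ) (x : Fin m → ℂ) : cj (c • x) = (starRingEnd ℂ) c • cj x := del_cj_smul c x

theorem cj_zero : cj (0 : Fin m → ℂ) = 0 := by
  funext i
  simp [cj]

theorem cj_cj (x : Fin m → ℂ) : cj (cj x) = x := by
  funext i
  simp [cj]

theorem conj_2I_inv : (starRingEnd ℂ) ((2 * I : ℂ)⁻¹) = -(2 * I : ℂ)⁻¹ := by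
  rw [map_inv₀, map_mul, Complex.conj_I, map_ofNat, mul_neg, inv_neg]

/-! ### calculus -/

theorem SmV.cj (hx : SmV Ω v) : SmV Ω (fun z => cj (v z)) := by
  intro i
  have h1 := hx i
  exact Complex.conjCLE.contDiff.comp_contDiffOn h1

theorem SmV.smul (c : ℂ) (hx : SmV Ω v) : SmV Ω (fun z => c • v z) := by
  intro i
  exact ContDiffOn.mul contDiffOn_const (hx i)

theorem SmV.DV (hΩ : IsOpen Ω) (hx : SmV Ω v) : SmV Ω (DV v) := fun i => SmS.dz hΩ (hx i)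

theorem SmV.DVb (hΩ : IsOpen Ω) (hx : SmV Ω v) : SmV Ω (DVb v) := fun i => SmS.dzb hΩ (hx i)

theorem SmV.imv (hx : SmV Ω v) : SmV Ω (fun z => imv (v z)) := by
  have h1 : SmV Ω (fun z => (2 * I : ℂ)⁻¹ • (v z - SP38.cj (v z))) :=
    SmV.smul _ (US38.SmV.sub hx (SmV.cj hx))
  intro i
  have h2 := h1 i
  have h3 : (fun z => US38.imv (v z) i) = fun z => ((2 * I : ℂ)⁻¹ • (v z - SP38.cj (v z))) i := by
    funext z
    rw [imv_eq]
  rw [h3]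
  exact h2

theorem DV_cj (hΩ : IsOpen Ω) (hz : z ∈ Ω) (hx : SmV Ω v) :
    DV (fun z => cj (v z)) z = cj (DVb v z) := by
  funext i
  exact dz_conj ((hx i).differentiableAt hΩ hz)

theorem DVb_cj (hΩ : IsOpen Ω) (hz : z ∈ Ω) (hx : SmV Ω v) :
    DVb (fun z => cj (v z)) z = cj (DV v z) := by
  funext i
  exact dzb_conj ((hx i).differentiableAt hΩ hz)

theorem DV_smul (hΩ : IsOpen Ω) (hz : z ∈ Ω) (c : ℂ) (hx : SmV Ω v) :
    DV (fun z => c • v z) z = c • DV v z := by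
  funext i
  exact WirtM_dz_smul c ((hx i).differentiableAt hΩ hz)

theorem DVb_smul (hΩ : IsOpen Ω) (hz : z ∈ Ω) (c : ℂ) (hx : SmV Ω v) :
    DVb (fun z => c • v z) z = c • DVb v z := by
  funext i
  exact WirtM_dzb_smul c ((hx i).differentiableAt hΩ hz)

theorem DV_congr {v' : ℂ → Fin m → ℂ} (h : ∀ᶠ x in nhds z, v x = v' x) : DV v z = DV v' z := by
  funext i
  exact dz_congr (h.mono fun x hx => congrFun hx i)

theorem DVb_congr {v' : ℂ → Fin m → ℂ} (h : ∀ᶠ x in nhds z, v x = v' x) :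
    DVb v z = DVb v' z := by
  funext i
  exact dzb_congr (h.mono fun x hx => congrFun hx i)

theorem DV_DVb (hΩ : IsOpen Ω) (hz : z ∈ Ω) (hx : SmV Ω v) : DV (DVb v) z = DVb (DV v) z := by
  funext i
  exact SmS.dz_dzb hΩ (hx i) hz

theorem DV_imv (hΩ : IsOpen Ω) (hz : z ∈ Ω) (hx : SmV Ω v) :
    DV (fun z => imv (v z)) z = (2 * I : ℂ)⁻¹ • (DV v z - cj (DVb v z)) := by
  have h1 : (fun z => imv (v z)) = fun z => (2 * I : ℂ)⁻¹ • (v z - cj (v z)) := by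
    funext z
    exact imv_eq _
  rw [h1, DV_smul hΩ hz _ (US38.SmV.sub hx (SmV.cj hx)), DV_sub hΩ hz hx (SmV.cj hx),
    DV_cj hΩ hz hx]

theorem DVb_imv (hΩ : IsOpen Ω) (hz : z ∈ Ω) (hx : SmV Ω v) :
    DVb (fun z => imv (v z)) z = (2 * I : ℂ)⁻¹ • (DVb v z - cj (DV v z)) := by
  have h1 : (fun z => imv (v z)) = fun z => (2 * I : ℂ)⁻¹ • (v z - cj (v z)) := by
    funext z
    exact imv_eq _
  rw [h1, DVb_smul hΩ hz _ (US38.SmV.sub hx (SmV.cj hx)), DVb_sub hΩ hz hx (SmV.cj hx),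
    DVb_cj hΩ hz hx]

/-- the derivative of a section of `F^0`: if `P_a g = 0` near `z` then `P_a ∂g = θ P_{a+1} g` -/
theorem P_DV_of_zero (hΩ : IsOpen Ω) (h : PV w K Q Ω P θ) {g : ℂ → Fin m → ℂ} (hg : SmV Ω g)
    {a : ℤ} (h0 : ∀ z ∈ Ω, P z a *ᵥ g z = 0) (hz : z ∈ Ω) :
    P z a *ᵥ DV g z = θ z *ᵥ (P z (a + 1) *ᵥ g z) := by
  have h1 : DV (fun z => P z a *ᵥ g z) z = 0 := by
    rw [DV_congr (v' := fun _ => 0)]
    · funext i
      exact dz_const 0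
    · filter_upwards [hΩ.mem_nhds hz] with x hx
      exact h0 x hx
  rw [DV_mulVec hΩ hz (h.sm a) hg, h.der z hz a, Matrix.sub_mulVec, ← Matrix.mulVec_mulVec,
    h0 z hz, Matrix.mulVec_zero, zero_sub] at h1
  have h2 := h.deg z hz (a + 1)
  rw [add_sub_cancel_right] at h2
  rw [Matrix.mulVec_mulVec, h2]
  have h3 : P z a *ᵥ DV g z - (P z a * θ z) *ᵥ g z = 0 := by
    rw [← h1]
    abel
  exact sub_eq_zero.1 h3

namespace ExtE

theorem u_eq (h : ExtE w K Q Ω P θ e) (hΩ : IsOpen Ω) (hz : z ∈ Ω) :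
    DV (fun z => imv (e z)) z = (2 * I : ℂ)⁻¹ • (DV e z - cj (DVb e z)) := DV_imv hΩ hz h.sme

/-- the components of the derivative of the imaginary part -/
theorem P_u (h : ExtE w K Q Ω P θ e) (hΩ : IsOpen Ω) (hz : z ∈ Ω) {b : ℤ} (hb : w < b)
    (hb' : b < -1) : P z b *ᵥ DV (fun z => imv (e z)) z = 0 := by
  have h1 := (h.pv.hd z hz).hd1_cj (w - b) (DVb e z)
  rw [h.d0 z hz (w - b) (by omega), sub_sub_cancel, cj_zero] at h1
  rw [h.u_eq hΩ hz, Matrix.mulVec_smul, Matrix.mulVec_sub, h.d1 z hz b hb', ← h1, sub_zero,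
    smul_zero]

theorem P_w_u (h : ExtE w K Q Ω P θ e) (hΩ : IsOpen Ω) (hw : w ≤ -3) (hz : z ∈ Ω) :
    P z 0 *ᵥ cj (DV (fun z => imv (e z)) z) = (2 * I : ℂ)⁻¹ • (P z 0 *ᵥ DVb e z) := by
  have h1 := (h.pv.hd z hz).hd1_cj 0 (DVb e z)
  rw [sub_zero] at h1
  have h2 : P z w *ᵥ DV (fun z => imv (e z)) z = -((2 * I : ℂ)⁻¹ • cj (P z 0 *ᵥ DVb e z)) := by
    rw [h.u_eq hΩ hz, Matrix.mulVec_smul, Matrix.mulVec_sub, h.d1 z hz w (by omega), ← h1,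
      zero_sub, smul_neg]
  have h3 := (h.pv.hd z hz).hd1_cj w (DV (fun z => imv (e z)) z)
  rw [sub_self, h2] at h3
  rw [← h3]
  have h4 : cj (-((2 * I : ℂ)⁻¹ • cj (P z 0 *ᵥ DVb e z))) =
      -(cj ((2 * I : ℂ)⁻¹ • cj (P z 0 *ᵥ DVb e z))) := by
    funext i
    simp [SP38.cj]
  rw [h4, cj_smul', conj_2I_inv, cj_cj, neg_smul, neg_neg]

theorem P_DVb_u (h : ExtE w K Q Ω P θ e) (hΩ : IsOpen Ω) (hw : w ≤ -3) (hz : z ∈ Ω) :
    P z (-1) *ᵥ DVb (DV (fun z => imv (e z))) z =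
      (2 * I : ℂ)⁻¹ • (θ z *ᵥ (P z 0 *ᵥ DVb e z)) := by
  have hv : SmV Ω (fun z => imv (e z)) := SmV.imv h.sme
  have hg : SmV Ω (DVb e) := SmV.DVb hΩ h.sme
  have h1 : DVb (DV (fun z => imv (e z))) z = DV (DVb (fun z => imv (e z))) z :=
    (DV_DVb hΩ hz hv).symm
  have h2 : DVb (DV (fun z => imv (e z))) z =
      (2 * I : ℂ)⁻¹ • (DV (DVb e) z - cj (DV (DVb e) z)) := by
    have h3 : DVb (DV (fun z => imv (e z))) z =
        DVb (fun z => (2 * I : ℂ)⁻¹ • (DV e z - cj (DVb e z))) z := by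
      apply DVb_congr
      filter_upwards [hΩ.mem_nhds hz] with x hx
      exact h.u_eq hΩ hx
    rw [h3, DVb_smul hΩ hz _ (US38.SmV.sub (SmV.DV hΩ h.sme) (SmV.cj hg)),
      DVb_sub hΩ hz (SmV.DV hΩ h.sme) (SmV.cj hg), DVb_cj hΩ hz hg, DV_DVb hΩ hz h.sme]
  have h4 : P z (-1) *ᵥ DV (DVb e) z = θ z *ᵥ (P z 0 *ᵥ DVb e z) := by
    have := P_DV_of_zero hΩ h.pv hg (a := -1) (fun z hz => h.d0 z hz (-1) (by norm_num)) hz
    rwa [neg_add_cancel] at this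
  have h5 : P z (w + 1) *ᵥ DV (DVb e) z = 0 := by
    have := P_DV_of_zero hΩ h.pv hg (a := w + 1) (fun z hz => h.d0 z hz (w + 1) (by omega)) hz
    rw [this, h.d0 z hz (w + 1 + 1) (by omega), Matrix.mulVec_zero]
  have h6 := (h.pv.hd z hz).hd1_cj (w + 1) (DV (DVb e) z)
  rw [h5, cj_zero, show w - (w + 1) = -1 by ring] at h6
  rw [h2, Matrix.mulVec_smul, Matrix.mulVec_sub, h4, ← h6, sub_zero]

theorem sm_u (h : ExtE w K Q Ω P θ e) (hΩ : IsOpen Ω) : SmV Ω (DV (fun z => imv (e z))) :=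
  SmV.DV hΩ (SmV.imv h.sme)

/-- the frame-free data satisfy the two equations -/
theorem toD (h : ExtE w K Q Ω P θ e) (hΩ : IsOpen Ω) (hw : w ≤ -3) :
    ExtD w K Q Ω P θ (fun z => imv (e z)) (DV (fun z => imv (e z))) where
  pv := h.pv
  smv := SmV.imv h.sme
  smu := h.sm_u hΩ
  real z _ := del_cj_imv _
  D1_del := by
    intro z hz
    have hv : SmV Ω (fun z => imv (e z)) := SmV.imv h.sme
    have h1 : DV (del w P (fun z => imv (e z))) z = DZ (fun z => Rm w (P z)) z *ᵥ imv (e z) +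
        Rm w (P z) *ᵥ DV (fun z => imv (e z)) z :=
      DV_mulVec hΩ hz (delD_sm_Rm h.pv) hv
    have h2 : Rm w (P z) *ᵥ DV (fun z => imv (e z)) z =
        P z (-1) *ᵥ DV (fun z => imv (e z)) z := by
      rw [Rm, Matrix.sum_mulVec]
      refine Finset.sum_eq_single_of_mem (-1) (Finset.mem_Ioo.mpr ⟨by omega, by norm_num⟩)
        fun b hb hb1 => ?_
      rw [Finset.mem_Ioo] at hb
      exact h.P_u hΩ hz hb.1 (by omega)
    rw [D1, h1, delD2_DZ_Rm hΩ h.pv hz, h2, US38.eta, del,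
      Matrix.mulVec_mulVec, Matrix.mulVec_mulVec, ← Matrix.mul_assoc,
      delD2_Rm_theta h.pv (by omega) hz, Matrix.sub_mulVec, Matrix.sub_mulVec, Matrix.mulVec_sub,
      Matrix.mulVec_mulVec]
    abel
  D2_eta := by
    intro z hz
    set v : ℂ → Fin m → ℂ := fun z => imv (e z) with hvdef
    set u : ℂ → Fin m → ℂ := DV v with hudef
    have hv : SmV Ω v := SmV.imv h.sme
    have hu : SmV Ω u := h.sm_u hΩ
    have hreal : ∀ z ∈ Ω, cj (v z) = v z := fun z _ => del_cj_imv _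
    have hdvb : DVb v z = cj (u z) := delD_DVb_real hΩ hz hv hreal
    have hsy : SmV Ω (fun z => θ z *ᵥ v z) := SmV.mulVec h.pv.smθ hv
    have h1 : DVb (eta P θ v u) z = DB (fun z => P z (-1)) z *ᵥ (u z - θ z *ᵥ v z) +
        P z (-1) *ᵥ DVb (fun z => u z - θ z *ᵥ v z) z :=
      DVb_mulVec hΩ hz (h.pv.sm (-1)) (US38.SmV.sub hu hsy)
    have h2 : DVb (fun z => u z - θ z *ᵥ v z) z =
        DVb u z - ((tb θ z * θ z - θ z * tb θ z) *ᵥ v z + θ z *ᵥ cj (u z)) := by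
      rw [DVb_sub hΩ hz hu hsy, DVb_mulVec hΩ hz h.pv.smθ hv, h.pv.DB_θ hΩ hz, hdvb]
      rfl
    have e1 : P z (-1) * tb θ z = tb θ z * P z (-2) := by
      have e := h.pv.degB hz (-2)
      rw [show (-2 : ℤ) + 1 = -1 by norm_num] at e
      exact e.symm
    have e2 : P z (-1) * θ z = θ z * P z 0 := by
      have e := h.pv.deg z hz 0
      rw [zero_sub] at e
      exact e.symm
    have e3 : P z 0 * tb θ z = tb θ z * P z (-1) := by
      have e := h.pv.degB hz (-1)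
      rw [show (-1 : ℤ) + 1 = 0 by norm_num] at e
      exact e.symm
    have f1 : P z (-2) *ᵥ u z = 0 := h.P_u hΩ hz (by omega) (by norm_num)
    have f2 : P z 0 *ᵥ cj (u z) = (2 * I : ℂ)⁻¹ • (P z 0 *ᵥ DVb e z) := h.P_w_u hΩ hw hz
    have f3 : DB (fun z => P z (-1)) z = tb θ z * P z (-1) - P z (-1) * tb θ z :=
      h.pv.derB hΩ hz (-1)
    have f4 : P z (-1) *ᵥ DVb u z = (2 * I : ℂ)⁻¹ • (θ z *ᵥ (P z 0 *ᵥ DVb e z)) :=
      h.P_DVb_u hΩ hw hz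
    rw [D2, h1, h2, f3, US38.eta]
    have g1 : P z (-1) *ᵥ (tb θ z *ᵥ u z) = 0 := by
      rw [Matrix.mulVec_mulVec, e1, ← Matrix.mulVec_mulVec, f1, Matrix.mulVec_zero]
    have g2 : P z (-1) *ᵥ (θ z *ᵥ cj (u z)) = P z (-1) *ᵥ DVb u z := by
      rw [f4, Matrix.mulVec_mulVec, e2, ← Matrix.mulVec_mulVec, f2, Matrix.mulVec_smul]
    have g3 : P z (-1) *ᵥ (θ z *ᵥ (tb θ z *ᵥ v z)) = θ z *ᵥ (tb θ z *ᵥ (P z (-1) *ᵥ v z)) := by
      rw [Matrix.mulVec_mulVec, e2, ← Matrix.mulVec_mulVec, Matrix.mulVec_mulVec (v z), e3,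
        ← Matrix.mulVec_mulVec]
    simp only [Matrix.sub_mulVec, Matrix.mulVec_sub, Matrix.mulVec_neg, Matrix.mulVec_add,
      ← Matrix.mulVec_mulVec]
    rw [g1, g2, g3]
    abel

end ExtE

end ZW67
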