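import Pool.Agent.LibZW67.ExtE
import Pool.Agent.LibUS38.Half
import Pool.Agent.LibUS38.NPT2
import Pool.Agent.LibUS38.WirtC2

/-! The differential inequality from the two equations (port of `LibUS38`). -/

open Matrix Complex
open scoped ComplexOrder ContDiff

namespace ZW67

open SP38 US38

variable {m : ℕ} {w : ℤ} {K : ℕ} {Q : Matrix (Fin m) (Fin m) ℝ} {Ω : Set ℂ}
  {P : ℂ → ℤ → Matrix (Fin m) (Fin m) ℂ} {θ : ℂ → Matrix (Fin m) (Fin m) ℂ}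
  {v u : ℂ → Fin m → ℂ} {z : ℂ}

theorem ExtD.sm_del (h : ExtD w K Q Ω P θ v u) (hΩ : IsOpen Ω) : SmV Ω (del w P v) := by
  have _ := hΩ
  exact SmV.mulVec (delD_sm_Rm h.pv) h.smv

theorem ExtD.sm_eta (h : ExtD w K Q Ω P θ v u) (hΩ : IsOpen Ω) : SmV Ω (eta P θ v u) := by
  have _ := hΩ
  exact SmV.mulVec (h.pv.sm (-1)) (SmV.sub h.smu (SmV.mulVec h.pv.smθ h.smv))

theorem ExtD.cj_del (h : ExtD w K Q Ω P θ v u) (hz : z ∈ Ω) : cj (del w P v z) = del w P v z := by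
  rw [del, hd1_cj_mulVec, Rm_real (h.pv.hd z hz), h.real z hz]

theorem ExtD.D2_del (h : ExtD w K Q Ω P θ v u) (hΩ : IsOpen Ω) (hz : z ∈ Ω) :
    D2 θ (del w P v) z = cj (D1 θ (del w P v) z) := by
  rw [D2, D1, delD_DVb_real hΩ hz (h.sm_del hΩ) fun y hy => h.cj_del hy, del_cj_sub,
    hd1_cj_mulVec, h.cj_del hz, tb]

theorem ExtD.D2_theta_del (h : ExtD w K Q Ω P θ v u) (hΩ : IsOpen Ω) (hz : z ∈ Ω) :
    D2 θ (fun z => θ z *ᵥ del w P v z) z = θ z *ᵥ D2 θ (del w P v) z := by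
  rw [D2, D2, DVb_mulVec hΩ hz h.pv.smθ (h.sm_del hΩ), h.pv.DB_θ hΩ hz, tb, Matrix.mulVec_sub,
    Matrix.sub_mulVec, Matrix.mulVec_mulVec, Matrix.mulVec_mulVec]
  abel

/-- `δ` is fixed by the projector -/
theorem npt_Rm_del (h : ExtD w K Q Ω P θ v u) (hz : z ∈ Ω) :
    Rm w (P z) *ᵥ del w P v z = del w P v z := by
  rw [del, Matrix.mulVec_mulVec, Rm_Rm (h.pv.hd z hz)]

theorem npt_hm_Rm (h : ExtD w K Q Ω P θ v u) (hz : z ∈ Ω) (x : Fin m → ℂ) :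
    hm (metr w K Q (P z)) (Rm w (P z) *ᵥ x) (del w P v z) =
      hm (metr w K Q (P z)) x (del w P v z) := by
  rw [hm_adj (h.pv.hd z hz).posDef, adj_Rm (h.pv.hd z hz), npt_Rm_del h hz]

/-- pairing a conjugate vector with `δ` -/
theorem npt_hm_cj (h : ExtD w K Q Ω P θ v u) (hz : z ∈ Ω) (x : Fin m → ℂ) :
    hm (metr w K Q (P z)) (del w P v z) (cj x) = hm (metr w K Q (P z)) x (del w P v z) := by
  have h1 := hm_cj (h.pv.hd z hz) (del w P v z) x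
  rw [h.cj_del hz] at h1
  rw [h1, ← hm_comm (h.pv.hd z hz).posDef]

theorem ExtD.dz_NN (h : ExtD w K Q Ω P θ v u) (hΩ : IsOpen Ω) (hw : w ≤ -3) (hz : z ∈ Ω) :
    dz (NN w K Q P v) z = 2 * (PE w K Q P θ v u z - TT w K Q P θ v z) := by
  have h1 := dz_hm hΩ h.pv (h.sm_del hΩ) (h.sm_del hΩ) hz
  have h2 : dz (NN w K Q P v) z =
      dz (fun z => hm (metr w K Q (P z)) (del w P v z) (del w P v z)) z := rfl
  rw [h2, h1, h.D2_del hΩ hz, npt_hm_cj h hz, h.D1_del z hz, hm_sub_left, npt_hm_Rm h hz]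
  unfold PE TT
  ring

/-- twice the norm of the component of type `(-1, w + 1)` of a real vector is at most the norm -/
theorem npt_half {P : ℤ → Matrix (Fin m) (Fin m) ℂ} (h : HD w K Q P) (hw : w ≤ -3)
    {x : Fin m → ℂ} (hx : cj x = x) :
    2 * qf (metr w K Q P) (P (-1) *ᵥ x) ≤ qf (metr w K Q P) x := by
  have h1 : qf (metr w K Q P) (P (-1) *ᵥ x) = qf (metr w K Q P) (P (w + 1) *ᵥ x) := by
    rw [h.qf_cj, hx]
    congr 3
  have h0 : ∀ a, 0 ≤ qf (metr w K Q P) (P a *ᵥ x) := fun a => qf_nonneg h.posDef _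
  by_cases ha : (-1 : ℤ) ∈ Finset.Icc (-(K : ℤ)) K
  · by_cases hb : w + 1 ∈ Finset.Icc (-(K : ℤ)) K
    · rw [h.qf_sum x]
      have h2 : ∑ a ∈ ({-1, w + 1} : Finset ℤ), qf (metr w K Q P) (P a *ᵥ x) ≤
          ∑ a ∈ Finset.Icc (-(K : ℤ)) K, qf (metr w K Q P) (P a *ᵥ x) := by
        apply Finset.sum_le_sum_of_subset_of_nonneg
        · intro a haa
          simp only [Finset.mem_insert, Finset.mem_singleton] at haa
          rcases haa with rfl | rfl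
          · exact ha
          · exact hb
        · intro a _ _
          exact h0 a
      rw [Finset.sum_pair (by omega)] at h2
      linarith
    · rw [h1, h.hd2_zero hb]
      simp only [Matrix.zero_mulVec]
      have : qf (metr w K Q P) (0 : Fin m → ℂ) = 0 := by simp [qf]
      rw [this]
      simpa using qf_nonneg h.posDef x
  · rw [h.hd2_zero ha]
    simp only [Matrix.zero_mulVec]
    have : qf (metr w K Q P) (0 : Fin m → ℂ) = 0 := by simp [qf]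
    rw [this]
    simpa using qf_nonneg h.posDef x

theorem npt_eta (h : ExtD w K Q Ω P θ v u) (hz : z ∈ Ω) :
    P z (-1) *ᵥ eta P θ v u z = eta P θ v u z := by
  rw [US38.eta, Matrix.mulVec_mulVec, (h.pv.hd z hz).mul, if_pos rfl]

/-- the component of type `(-1, w + 1)` has at most half of the norm -/
theorem ExtD.norm_PE_le (h : ExtD w K Q Ω P θ v u) (hw : w ≤ -3) (hz : z ∈ Ω) :
    2 * ‖PE w K Q P θ v u z‖ ^ 2 ≤ qf (metr w K Q (P z)) (eta P θ v u z) * (NN w K Q P v z).re := by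
  have hd := h.pv.hd z hz
  have h1 : PE w K Q P θ v u z =
      hm (metr w K Q (P z)) (eta P θ v u z) (P z (-1) *ᵥ del w P v z) := by
    rw [PE]
    conv_lhs => rw [← npt_eta h hz]
    rw [hm_adj hd.posDef, hd.adj_P]
  have h2 : (NN w K Q P v z).re = qf (metr w K Q (P z)) (del w P v z) := by
    rw [NN, hm_self hd.posDef, Complex.ofReal_re]
  have h3 := norm_hm_le hd.posDef (eta P θ v u z) (P z (-1) *ᵥ del w P v z)
  have h4 := npt_half hd hw (h.cj_del hz)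
  have h5 := qf_nonneg hd.posDef (eta P θ v u z)
  rw [h1, h2]
  calc 2 * ‖hm (metr w K Q (P z)) (eta P θ v u z) (P z (-1) *ᵥ del w P v z)‖ ^ 2
      ≤ 2 * (qf (metr w K Q (P z)) (eta P θ v u z) *
        qf (metr w K Q (P z)) (P z (-1) *ᵥ del w P v z)) := by linarith
    _ = qf (metr w K Q (P z)) (eta P θ v u z) *
        (2 * qf (metr w K Q (P z)) (P z (-1) *ᵥ del w P v z)) := by ring
    _ ≤ qf (metr w K Q (P z)) (eta P θ v u z) * qf (metr w K Q (P z)) (del w P v z) :=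
        mul_le_mul_of_nonneg_left h4 h5

theorem npt2_P_del (h : ExtD w K Q Ω P θ v u) (hz : z ∈ Ω) {a : ℤ} (ha : w < a ∧ a < 0) :
    P z a *ᵥ del w P v z = P z a *ᵥ v z := by
  rw [del, Matrix.mulVec_mulVec, (Rm_P (h.pv.hd z hz) a).2, if_pos ha]

theorem npt2_P_del' (h : ExtD w K Q Ω P θ v u) (hz : z ∈ Ω) {a : ℤ} (ha : ¬ (w < a ∧ a < 0)) :
    P z a *ᵥ del w P v z = 0 := by
  rw [del, Matrix.mulVec_mulVec, (Rm_P (h.pv.hd z hz) a).2, if_neg ha, Matrix.zero_mulVec]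

/-- move a projector to the other side -/
theorem npt2_hm_P (h : ExtD w K Q Ω P θ v u) (hz : z ∈ Ω) (a : ℤ) (x y : Fin m → ℂ) :
    hm (metr w K Q (P z)) (P z a *ᵥ x) y = hm (metr w K Q (P z)) x (P z a *ᵥ y) := by
  rw [hm_adj (h.pv.hd z hz).posDef, (h.pv.hd z hz).adj_P]

theorem npt2_hm_R (h : ExtD w K Q Ω P θ v u) (hz : z ∈ Ω) (x y : Fin m → ℂ) :
    hm (metr w K Q (P z)) (Rm w (P z) *ᵥ x) y = hm (metr w K Q (P z)) x (Rm w (P z) *ᵥ y) := by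
  rw [hm_adj (h.pv.hd z hz).posDef, adj_Rm (h.pv.hd z hz)]

theorem npt2_hm_zero (M : Matrix (Fin m) (Fin m) ℂ) (x : Fin m → ℂ) : hm M x 0 = 0 := by
  simp [hm]

theorem npt2_zero_hm (M : Matrix (Fin m) (Fin m) ℂ) (x : Fin m → ℂ) : hm M 0 x = 0 := by
  simp [hm]

/-- `P_{-1} θ δ = 0` -/
theorem npt2_key (h : ExtD w K Q Ω P θ v u) (hz : z ∈ Ω) :
    P z (-1) *ᵥ (θ z *ᵥ del w P v z) = 0 := by
  have h1 := h.pv.deg z hz 0
  rw [zero_sub] at h1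
  rw [Matrix.mulVec_mulVec, ← h1, ← Matrix.mulVec_mulVec, npt2_P_del' h hz (by omega),
    Matrix.mulVec_zero]

theorem npt2_R_sub (h : ExtD w K Q Ω P θ v u) (hz : z ∈ Ω) (x : Fin m → ℂ) :
    Rm w (P z) *ᵥ (Rm w (P z) *ᵥ x) = Rm w (P z) *ᵥ x := by
  rw [Matrix.mulVec_mulVec, Rm_Rm (h.pv.hd z hz)]

theorem npt2_qf_cj (h : ExtD w K Q Ω P θ v u) (hz : z ∈ Ω) (x : Fin m → ℂ) :
    qf (metr w K Q (P z)) (cj x) = qf (metr w K Q (P z)) x := by
  have hd := h.pv.hd z hz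
  have h1 := hm_cj hd x x
  rw [hm_self hd.posDef, hm_self hd.posDef, Complex.conj_ofReal] at h1
  exact_mod_cast h1

theorem npt2_cj_R (h : ExtD w K Q Ω P θ v u) (hz : z ∈ Ω) (x : Fin m → ℂ) :
    cj (Rm w (P z) *ᵥ x) = Rm w (P z) *ᵥ cj x := by
  rw [hd1_cj_mulVec, Rm_real (h.pv.hd z hz)]

theorem ExtD.dzb_PE (h : ExtD w K Q Ω P θ v u) (hΩ : IsOpen Ω) (hw : w ≤ -3) (hz : z ∈ Ω) :
    dzb (PE w K Q P θ v u) z = ((qf (metr w K Q (P z)) (eta P θ v u z) +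
      qf (metr w K Q (P z)) (tb θ z *ᵥ (P z (-1) *ᵥ v z)) : ℝ) : ℂ) := by
  have hd := h.pv.hd z hz
  have h1 := dzb_hm hΩ h.pv (h.sm_eta hΩ) (h.sm_del hΩ) hz
  have h2 : dzb (PE w K Q P θ v u) z =
      dzb (fun z => hm (metr w K Q (P z)) (eta P θ v u z) (del w P v z)) z := rfl
  have h3 : tb θ z *ᵥ (P z (-1) *ᵥ v z) = P z 0 *ᵥ (tb θ z *ᵥ v z) := by
    have h4 := h.pv.degB hz (-1)
    rw [neg_add_cancel] at h4
    rw [Matrix.mulVec_mulVec, Matrix.mulVec_mulVec]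
    exact congrArg (fun M => M *ᵥ v z) h4
  have h5 : P z 0 *ᵥ (tb θ z *ᵥ del w P v z) = tb θ z *ᵥ (P z (-1) *ᵥ v z) := by
    rw [← npt2_P_del h hz (by omega : w < -1 ∧ (-1 : ℤ) < 0)]
    have h4 := h.pv.degB hz (-1)
    rw [neg_add_cancel] at h4
    rw [Matrix.mulVec_mulVec, Matrix.mulVec_mulVec]
    exact (congrArg (fun M => M *ᵥ del w P v z) h4).symm
  have h6 : hm (metr w K Q (P z)) (θ z *ᵥ (tb θ z *ᵥ (P z (-1) *ᵥ v z))) (del w P v z) =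
      ((qf (metr w K Q (P z)) (tb θ z *ᵥ (P z (-1) *ᵥ v z)) : ℝ) : ℂ) := by
    rw [hm_theta h.pv hz, ← hm_self hd.posDef]
    conv_lhs => rw [h3]
    rw [npt2_hm_P h hz, h5]
    conv_rhs => arg 2; rw [h3]
    rw [npt2_hm_P h hz]
    congr 1
    rw [h3, Matrix.mulVec_mulVec (tb θ z *ᵥ v z) (P z 0) (P z 0), hd.mul, if_pos rfl]
  have h7 : hm (metr w K Q (P z)) (eta P θ v u z) (Rm w (P z) *ᵥ (θ z *ᵥ del w P v z)) = 0 := by
    rw [← npt_eta h hz, npt2_hm_P h hz, Matrix.mulVec_mulVec, (Rm_P hd (-1)).2,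
      if_pos (by omega), npt2_key h hz, npt2_hm_zero]
  rw [h2, h1, h.D2_eta z hz, h.D1_del z hz, hm_sub_right, h6, h7, hm_self hd.posDef]
  push_cast
  ring

theorem ExtD.dzb_TT (h : ExtD w K Q Ω P θ v u) (hΩ : IsOpen Ω) (hw : w ≤ -3) (hz : z ∈ Ω) :
    dzb (TT w K Q P θ v) z =
      ((-2 * qf (metr w K Q (P z)) (Rm w (P z) *ᵥ (θ z *ᵥ del w P v z)) : ℝ) : ℂ) := by
  have hd := h.pv.hd z hz
  have h1 := dzb_hm hΩ h.pv (SmV.mulVec h.pv.smθ (h.sm_del hΩ)) (h.sm_del hΩ) hz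
  have h2 : dzb (TT w K Q P θ v) z =
      dzb (fun z => hm (metr w K Q (P z)) (θ z *ᵥ del w P v z) (del w P v z)) z := rfl
  -- the conjugate of `η`
  have h3 : hm (metr w K Q (P z)) (θ z *ᵥ cj (eta P θ v u z)) (del w P v z) = 0 := by
    have h4 : cj (eta P θ v u z) = P z (w + 1) *ᵥ cj (eta P θ v u z) := by
      conv_lhs => rw [← npt_eta h hz, hd.hd1_cj]
      congr 2
    have h5 := h.pv.deg z hz (w + 1)
    rw [add_sub_cancel_right] at h5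
    rw [h4, Matrix.mulVec_mulVec, h5, ← Matrix.mulVec_mulVec, npt2_hm_P h hz,
      npt2_P_del' h hz (by omega), npt2_hm_zero]
  have h6 : hm (metr w K Q (P z)) (θ z *ᵥ cj (Rm w (P z) *ᵥ (θ z *ᵥ del w P v z)))
      (del w P v z) =
      ((qf (metr w K Q (P z)) (Rm w (P z) *ᵥ (θ z *ᵥ del w P v z)) : ℝ) : ℂ) := by
    have h7 : cj (Rm w (P z) *ᵥ (θ z *ᵥ del w P v z)) =
        Rm w (P z) *ᵥ (tb θ z *ᵥ del w P v z) := by
      rw [npt2_cj_R h hz, hd1_cj_mulVec, h.cj_del hz]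
      rfl
    rw [hm_theta h.pv hz, ← npt2_qf_cj h hz, ← hm_self hd.posDef, h7]
    conv_lhs => arg 2; rw [← npt2_R_sub h hz]
    rw [npt2_hm_R h hz]
  have h8 : hm (metr w K Q (P z)) (θ z *ᵥ del w P v z) (eta P θ v u z) = 0 := by
    rw [← npt_eta h hz, ← npt2_hm_P h hz, npt2_key h hz, npt2_zero_hm]
  have h9 : hm (metr w K Q (P z)) (θ z *ᵥ del w P v z)
      (Rm w (P z) *ᵥ (θ z *ᵥ del w P v z)) =
      ((qf (metr w K Q (P z)) (Rm w (P z) *ᵥ (θ z *ᵥ del w P v z)) : ℝ) : ℂ) := by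
    rw [← hm_self hd.posDef]
    conv_lhs => arg 3; rw [← npt2_R_sub h hz]
    rw [← npt2_hm_R h hz]
  have h10 : ∀ x y : Fin m → ℂ, cj (x - y) = cj x - cj y := by
    intro x y
    funext i
    simp [cj]
  rw [h2, h1, h.D2_theta_del hΩ hz, h.D2_del hΩ hz, h.D1_del z hz, h10, Matrix.mulVec_sub,
    hm_sub_left, hm_sub_right, h3, h6, h8, h9]
  push_cast
  ring

theorem ExtD.sm_NN (h : ExtD w K Q Ω P θ v u) (hΩ : IsOpen Ω) : SmS Ω (NN w K Q P v) :=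
  SmS_hm hΩ h.pv (h.sm_del hΩ) (h.sm_del hΩ)

theorem ExtD.sm_TT (h : ExtD w K Q Ω P θ v u) (hΩ : IsOpen Ω) : SmS Ω (TT w K Q P θ v) :=
  SmS_hm hΩ h.pv (SmV.mulVec h.pv.smθ (h.sm_del hΩ)) (h.sm_del hΩ)

theorem ineq_sm_PE (h : ExtD w K Q Ω P θ v u) (hΩ : IsOpen Ω) : SmS Ω (PE w K Q P θ v u) :=
  SmS_hm hΩ h.pv (h.sm_eta hΩ) (h.sm_del hΩ)

theorem ExtD.NN_eq (h : ExtD w K Q Ω P θ v u) (hz : z ∈ Ω) :
    NN w K Q P v z = ((qf (metr w K Q (P z)) (del w P v z) : ℝ) : ℂ) ∧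
    0 ≤ (NN w K Q P v z).re := by
  have h1 : NN w K Q P v z = ((qf (metr w K Q (P z)) (del w P v z) : ℝ) : ℂ) :=
    hm_self (h.pv.hd z hz).posDef _
  refine ⟨h1, ?_⟩
  rw [h1, Complex.ofReal_re]
  exact qf_nonneg (h.pv.hd z hz).posDef _

theorem ExtD.TT_le (h : ExtD w K Q Ω P θ v u) (hz : z ∈ Ω) :
    ‖TT w K Q P θ v z‖ ≤ √(hs (metr w K Q (P z)) (θ z)) * (NN w K Q P v z).re := by
  have hd := h.pv.hd z hz
  rw [(h.NN_eq hz).1, Complex.ofReal_re]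
  have h1 := norm_hm_le hd.posDef (θ z *ᵥ del w P v z) (del w P v z)
  have h2 := qf_mulVec_le hd.posDef (θ z) (del w P v z)
  have h3 := qf_nonneg hd.posDef (del w P v z)
  have h4 := hs_nonneg hd.posDef (θ z)
  refine abs_le_of_sq_le_sq' ?_ (by positivity) |>.2
  rw [mul_pow, Real.sq_sqrt h4]
  calc ‖TT w K Q P θ v z‖ ^ 2
      ≤ qf (metr w K Q (P z)) (θ z *ᵥ del w P v z) * qf (metr w K Q (P z)) (del w P v z) := h1
    _ ≤ (hs (metr w K Q (P z)) (θ z) * qf (metr w K Q (P z)) (del w P v z)) *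
        qf (metr w K Q (P z)) (del w P v z) := mul_le_mul_of_nonneg_right h2 h3
    _ = hs (metr w K Q (P z)) (θ z) * qf (metr w K Q (P z)) (del w P v z) ^ 2 := by ring

theorem ineq_qf_R (h : ExtD w K Q Ω P θ v u) (hz : z ∈ Ω) (x : Fin m → ℂ) :
    qf (metr w K Q (P z)) (Rm w (P z) *ᵥ x) ≤ qf (metr w K Q (P z)) x := by
  have hd := h.pv.hd z hz
  have h1 : hm (metr w K Q (P z)) x (Rm w (P z) *ᵥ x) =
      ((qf (metr w K Q (P z)) (Rm w (P z) *ᵥ x) : ℝ) : ℂ) := by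
    rw [← hm_self hd.posDef]
    conv_lhs => arg 3; rw [← npt2_R_sub h hz]
    rw [← npt2_hm_R h hz]
  have h2 := norm_hm_le hd.posDef x (Rm w (P z) *ᵥ x)
  have h3 := qf_nonneg hd.posDef (Rm w (P z) *ᵥ x)
  have h4 := qf_nonneg hd.posDef x
  rw [h1, Complex.norm_real, Real.norm_eq_abs, abs_of_nonneg h3] at h2
  by_contra h5
  push Not at h5
  nlinarith

/-- real numbers: the final inequality -/
theorem ineq_real {a b q r t N ε H : ℝ} (hε : 0 < ε) (hN : 0 ≤ N) (hb : 0 ≤ b)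
    (hq : 0 ≤ q) (hH : 0 ≤ H) (h1 : 2 * a ≤ q * N) (h2 : r ≤ H / 2 * N) (ht : 0 ≤ t) :
    -(2 * H) ≤ 2 * ((q + b + -2 * r) / (N + ε) - 2 * (a - t) / (N + ε) ^ 2) := by
  have hNe : 0 < N + ε := by linarith
  have e1 : (q + b + -2 * r) / (N + ε) - 2 * (a - t) / (N + ε) ^ 2 =
      ((q + b + -2 * r) * (N + ε) - 2 * (a - t)) / (N + ε) ^ 2 := by
    field_simp
  rw [e1, mul_div_assoc', le_div_iff₀ (by positivity)]
  have e2 : -(2 * H) * (N + ε) ^ 2 ≤ -4 * r * (N + ε) := by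
    nlinarith [mul_nonneg hH hε.le, mul_nonneg hH hN, mul_nonneg (mul_nonneg hH hε.le) hNe.le]
  nlinarith [mul_nonneg hb hNe.le, mul_nonneg hq hε.le]

theorem ExtD.rho_ge (h : ExtD w K Q Ω P θ v u) (hΩ : IsOpen Ω) (hw : w ≤ -3) {ε : ℝ} (hε : 0 < ε)
    (hz : z ∈ Ω) :
    -(2 * hs (metr w K Q (P z)) (θ z)) ≤ rho (jj (NN w K Q P v) (TT w K Q P θ v) ε) z := by
  have hd := h.pv.hd z hz
  have hN := h.sm_NN hΩ
  have hT := h.sm_TT hΩ
  have hP := ineq_sm_PE h hΩ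
  have him : ∀ z ∈ Ω, (NN w K Q P v z).im = 0 := by
    intro z hz
    rw [(h.NN_eq hz).1, Complex.ofReal_im]
  -- derivatives of `N`
  have h1 : dzb (dz (NN w K Q P v)) z =
      2 * (dzb (PE w K Q P θ v u) z - dzb (TT w K Q P θ v) z) := by
    have h2 : dz (NN w K Q P v) =ᶠ[nhds z]
        fun z => 2 * (PE w K Q P θ v u z - TT w K Q P θ v z) := by
      filter_upwards [hΩ.mem_nhds hz] with x hx
      exact h.dz_NN hΩ hw hx
    have h2' : DifferentiableAt ℝ (fun z => PE w K Q P θ v u z - TT w K Q P θ v z) z :=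
      (hP.differentiableAt hΩ hz).sub (hT.differentiableAt hΩ hz)
    rw [dzb_congr h2, WirtM_dzb_smul (2 : ℂ) h2',
      WirtM_dzb_sub (hP.differentiableAt hΩ hz) (hT.differentiableAt hΩ hz)]
  have h3 : dzb (NN w K Q P v) z =
      2 * ((starRingEnd ℂ) (PE w K Q P θ v u z) - (starRingEnd ℂ) (TT w K Q P θ v z)) := by
    have h4 : NN w K Q P v =ᶠ[nhds z] fun z => (starRingEnd ℂ) (NN w K Q P v z) := by
      filter_upwards [hΩ.mem_nhds hz] with x hx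
      rw [(h.NN_eq hx).1, Complex.conj_ofReal]
    rw [dzb_congr h4, dzb_conj (hN.differentiableAt hΩ hz), h.dz_NN hΩ hw hz, map_mul, map_sub,
      Complex.conj_ofNat]
  have h5 := dzb_jj hΩ hN hT him (fun z hz => (h.NN_eq hz).2) hε hz
  set a := PE w K Q P θ v u z with ha
  set t := TT w K Q P θ v z with ht
  set qη := qf (metr w K Q (P z)) (eta P θ v u z) with hqη
  set qb := qf (metr w K Q (P z)) (tb θ z *ᵥ (P z (-1) *ᵥ v z)) with hqb
  set r := qf (metr w K Q (P z)) (Rm w (P z) *ᵥ (θ z *ᵥ del w P v z)) with hr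
  set N := qf (metr w K Q (P z)) (del w P v z) with hNN
  have hNeq : NN w K Q P v z = (N : ℂ) := (h.NN_eq hz).1
  have hN0 : 0 ≤ N := qf_nonneg hd.posDef _
  rw [h1, h3, h.dz_NN hΩ hw hz, h.dzb_PE hΩ hw hz, h.dzb_TT hΩ hw hz, hNeq] at h5
  have h6 : dzb (jj (NN w K Q P v) (TT w K Q P θ v) ε) z =
      (((qη + qb + -2 * r) / (N + ε) : ℝ) : ℂ) -
        ((a + t) * (2 * ((starRingEnd ℂ) a - (starRingEnd ℂ) t))) * ((1 / (N + ε) ^ 2 : ℝ) : ℂ) := by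
    rw [h5]
    push_cast
    ring
  have h7 : ((a + t) * (2 * ((starRingEnd ℂ) a - (starRingEnd ℂ) t))).re =
      2 * (‖a‖ ^ 2 - ‖t‖ ^ 2) := by
    rw [← Complex.normSq_eq_norm_sq, ← Complex.normSq_eq_norm_sq, Complex.normSq_apply,
      Complex.normSq_apply]
    simp
    ring
  have h8 : rho (jj (NN w K Q P v) (TT w K Q P θ v) ε) z =
      2 * ((qη + qb + -2 * r) / (N + ε) - 2 * (‖a‖ ^ 2 - ‖t‖ ^ 2) / (N + ε) ^ 2) := by
    rw [rho, h6, Complex.sub_re, Complex.ofReal_re, Complex.re_mul_ofReal, h7]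
    ring
  rw [h8]
  have h9 : 2 * ‖a‖ ^ 2 ≤ qη * N := by
    have := h.norm_PE_le hw hz
    rw [hNeq, Complex.ofReal_re] at this
    exact this
  have h10 : r ≤ hs (metr w K Q (P z)) (θ z) / 2 * N :=
    (ineq_qf_R h hz _).trans (qf_theta_real_le h.pv hz (h.cj_del hz))
  exact ineq_real hε hN0 (qf_nonneg hd.posDef _) (qf_nonneg hd.posDef _)
    (hs_nonneg hd.posDef _) h9 h10 (by positivity)


end ZW67
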