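import Pool.Agent.LibSP38.Fam3
import Mathlib.LinearAlgebra.Lagrange

/-! A polarized variation from its grading operator. -/

open Matrix Complex
open scoped ComplexOrder ContDiff

namespace ZW67

open SP38

variable {m : ℕ} {w : ℤ} {K : ℕ} {Q : Matrix (Fin m) (Fin m) ℝ} {Ω : Set ℂ}
  {D : ℂ → Matrix (Fin m) (Fin m) ℂ} {z : ℂ}

/-- the Lagrange polynomial of the node `a` for the nodes `-K, …, K` -/
noncomputable def lpoly (K : ℕ) (a : ℤ) : Polynomial ℂ :=
  if a ∈ Finset.Icc (-(K : ℤ)) K then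
    Lagrange.basis (Finset.Icc (-(K : ℤ)) K) (fun b : ℤ => (b : ℂ)) a else 0

/-- the spectral projectors of an operator with eigenvalues in `-K, …, K` -/
noncomputable def LP (K : ℕ) (D : Matrix (Fin m) (Fin m) ℂ) (a : ℤ) : Matrix (Fin m) (Fin m) ℂ :=
  Polynomial.aeval D (lpoly K a)

/-- the polynomial with roots `-K, …, K` -/
noncomputable def npoly (K : ℕ) : Polynomial ℂ :=
  ∏ b ∈ Finset.Icc (-(K : ℤ)) K, (Polynomial.X - Polynomial.C (b : ℂ))

theorem lpoly_sum (K : ℕ) : ∑ a ∈ Finset.Icc (-(K : ℤ)) K, lpoly K a = 1 := by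
  have h1 : Set.InjOn (fun b : ℤ => (b : ℂ)) (Finset.Icc (-(K : ℤ)) K) := fun a _ b _ h =>
    Int.cast_injective h
  rw [← Lagrange.sum_basis h1 ⟨0, Finset.mem_Icc.2 ⟨by omega, by omega⟩⟩]
  refine Finset.sum_congr rfl fun a ha => ?_
  rw [lpoly, if_pos ha]

theorem lpoly_eq {K : ℕ} {a : ℤ} (ha : a ∈ Finset.Icc (-(K : ℤ)) K) : ∃ c : ℂ, lpoly K a =
    Polynomial.C c * ∏ b ∈ (Finset.Icc (-(K : ℤ)) K).erase a,
      (Polynomial.X - Polynomial.C (b : ℂ)) := by
  refine ⟨∏ b ∈ (Finset.Icc (-(K : ℤ)) K).erase a, ((a : ℂ) - b)⁻¹, ?_⟩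
  rw [lpoly, if_pos ha, Lagrange.basis]
  simp only [Lagrange.basisDivisor]
  rw [Finset.prod_mul_distrib, map_prod]

theorem X_sub_mul_lpoly (K : ℕ) (a : ℤ) : ∃ c : ℂ,
    (Polynomial.X - Polynomial.C (a : ℂ)) * lpoly K a = Polynomial.C c * npoly K := by
  by_cases ha : a ∈ Finset.Icc (-(K : ℤ)) K
  · obtain ⟨c, hc⟩ := lpoly_eq ha
    refine ⟨c, ?_⟩
    rw [hc, npoly, ← Finset.mul_prod_erase _ _ ha]
    ring
  · refine ⟨0, ?_⟩
    rw [lpoly, if_neg ha]
    simp

/-- data of the grading operator of a polarized variation -/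
structure GD (w : ℤ) (K : ℕ) (Q : Matrix (Fin m) (Fin m) ℝ) (Ω : Set ℂ)
    (D : ℂ → Matrix (Fin m) (Fin m) ℂ) : Prop where
  sm : Sm Ω D
  poly : ∀ z ∈ Ω, Polynomial.aeval (D z) (npoly K) = 0
  conj : ∀ z ∈ Ω, (D z).map (starRingEnd ℂ) = (w : ℂ) • 1 - D z
  skew : ∀ z ∈ Ω, (D z)ᵀ * cm Q + cm Q * D z = (w : ℂ) • cm Q
  deg : ∀ z ∈ Ω, DZ D z * D z - D z * DZ D z = DZ D z
  pos : ∀ z ∈ Ω, ∀ (a : ℤ) (v : Fin m → ℂ), D z *ᵥ v = (a : ℂ) • v → v ≠ 0 →
    0 < (I ^ (2 * a - w) * bil Q v (cj v)).re ∧ (I ^ (2 * a - w) * bil Q v (cj v)).im = 0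

section proj

variable {A : Matrix (Fin m) (Fin m) ℂ}

theorem LP_zero {a : ℤ} (ha : a ∉ Finset.Icc (-(K : ℤ)) K) : LP K A a = 0 := by
  rw [LP, lpoly, if_neg ha, map_zero]

theorem LP_sum : ∑ a ∈ Finset.Icc (-(K : ℤ)) K, LP K A a = 1 := by
  simp only [LP]
  rw [← map_sum, lpoly_sum, map_one]

theorem LP_left (hA : Polynomial.aeval A (npoly K) = 0) (a : ℤ) :
    A * LP K A a = (a : ℂ) • LP K A a := by
  obtain ⟨c, hc⟩ := X_sub_mul_lpoly K a
  have h1 := congrArg (Polynomial.aeval A) hc
  rw [map_mul, map_mul, hA, mul_zero, map_sub, Polynomial.aeval_X, Polynomial.aeval_C,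
    sub_mul, sub_eq_zero] at h1
  rw [LP, h1, Algebra.algebraMap_eq_smul_one, smul_mul_assoc, one_mul]

theorem LP_comm (f g : Polynomial ℂ) : Polynomial.aeval A f * Polynomial.aeval A g =
    Polynomial.aeval A g * Polynomial.aeval A f := by
  rw [← map_mul, ← map_mul, mul_comm]

theorem LP_right (hA : Polynomial.aeval A (npoly K) = 0) (a : ℤ) :
    LP K A a * A = (a : ℂ) • LP K A a := by
  rw [← LP_left hA a]
  have := LP_comm (A := A) (lpoly K a) Polynomial.X
  rwa [Polynomial.aeval_X] at this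

/-- a polynomial in `A` acts on eigenvectors by its value -/
theorem aeval_eigen {n : ℕ} {R : Matrix (Fin m) (Fin n) ℂ} {c : ℂ} (hR : A * R = c • R)
    (f : Polynomial ℂ) : Polynomial.aeval A f * R = f.eval c • R := by
  induction f using Polynomial.induction_on' with
  | add p q hp hq => rw [map_add, Matrix.add_mul, hp, hq, Polynomial.eval_add, add_smul]
  | monomial n a =>
    rw [Polynomial.aeval_monomial, Polynomial.eval_monomial, Algebra.algebraMap_eq_smul_one,
      smul_mul_assoc, one_mul, Matrix.smul_mul, mul_smul]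
    congr 1
    induction n with
    | zero => simp
    | succ n ih => rw [pow_succ', Matrix.mul_assoc, ih, Matrix.mul_smul, hR, smul_smul, pow_succ]

theorem aeval_eigen_right {n : ℕ} {R : Matrix (Fin n) (Fin m) ℂ} {c : ℂ} (hR : R * A = c • R)
    (f : Polynomial ℂ) : R * Polynomial.aeval A f = f.eval c • R := by
  induction f using Polynomial.induction_on' with
  | add p q hp hq => rw [map_add, Matrix.mul_add, hp, hq, Polynomial.eval_add, add_smul]
  | monomial n a =>
    rw [Polynomial.aeval_monomial, Polynomial.eval_monomial, Algebra.algebraMap_eq_smul_one,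
      smul_mul_assoc, one_mul, Matrix.mul_smul, mul_smul]
    congr 1
    induction n with
    | zero => simp
    | succ n ih => rw [pow_succ, ← Matrix.mul_assoc, ih, Matrix.smul_mul, hR, smul_smul, pow_succ]

theorem lpoly_eval {a b : ℤ} (ha : a ∈ Finset.Icc (-(K : ℤ)) K) (hb : b ∈ Finset.Icc (-(K : ℤ)) K) :
    (lpoly K a).eval (b : ℂ) = if b = a then 1 else 0 := by
  have hinj : Set.InjOn (fun b : ℤ => (b : ℂ)) (Finset.Icc (-(K : ℤ)) K) := fun a _ b _ h =>
    Int.cast_injective h
  rw [lpoly, if_pos ha]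
  split_ifs with h
  · subst h
    exact Lagrange.eval_basis_self hinj ha
  · exact Lagrange.eval_basis_of_ne (v := fun b : ℤ => (b : ℂ)) (fun e => h e.symm) hb

/-- the only eigenvalues are the nodes -/
theorem eigen_zero (hA : Polynomial.aeval A (npoly K) = 0) {n : ℕ}
    {R : Matrix (Fin m) (Fin n) ℂ} {b : ℤ} (hb : b ∉ Finset.Icc (-(K : ℤ)) K)
    (hR : A * R = (b : ℂ) • R) : R = 0 := by
  have h1 := aeval_eigen hR (npoly K)
  rw [hA, Matrix.zero_mul] at h1
  have h2 : (npoly K).eval (b : ℂ) ≠ 0 := by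
    rw [npoly, Polynomial.eval_prod, Finset.prod_ne_zero_iff]
    intro a ha
    rw [Polynomial.eval_sub, Polynomial.eval_X, Polynomial.eval_C, sub_ne_zero]
    intro h
    have h3 : b = a := by exact_mod_cast h
    exact hb (h3 ▸ ha)
  exact (smul_eq_zero.1 h1.symm).resolve_left h2

theorem eigen_zero_right (hA : Polynomial.aeval A (npoly K) = 0) {n : ℕ}
    {R : Matrix (Fin n) (Fin m) ℂ} {b : ℤ} (hb : b ∉ Finset.Icc (-(K : ℤ)) K)
    (hR : R * A = (b : ℂ) • R) : R = 0 := by
  have h1 := aeval_eigen_right hR (npoly K)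
  rw [hA, Matrix.mul_zero] at h1
  have h2 : (npoly K).eval (b : ℂ) ≠ 0 := by
    rw [npoly, Polynomial.eval_prod, Finset.prod_ne_zero_iff]
    intro a ha
    rw [Polynomial.eval_sub, Polynomial.eval_X, Polynomial.eval_C, sub_ne_zero]
    intro h
    have h3 : b = a := by exact_mod_cast h
    exact hb (h3 ▸ ha)
  exact (smul_eq_zero.1 h1.symm).resolve_left h2

/-- projectors on eigenvectors -/
theorem LP_eigen (hA : Polynomial.aeval A (npoly K) = 0) {n : ℕ}
    {R : Matrix (Fin m) (Fin n) ℂ} {b : ℤ} (hR : A * R = (b : ℂ) • R) (a : ℤ) :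
    LP K A a * R = if b = a then R else 0 := by
  by_cases hb : b ∈ Finset.Icc (-(K : ℤ)) K
  · by_cases ha : a ∈ Finset.Icc (-(K : ℤ)) K
    · rw [LP, aeval_eigen hR, lpoly_eval ha hb]
      split_ifs <;> simp
    · rw [LP_zero ha, Matrix.zero_mul, if_neg]
      rintro rfl
      exact ha hb
  · rw [eigen_zero hA hb hR, Matrix.mul_zero]
    split_ifs <;> rfl

theorem LP_eigen_right (hA : Polynomial.aeval A (npoly K) = 0) {n : ℕ}
    {R : Matrix (Fin n) (Fin m) ℂ} {b : ℤ} (hR : R * A = (b : ℂ) • R) (a : ℤ) :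
    R * LP K A a = if b = a then R else 0 := by
  by_cases hb : b ∈ Finset.Icc (-(K : ℤ)) K
  · by_cases ha : a ∈ Finset.Icc (-(K : ℤ)) K
    · rw [LP, aeval_eigen_right hR, lpoly_eval ha hb]
      split_ifs <;> simp
    · rw [LP_zero ha, Matrix.mul_zero, if_neg]
      rintro rfl
      exact ha hb
  · rw [eigen_zero_right hA hb hR, Matrix.zero_mul]
    split_ifs <;> rfl

theorem LP_mul (hA : Polynomial.aeval A (npoly K) = 0) (a b : ℤ) :
    LP K A a * LP K A b = if a = b then LP K A a else 0 := by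
  rw [LP_eigen hA (LP_left hA b)]
  by_cases h : a = b
  · subst h; simp
  · rw [if_neg h, if_neg (fun e => h e.symm)]

theorem YY_LP (hA : Polynomial.aeval A (npoly K) = 0) : YY K (LP K A) = A := by
  rw [YY]
  have h1 : A = ∑ a ∈ Finset.Icc (-(K : ℤ)) K, A * LP K A a := by
    rw [← Finset.mul_sum, LP_sum, mul_one]
  conv_rhs => rw [h1]
  exact Finset.sum_congr rfl fun a _ => (LP_left hA a).symm

/-- a vector with all components zero outside one eigenvalue -/
theorem LP_mulVec_eigen (hA : Polynomial.aeval A (npoly K) = 0) {v : Fin m → ℂ} {a : ℤ}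
    (hv : LP K A a *ᵥ v = v) : A *ᵥ v = (a : ℂ) • v := by
  conv_lhs => rw [← hv]
  rw [Matrix.mulVec_mulVec, LP_left hA, Matrix.smul_mulVec, hv]

end proj

/-! ### derivatives of polynomials -/

theorem Sm.pow' {A : ℂ → Matrix (Fin m) (Fin m) ℂ} (h : Sm Ω A) (n : ℕ) :
    Sm Ω (fun z => A z ^ n) := by
  induction n with
  | zero => simpa using Sm.const (Ω := Ω) (1 : Matrix (Fin m) (Fin m) ℂ)
  | succ n ih =>
    have h1 := Sm.mul ih h
    simpa [pow_succ] using h1

theorem Sm.aeval' (h : Sm Ω D) (f : Polynomial ℂ) : Sm Ω (fun z => Polynomial.aeval (D z) f) := by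
  induction f using Polynomial.induction_on' with
  | add p q hp hq =>
    have h1 := Sm.add hp hq
    simpa [map_add] using h1
  | monomial n a =>
    have h1 := Sm.smul a (Sm.pow' h n)
    have h2 : (fun z => Polynomial.aeval (D z) ((Polynomial.monomial n) a)) =
        fun z => a • D z ^ n := by
      funext z
      rw [Polynomial.aeval_monomial, Algebra.algebraMap_eq_smul_one, smul_mul_assoc, one_mul]
    rw [h2]
    exact h1

theorem DZ_pow' (hΩ : IsOpen Ω) (hz : z ∈ Ω) (h : Sm Ω D)
    (hd : DZ D z * D z - D z * DZ D z = DZ D z) (n : ℕ) :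
    DZ (fun z => D z ^ n) z = DZ D z * D z ^ n - D z ^ n * DZ D z := by
  induction n with
  | zero =>
    have h1 : (fun z : ℂ => D z ^ 0) = fun _ => (1 : Matrix (Fin m) (Fin m) ℂ) := by
      funext z; simp
    rw [h1, DZ_const]; simp
  | succ n ih =>
    have h1 : (fun z : ℂ => D z ^ (n + 1)) = fun z => D z ^ n * D z := by
      funext z; rw [pow_succ]
    rw [h1, DZ_mul hΩ hz (Sm.pow' h n) h, ih, pow_succ]
    calc (DZ D z * D z ^ n - D z ^ n * DZ D z) * D z + D z ^ n * DZ D z
        = (DZ D z * D z ^ n - D z ^ n * DZ D z) * D z +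
            D z ^ n * (DZ D z * D z - D z * DZ D z) := by rw [hd]
      _ = DZ D z * (D z ^ n * D z) - D z ^ n * D z * DZ D z := by noncomm_ring

theorem DZ_aeval (hΩ : IsOpen Ω) (hz : z ∈ Ω) (h : Sm Ω D)
    (hd : DZ D z * D z - D z * DZ D z = DZ D z) (f : Polynomial ℂ) :
    DZ (fun z => Polynomial.aeval (D z) f) z =
      DZ D z * Polynomial.aeval (D z) f - Polynomial.aeval (D z) f * DZ D z := by
  induction f using Polynomial.induction_on' with
  | add p q hp hq =>
    have h1 : (fun z => Polynomial.aeval (D z) (p + q)) =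
        fun z => Polynomial.aeval (D z) p + Polynomial.aeval (D z) q := by
      funext z; rw [map_add]
    rw [h1, DZ_add hΩ hz (Sm.aeval' h p) (Sm.aeval' h q), hp, hq, map_add]
    noncomm_ring
  | monomial n a =>
    have h2 : (fun z => Polynomial.aeval (D z) ((Polynomial.monomial n) a)) =
        fun z => a • D z ^ n := by
      funext z
      rw [Polynomial.aeval_monomial, Algebra.algebraMap_eq_smul_one, smul_mul_assoc, one_mul]
    have h3 : Polynomial.aeval (D z) ((Polynomial.monomial n) a) = a • D z ^ n := congrFun h2 z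
    rw [h2, h3, DZ_smul hΩ hz a (Sm.pow' h n), DZ_pow' hΩ hz h hd, smul_sub, mul_smul_comm,
      smul_mul_assoc]

/-- the polarized variation with a given grading operator -/
theorem GD.pv (h : GD w K Q Ω D) (hΩ : IsOpen Ω) :
    PV w K Q Ω (fun z a => LP K (D z) a) (DZ D) where
  hd z hz := by
    have hA := h.poly z hz
    have hconjA : ∀ a : ℤ, D z * (LP K (D z) a).map (starRingEnd ℂ) =
        ((w - a : ℤ) : ℂ) • (LP K (D z) a).map (starRingEnd ℂ) := by
      intro a
      have h1 : (D z).map (starRingEnd ℂ) * (LP K (D z) a).map (starRingEnd ℂ) =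
          (a : ℂ) • (LP K (D z) a).map (starRingEnd ℂ) := by
        rw [← Matrix.map_mul, LP_left hA]
        ext i j
        simp
      rw [h.conj z hz, sub_mul, smul_mul_assoc, one_mul, sub_eq_iff_eq_add] at h1
      have h2 : D z * (LP K (D z) a).map (starRingEnd ℂ) =
          (w : ℂ) • (LP K (D z) a).map (starRingEnd ℂ) -
            (a : ℂ) • (LP K (D z) a).map (starRingEnd ℂ) := by
        rw [h1]; abel
      rw [h2, ← sub_smul]
      push_cast
      rfl
    have hconjB : ∀ a : ℤ, (LP K (D z) a).map (starRingEnd ℂ) * D z =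
        ((w - a : ℤ) : ℂ) • (LP K (D z) a).map (starRingEnd ℂ) := by
      intro a
      have h1 : (LP K (D z) a).map (starRingEnd ℂ) * (D z).map (starRingEnd ℂ) =
          (a : ℂ) • (LP K (D z) a).map (starRingEnd ℂ) := by
        rw [← Matrix.map_mul, LP_right hA]
        ext i j
        simp
      rw [h.conj z hz, mul_sub, mul_smul_comm, mul_one, sub_eq_iff_eq_add] at h1
      have h2 : (LP K (D z) a).map (starRingEnd ℂ) * D z =
          (w : ℂ) • (LP K (D z) a).map (starRingEnd ℂ) -
            (a : ℂ) • (LP K (D z) a).map (starRingEnd ℂ) := by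
        rw [h1]; abel
      rw [h2, ← sub_smul]
      push_cast
      rfl
    have hsumc : ∑ b ∈ Finset.Icc (-(K : ℤ)) K, (LP K (D z) b).map (starRingEnd ℂ) = 1 := by
      have h1 := congrArg (fun M : Matrix (Fin m) (Fin m) ℂ => M.map (starRingEnd ℂ))
        (LP_sum (K := K) (A := D z))
      have h2 : (1 : Matrix (Fin m) (Fin m) ℂ).map (starRingEnd ℂ) = 1 := by
        rw [Matrix.map_one] <;> simp
      rw [h2] at h1
      rw [← h1]
      ext i j
      simp [Matrix.sum_apply, Matrix.map_apply, map_sum]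
    refine ⟨LP_mul hA, fun a ha => LP_zero ?_, LP_sum, fun a => ?_, fun a b hab => ?_,
      fun a v hv hv0 => h.pos z hz a v (LP_mulVec_eigen hA hv) hv0⟩
    · rw [Finset.mem_Icc, ← abs_le]
      exact not_le.2 ha
    · have h1 : (LP K (D z) a).map (starRingEnd ℂ) =
          (LP K (D z) a).map (starRingEnd ℂ) * LP K (D z) (w - a) := by
        rw [LP_eigen_right hA (hconjB a), if_pos rfl]
      have h2 : LP K (D z) (w - a) =
          (LP K (D z) a).map (starRingEnd ℂ) * LP K (D z) (w - a) := by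
        by_cases ha : a ∈ Finset.Icc (-(K : ℤ)) K
        · calc LP K (D z) (w - a) = (∑ b ∈ Finset.Icc (-(K : ℤ)) K,
                (LP K (D z) b).map (starRingEnd ℂ)) * LP K (D z) (w - a) := by
                rw [hsumc, one_mul]
            _ = (LP K (D z) a).map (starRingEnd ℂ) * LP K (D z) (w - a) := by
                rw [Finset.sum_mul]
                refine Finset.sum_eq_single_of_mem a ha fun b _ hb => ?_
                rw [LP_eigen_right hA (hconjB b), if_neg (by omega)]
        · have h3 : (LP K (D z) a).map (starRingEnd ℂ) = 0 := by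
            rw [LP_zero ha]
            ext i j
            simp
          rw [h3, zero_mul]
          calc LP K (D z) (w - a) = (∑ b ∈ Finset.Icc (-(K : ℤ)) K,
                (LP K (D z) b).map (starRingEnd ℂ)) * LP K (D z) (w - a) := by
                rw [hsumc, one_mul]
            _ = 0 := by
                rw [Finset.sum_mul]
                refine Finset.sum_eq_zero fun b hb => ?_
                rw [LP_eigen_right hA (hconjB b), if_neg]
                intro e
                have : a = b := by omega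
                exact ha (this ▸ hb)
      rw [h1, ← h2]
    · have h1 : (LP K (D z) a)ᵀ * ((D z)ᵀ * cm Q + cm Q * D z) * LP K (D z) b =
          ((a : ℂ) + b) • ((LP K (D z) a)ᵀ * cm Q * LP K (D z) b) := by
        have e1 : (LP K (D z) a)ᵀ * (D z)ᵀ = (a : ℂ) • (LP K (D z) a)ᵀ := by
          rw [← Matrix.transpose_mul, LP_left hA, Matrix.transpose_smul]
        calc (LP K (D z) a)ᵀ * ((D z)ᵀ * cm Q + cm Q * D z) * LP K (D z) b
            = (LP K (D z) a)ᵀ * (D z)ᵀ * cm Q * LP K (D z) b +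
              (LP K (D z) a)ᵀ * cm Q * (D z * LP K (D z) b) := by noncomm_ring
          _ = _ := by
            rw [e1, LP_left hA, smul_mul_assoc, smul_mul_assoc, mul_smul_comm, add_smul]
      rw [h.skew z hz, mul_smul_comm, smul_mul_assoc, ← sub_eq_zero, ← sub_smul] at h1
      refine (smul_eq_zero.1 h1).resolve_left ?_
      intro e
      rw [sub_eq_zero] at e
      apply hab
      exact_mod_cast e.symm
  sm a := Sm.aeval' h.sm (lpoly K a)
  smθ := Sm.DZ hΩ h.sm
  der z hz a := DZ_aeval hΩ hz h.sm (h.deg z hz) (lpoly K a)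
  deg z hz a := by
    have hA := h.poly z hz
    have hd := h.deg z hz
    set θ := DZ D z with hθ
    have h1 : D z * (θ * LP K (D z) a) = ((a - 1 : ℤ) : ℂ) • (θ * LP K (D z) a) := by
      have e1 : D z * θ = θ * D z - θ := by
        have : θ * D z - D z * θ = θ := hd
        rw [sub_eq_iff_eq_add] at this
        rw [this]; abel
      rw [← Matrix.mul_assoc, e1, sub_mul, Matrix.mul_assoc, LP_left hA, mul_smul_comm]
      push_cast
      rw [sub_smul, one_smul]
    have h2 : (LP K (D z) (a - 1) * θ) * D z = (a : ℂ) • (LP K (D z) (a - 1) * θ) := by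
      have e1 : θ * D z = D z * θ + θ := by
        have : θ * D z - D z * θ = θ := hd
        rw [sub_eq_iff_eq_add] at this
        conv_lhs => rw [this]
        abel
      rw [Matrix.mul_assoc, e1, mul_add, ← Matrix.mul_assoc, LP_right hA, smul_mul_assoc]
      push_cast
      rw [sub_smul, one_smul]
      abel
    have h3 := LP_eigen hA h1 (a - 1)
    rw [if_pos rfl] at h3
    have h4 := LP_eigen_right hA h2 a
    rw [if_pos rfl] at h4
    rw [← h3, ← Matrix.mul_assoc, h4]
  skew z hz := by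
    have h1 : DZ (fun z => (D z)ᵀ * cm Q + cm Q * D z) z = 0 := by
      rw [DZ_congr (F' := fun _ => (w : ℂ) • cm Q), DZ_const]
      filter_upwards [hΩ.mem_nhds hz] with x hx
      exact h.skew x hx
    have s1 : Sm Ω (fun z => (D z)ᵀ) := Sm.transpose h.sm
    have s2 : Sm Ω (fun _ : ℂ => cm Q) := Sm.const _
    rw [DZ_add hΩ hz (Sm.mul s1 s2) (Sm.mul s2 h.sm), DZ_mul hΩ hz s1 s2, DZ_mul hΩ hz s2 h.sm,
      DZ_const, DZ_transpose, mul_zero, zero_mul, add_zero, zero_add] at h1
    exact h1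

theorem GD.YY_eq (h : GD w K Q Ω D) (hz : z ∈ Ω) : YY K (fun a => LP K (D z) a) = D z :=
  YY_LP (h.poly z hz)

end ZW67
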