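import Pool.Agent.LibZW67.Comp
import Pool.Agent.LibZW67.Dif
import Pool.Agent.LibZW67.PVD
import Pool.Agent.LibUS38.Fin0

/-! Statements of the count for a finite family of extensions without frames. -/

open Matrix Complex MeasureTheory Filter Topology
open UpperHalfPlane hiding I
open scoped ComplexOrder ContDiff

namespace ZW67

open SP38 US38

/-- holomorphic equations for the Hodge filtration -/
structure Frame {r : ℕ} (K : ℕ) (D : ℂ → Matrix (Fin r) (Fin r) ℂ) {β : Type} [Fintype β]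
    (pq : β → ℤ) (A : ℂ → Matrix β (Fin r) ℂ) (M : ℂ → Matrix β β ℂ) : Prop where
  hol : ∀ i j, DifferentiableOn ℂ (fun z => A z i j) (Hc 0)
  mem : ∀ z ∈ Hc 0, ∀ (l : ℤ) (x : Fin r → ℂ),
    (∀ a : ℤ, a < l → LP K (D z) a *ᵥ x = 0) ↔ ∀ j, pq j < l → (A z *ᵥ x) j = 0
  cont : ∀ i j, ContinuousOn (fun z => M z i j) (Hc 0)
  der : ∀ z ∈ Hc 0, ∀ i j, deriv (fun z => A z i j) z = (M z * A z) i j
  tr : ∀ z ∈ Hc 0, ∀ i j, pq i + 1 < pq j → M z i j = 0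

/-- one member of the family: grading operator `D`, class `e` -/
structure Mem (w : ℤ) (K : ℕ) {r : ℕ} (Q : Matrix (Fin r) (Fin r) ℝ)
    (D : ℂ → Matrix (Fin r) (Fin r) ℂ) (e : ℂ → Fin r → ℂ) : Prop where
  gd : GD w K Q (Hc 0) D
  sme : SmV (Hc 0) e
  d0 : ∀ z ∈ Hc 0, ∀ a : ℤ, a < 0 → LP K (D z) a *ᵥ DVb e z = 0
  d1 : ∀ z ∈ Hc 0, ∀ a : ℤ, a < -1 → LP K (D z) a *ᵥ DV e z = 0
  types : ∀ z ∈ Hc 0, ∀ a : ℤ, LP K (D z) a ≠ 0 → a < -1 ∨ w - a < -1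
  neg : w < 0
  frame : ∃ (β : Type) (_ : Fintype β) (pq : β → ℤ) (A : ℂ → Matrix β (Fin r) ℂ)
    (M : ℂ → Matrix β β ℂ), Frame K D pq A M

/-- the class is real modulo `F^0` at `z` -/
def RealAt {r : ℕ} (K : ℕ) (D : ℂ → Matrix (Fin r) (Fin r) ℂ) (e : ℂ → Fin r → ℂ) (z : ℂ) : Prop :=
  ∃ c : Fin r → ℝ, ∀ a : ℤ, a < 0 → LP K (D z) a *ᵥ (e z - ofR c) = 0

/-- the class is a constant real vector modulo `F^0` -/
def FlatE {r : ℕ} (K : ℕ) (D : ℂ → Matrix (Fin r) (Fin r) ℂ) (e : ℂ → Fin r → ℂ) : Prop :=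
  ∃ c : Fin r → ℝ, ∀ z ∈ Hc 0, ∀ a : ℤ, a < 0 → LP K (D z) a *ᵥ (e z - ofR c) = 0

end ZW67
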