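import Pool.Agent.LibZW67.Fam
import Pool.Agent.LibZW67.Pot
import Pool.Agent.LibZW67.Stmt

/-! The count for a finite family. -/

open Matrix Complex MeasureTheory Filter Topology
open UpperHalfPlane hiding I
open scoped ComplexOrder ContDiff

namespace ZW67

open SP38 US38

/-- growth on a strip -/
theorem Mem.growth {m : ℕ} {w : ℤ} {K : ℕ} {Q : Matrix (Fin m) (Fin m) ℝ}
    {D : ℂ → Matrix (Fin m) (Fin m) ℂ} {e : ℂ → Fin m → ℂ} (hm : Mem w K Q D e)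
    (σ : Matrix.SpecialLinearGroup (Fin 2) ℝ) (M : ℝ)
    (hgr : ∃ (C : ℝ) (N : ℕ) (Y : ℝ), ∀ ζ : ℂ, |ζ.re| ≤ M → Y ≤ ζ.im →
      ∀ j, ‖e (mob σ ζ) j‖ ≤ C * ζ.im ^ N) :
    ∃ (C : ℕ) (Y : ℝ), ∀ ζ : ℂ, |ζ.re| ≤ M → Y ≤ ζ.im →
      (NM w K Q D e (mob σ ζ)).re ≤ ζ.im ^ C := by
  obtain ⟨C1, Y1, hY1, h1⟩ := mob_compare (hm.gd.pv (isOpen_Hc 0)) σ M
  obtain ⟨C2, N, Y2, h2⟩ := hgr
  refine ⟨C1 + (N * 2 + 1), max (max Y1 Y2) (C2 ^ 2), fun ζ hζ hζ' => ?_⟩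
  have hζ1 : Y1 ≤ ζ.im := ((le_max_left _ _).trans (le_max_left _ _)).trans hζ'
  have hζ2 : Y2 ≤ ζ.im := ((le_max_right _ _).trans (le_max_left _ _)).trans hζ'
  have hζ3 : C2 ^ 2 ≤ ζ.im := (le_max_right _ _).trans hζ'
  have hy1 : 1 ≤ ζ.im := hY1.trans hζ1
  have hy0 : 0 < ζ.im := by linarith
  have hz : mob σ ζ ∈ Hc 0 := mob_mem σ hy0
  have hd := hm.hd hz
  have e1 : ‖e (mob σ ζ)‖ ≤ |C2| * ζ.im ^ N := by
    refine (pi_norm_le_iff_of_nonneg (by positivity)).mpr fun i => ?_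
    exact (h2 ζ hζ hζ2 i).trans (mul_le_mul_of_nonneg_right (le_abs_self _) (by positivity))
  rw [hm.NM_eq hz, Complex.ofReal_re]
  calc qf (metr w K Q fun a => LP K (D (mob σ ζ)) a)
        (Rm w (fun a => LP K (D (mob σ ζ)) a) *ᵥ imv (e (mob σ ζ)))
      ≤ qf (metr w K Q fun a => LP K (D (mob σ ζ)) a) (imv (e (mob σ ζ))) :=
        grow_qf_proj_le hd.posDef (adj_Rm hd) (Rm_Rm hd) _
    _ ≤ ζ.im ^ C1 * ‖imv (e (mob σ ζ))‖ ^ 2 := (h1 ζ hζ hζ1 _).1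
    _ ≤ ζ.im ^ C1 * (|C2| * ζ.im ^ N) ^ 2 := by
        refine mul_le_mul_of_nonneg_left ?_ (by positivity)
        exact pow_le_pow_left₀ (norm_nonneg _) ((grow_norm_imv_le _).trans e1) 2
    _ = ζ.im ^ C1 * (ζ.im ^ (N * 2) * C2 ^ 2) := by
        rw [mul_pow, sq_abs, pow_mul]
        ring
    _ ≤ ζ.im ^ C1 * (ζ.im ^ (N * 2) * ζ.im) := by
        refine mul_le_mul_of_nonneg_left ?_ (by positivity)
        exact mul_le_mul_of_nonneg_left hζ3 (by positivity)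
    _ = ζ.im ^ (C1 + (N * 2 + 1)) := by rw [← pow_succ, ← pow_add]

variable {κι : Type} [Fintype κι] {Δ : Subgroup (Matrix.SpecialLinearGroup (Fin 2) ℝ)}
    {σ : κι → Matrix.SpecialLinearGroup (Fin 2) ℝ} {h : κι → ℝ} {X : Set ℍ}

/-- a common period at a cusp -/
theorem exists_period {J : Type} [Fintype J] {N T : J → ℂ → ℂ} (hc : IsCurve Δ σ h X)
    (hinv : PermInv Δ N T) (i : κι) :
    ∃ L : ℝ, 0 < L ∧ ∀ n, ∀ ζ ∈ Hc 0, N n (mob (σ i) (ζ + L)) = N n (mob (σ i) ζ) := by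
  have hh := (hc.width i).1
  obtain ⟨k, hk, π', hπ', hπ'm⟩ : ∃ k : ℕ, 0 < k ∧ ∃ π' ∈ stab Δ N T,
      mob π' = mob (σ i * SP38.trans (k * h i) * (σ i)⁻¹) := by
    rcases (hc.width i).2 with h1 | h1
    · obtain ⟨k, hk, hk'⟩ := exists_pow hinv h1
      refine ⟨2 * k, by omega, _, hk', ?_⟩
      rw [conj_trans_pow]
    · obtain ⟨k, hk, hk'⟩ := exists_pow hinv h1
      refine ⟨2 * k, by omega, _, hk', ?_⟩
      rw [Even.neg_pow ⟨k, by ring⟩, conj_trans_pow]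
  have hk0 : (0 : ℝ) < k := by exact_mod_cast hk
  refine ⟨k * h i, by positivity, fun n ζ hζ => ?_⟩
  have h1 := (hπ'.2 n _ (mob_mem (σ i) hζ)).1
  rw [hπ'm, ← mob_mul _ _ hζ, inv_mul_cancel_right, mob_mul _ _ hζ, mob_trans] at h1
  exact h1

theorem zw_main {J : Type} [Fintype J] {w : J → ℤ} {K : ℕ} {r : J → ℕ}
    {Q : ∀ n, Matrix (Fin (r n)) (Fin (r n)) ℝ} {D : ∀ n, ℂ → Matrix (Fin (r n)) (Fin (r n)) ℂ}
    {e : ∀ n, ℂ → Fin (r n) → ℂ} {κ : J → ℝ} (hc : IsCurve Δ σ h X)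
    (hm : ∀ n, Mem (w n) K (Q n) (D n) (e n))
    (hκ : ∀ n, ∀ z ∈ Hc 0, (Matrix.trace ((D n z - ((w n : ℂ) / 2) • 1) *
      (D n z - ((w n : ℂ) / 2) • 1))).re ≤ κ n)
    (hinv : ∀ δ ∈ Δ, ∃ π : Equiv.Perm J, ∀ n, ∃ (γ : Matrix (Fin (r (π n))) (Fin (r n)) ℝ)
      (b : Fin (r (π n)) → ℝ), w (π n) = w n ∧ γᵀ * Q (π n) * γ = Q n ∧
      ∀ z ∈ Hc 0, D (π n) (mob δ z) * cm γ = cm γ * D n z ∧
        e (π n) (mob δ z) = cm γ *ᵥ e n z + ofR b)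
    (hgr : ∀ n i, ∀ M : ℝ, ∃ (C : ℝ) (N : ℕ) (Y : ℝ), ∀ ζ : ℂ, |ζ.re| ≤ M → Y ≤ ζ.im →
      ∀ j, ‖e n (mob (σ i) ζ) j‖ ≤ C * ζ.im ^ N) :
    (∃ n, FlatE K (D n) (e n)) ∨
    ∃ Z : Finset ℍ, (Z.card : ℝ) * Real.pi ≤ (∑ n, κ n) * (volume X).toReal ∧
      ∀ τ : ℍ, (∃ n, RealAt K (D n) (e n) (τ : ℂ)) → ∃ δ ∈ Δ, δ • τ ∈ Z := by
  by_cases hflat : ∃ n, FlatE K (D n) (e n)
  · exact Or.inl hflat
  right
  push Not at hflat
  have hw : ∀ n, w n ≤ -3 := fun n => by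
    by_contra hcon
    exact hflat n ((hm n).flat_of_weight (by omega))
  have hP : ∀ n, Pot ⊥ (κ n) (NM (w n) K (Q n) (D n) (e n)) (TM (w n) K (Q n) (D n) (e n)) :=
    fun n => (hm n).pot (hw n) (hκ n)
  have hinv' : PermInv Δ (fun n => NM (w n) K (Q n) (D n) (e n))
      (fun n => TM (w n) K (Q n) (D n) (e n)) := by
    intro δ hδ
    obtain ⟨π, hπ⟩ := hinv δ hδ
    refine ⟨π, fun n z hz => ?_⟩
    obtain ⟨γ, b, hwn, hQ, hγ⟩ := hπ n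
    have hm' : Mem (w n) K (Q (π n)) (D (π n)) (e (π n)) := hwn ▸ hm (π n)
    have h1 := trans_mem (hm n) hm' hQ hγ hz
    show NM (w (π n)) K (Q (π n)) (D (π n)) (e (π n)) (mob δ z) = _ ∧
      pb (mob δ) (TM (w (π n)) K (Q (π n)) (D (π n)) (e (π n))) z = _
    rw [hwn]
    exact h1
  have hgr' : ∀ n i, ∃ (C : ℕ) (Y₀ : ℝ), ∀ ζ : ℂ, 0 < ζ.im → Y₀ ≤ ζ.im →
      (NM (w n) K (Q n) (D n) (e n) (mob (σ i) ζ)).re ≤ ζ.im ^ C := by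
    intro n i
    obtain ⟨L, hL, hper⟩ := exists_period hc hinv' i
    obtain ⟨C, Y, hY⟩ := (hm n).growth (σ i) L (hgr n i L)
    refine ⟨C, Y, fun ζ hζ0 hζ => ?_⟩
    have hp : Function.Periodic
        (fun x : ℝ => NM (w n) K (Q n) (D n) (e n) (mob (σ i) (x + ζ.im * I))) L := by
      intro x
      have h1 := hper n ((x : ℂ) + ζ.im * I) (by
        show 0 < ((x : ℂ) + ζ.im * I).im
        simpa using hζ0)
      show NM (w n) K (Q n) (D n) (e n) (mob (σ i) (((x + L : ℝ) : ℂ) + ζ.im * I)) =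
        NM (w n) K (Q n) (D n) (e n) (mob (σ i) ((x : ℂ) + ζ.im * I))
      rw [← h1]
      congr 2
      push_cast
      ring
    obtain ⟨x, hx, hx'⟩ := hp.exists_mem_Ico₀ hL ζ.re
    simp only [Complex.re_add_im] at hx'
    rw [hx']
    have h2 := hY ((x : ℂ) + ζ.im * I) (by simpa using abs_le.2 ⟨by linarith [hx.1], hx.2.le⟩)
      (by simpa using hζ)
    simpa using h2
  obtain ⟨Z, hZ1, hZ2⟩ := exists_max (Δ := Δ)
    (S := fun τ : ℍ => ∃ n, RealAt K (D n) (e n) (τ : ℂ))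
    (B := (∑ n, κ n) * (volume X).toReal / Real.pi)
    (fun δ hδ τ hτ => by
      obtain ⟨n, hn⟩ := hτ
      obtain ⟨π, hπ⟩ := hinv' δ hδ
      refine ⟨π n, ?_⟩
      have hz : (τ : ℂ) ∈ Hc 0 := τ.im_pos
      rw [← mob_coe, ← (hm (π n)).NM_zero_iff (mob_mem δ hz)]
      exact (hπ n _ hz).1.trans (((hm n).NM_zero_iff hz).2 hn))
    (fun Z h1 h2 => by
      rw [le_div_iff₀ Real.pi_pos]
      refine zeros_le_fam hc hP hinv' hgr' ?_ Z ?_ h2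
      · intro n z₀ hz₀
        have h3 := isolated (hm n) (hflat n) hz₀
        have h4 : ∀ᶠ z in 𝓝[≠] z₀, z ∈ Hc 0 :=
          mem_nhdsWithin_of_mem_nhds ((isOpen_Hc 0).mem_nhds hz₀)
        filter_upwards [h3, h4] with z h5 h6 h7
        exact h5 (((hm n).NM_zero_iff h6).1 h7)
      · intro z hz
        obtain ⟨n, hn⟩ := h1 z hz
        exact ⟨n, ((hm n).NM_zero_iff z.im_pos).2 hn⟩)
  refine ⟨Z, ?_, hZ2⟩
  rwa [le_div_iff₀ Real.pi_pos] at hZ1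

end ZW67
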