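import Pool.Agent.LibUS38.Cnt
import Pool.Agent.LibUS38.Sgn

/-! Zeros of a finite family of potentials which is permuted by `Δ`. -/

open Matrix Complex MeasureTheory Filter Topology
open UpperHalfPlane hiding I
open scoped ContDiff

namespace ZW67

open SP38 US38

variable {ι : Type} [Fintype ι] {Δ : Subgroup (Matrix.SpecialLinearGroup (Fin 2) ℝ)}
  {σ : ι → Matrix.SpecialLinearGroup (Fin 2) ℝ} {h : ι → ℝ} {X : Set ℍ}
  {J : Type} [Fintype J] {κ : J → ℝ} {N T : J → ℂ → ℂ}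

/-- the family is permuted by `Δ` -/
def PermInv (Δ : Subgroup (Matrix.SpecialLinearGroup (Fin 2) ℝ)) (N T : J → ℂ → ℂ) : Prop :=
  ∀ δ ∈ Δ, ∃ π : Equiv.Perm J, ∀ n, ∀ z ∈ Hc 0, N (π n) (mob δ z) = N n z ∧
    pb (mob δ) (T (π n)) z = T n z

/-- the sum of the forms -/
noncomputable def jF (N T : J → ℂ → ℂ) (ε : ℝ) (z : ℂ) : ℂ := ∑ n, jj (N n) (T n) ε z

theorem jF_pb (φ : ℂ → ℂ) (ε : ℝ) (z : ℂ) :
    pb φ (jF N T ε) z = ∑ n, pb φ (jj (N n) (T n) ε) z := by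
  simp only [pb, jF]
  rw [Finset.sum_mul]

theorem jF_sm (hP : ∀ n, Pot ⊥ (κ n) (N n) (T n)) {ε : ℝ} (hε : 0 < ε) :
    SmS (Hc 0) (jF N T ε) := by
  unfold SmS jF
  exact ContDiffOn.sum fun n _ =>
    SmS_jj (isOpen_Hc 0) (hP n).smN (hP n).smT (hP n).im (hP n).nn hε

theorem rho_jF (hP : ∀ n, Pot ⊥ (κ n) (N n) (T n)) {ε : ℝ} (hε : 0 < ε) {z : ℂ}
    (hz : z ∈ Hc 0) : rho (jF N T ε) z = ∑ n, rho (jj (N n) (T n) ε) z := by
  have h1 := WirtM_dzb_sum (Finset.univ : Finset J) (f := fun n => jj (N n) (T n) ε) (z := z)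
    fun n _ => SmS.differentiableAt (isOpen_Hc 0)
      (SmS_jj (isOpen_Hc 0) (hP n).smN (hP n).smT (hP n).im (hP n).nn hε) hz
  have h2 : jF N T ε = fun z => ∑ n, jj (N n) (T n) ε z := rfl
  simp only [rho]
  rw [h2, h1, Complex.re_sum, Finset.mul_sum]

theorem jj_perm (hP : ∀ n, Pot ⊥ (κ n) (N n) (T n)) {ε : ℝ}
    {δ : Matrix.SpecialLinearGroup (Fin 2) ℝ} {n n' : J}
    (hN : ∀ z ∈ Hc 0, N n' (mob δ z) = N n z) (hT : ∀ z ∈ Hc 0, pb (mob δ) (T n') z = T n z)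
    {z : ℂ} (hz : z ∈ Hc 0) :
    pb (mob δ) (jj (N n') (T n') ε) z = jj (N n) (T n) ε z := by
  have hn : Hc 0 ∈ 𝓝 z := (isOpen_Hc 0).mem_nhds hz
  rw [← jj_pb (isOpen_Hc 0) (hP n').smN ((mob_holo δ).differentiableAt hn) (mob_mem δ hz)]
  unfold jj
  have h1 : dz (fun z => N n' (mob δ z)) z = dz (N n) z := by
    apply dz_congr
    filter_upwards [hn] with w hw
    exact hN w hw
  rw [h1, hT z hz]
  show _ / (N n' (mob δ z) + _) = _
  rw [hN z hz]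

theorem jF_inv (hP : ∀ n, Pot ⊥ (κ n) (N n) (T n)) (hinv : PermInv Δ N T) {ε : ℝ}
    {δ : Matrix.SpecialLinearGroup (Fin 2) ℝ} (hδ : δ ∈ Δ) {z : ℂ} (hz : z ∈ Hc 0) :
    pb (mob δ) (jF N T ε) z = jF N T ε z := by
  obtain ⟨π, hπ⟩ := hinv δ hδ
  rw [jF_pb, ← Equiv.sum_comp π]
  exact Finset.sum_congr rfl fun n _ =>
    jj_perm hP (fun z hz => (hπ n z hz).1) (fun z hz => (hπ n z hz).2) hz

/-- the elements which fix all members -/
def stab (Δ : Subgroup (Matrix.SpecialLinearGroup (Fin 2) ℝ)) (N T : J → ℂ → ℂ) :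
    Subgroup (Matrix.SpecialLinearGroup (Fin 2) ℝ) where
  carrier := {δ | δ ∈ Δ ∧ ∀ n, ∀ z ∈ Hc 0, N n (mob δ z) = N n z ∧ pb (mob δ) (T n) z = T n z}
  one_mem' := by
    refine ⟨Δ.one_mem, fun n z hz => ?_⟩
    have h1 : mob 1 = fun z => z := funext mob_one
    refine ⟨by rw [mob_one], ?_⟩
    rw [pb, h1]
    simp
  mul_mem' := by
    rintro a b ⟨ha, ha'⟩ ⟨hb, hb'⟩
    refine ⟨Δ.mul_mem ha hb, fun n z hz => ⟨?_, ?_⟩⟩
    · rw [mob_mul a b hz, (ha' n _ (mob_mem b hz)).1, (hb' n z hz).1]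
    · rw [pb_mul a b _ hz, pb, (ha' n _ (mob_mem b hz)).2, ← pb, (hb' n z hz).2]
  inv_mem' := by
    rintro a ⟨ha, ha'⟩
    refine ⟨Δ.inv_mem ha, fun n z hz => ⟨?_, ?_⟩⟩
    · have h1 := (ha' n _ (mob_mem a⁻¹ hz)).1
      rw [(mob_inv_mob a hz).2] at h1
      exact h1.symm
    · have h1 : pb (mob a⁻¹) (pb (mob a) (T n)) z = pb (mob a⁻¹) (T n) z := by
        rw [pb, (ha' n _ (mob_mem a⁻¹ hz)).2, pb]
      rw [← h1, ← pb_mul a a⁻¹ _ hz, mul_inv_cancel]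
      have h2 : mob 1 = fun z => z := funext mob_one
      rw [pb, h2]
      simp

theorem pot_stab (hP : ∀ n, Pot ⊥ (κ n) (N n) (T n)) (n : J) :
    Pot (stab Δ N T) (κ n) (N n) (T n) :=
  ⟨(hP n).kappa, (hP n).smN, (hP n).smT, (hP n).im, (hP n).nn, (hP n).bd, (hP n).ineq,
    fun _ hδ z hz => (hδ.2 n z hz).1, fun _ hδ z hz => (hδ.2 n z hz).2⟩

theorem pow_perm {δ : Matrix.SpecialLinearGroup (Fin 2) ℝ} {π : Equiv.Perm J}
    (hπ : ∀ n, ∀ z ∈ Hc 0, N (π n) (mob δ z) = N n z ∧ pb (mob δ) (T (π n)) z = T n z) (m : ℕ) :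
    ∀ n, ∀ z ∈ Hc 0, N ((π ^ m) n) (mob (δ ^ m) z) = N n z ∧
      pb (mob (δ ^ m)) (T ((π ^ m) n)) z = T n z := by
  induction m with
  | zero =>
    intro n z _
    have h1 : mob 1 = fun z => z := funext mob_one
    rw [pow_zero, pow_zero, Equiv.Perm.one_apply]
    refine ⟨by rw [mob_one], ?_⟩
    rw [pb, h1]
    simp
  | succ m ih =>
    intro n z hz
    rw [pow_succ, pow_succ, Equiv.Perm.mul_apply]
    constructor
    · rw [mob_mul _ _ hz, (ih (π n) _ (mob_mem δ hz)).1, (hπ n z hz).1]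
    · rw [pb_mul _ _ _ hz, pb, (ih (π n) _ (mob_mem δ hz)).2, ← pb, (hπ n z hz).2]

/-- a positive even power of every element fixes all members -/
theorem exists_pow (hinv : PermInv Δ N T) {δ : Matrix.SpecialLinearGroup (Fin 2) ℝ} (hδ : δ ∈ Δ) :
    ∃ k : ℕ, 0 < k ∧ δ ^ (2 * k) ∈ stab Δ N T := by
  obtain ⟨π, hπ⟩ := hinv δ hδ
  refine ⟨orderOf π, orderOf_pos π, ?_⟩
  have h1 : δ ^ orderOf π ∈ stab Δ N T := by
    refine ⟨Δ.pow_mem hδ _, fun n z hz => ?_⟩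
    have := pow_perm hπ (orderOf π) n z hz
    rwa [pow_orderOf_eq_one, Equiv.Perm.one_apply] at this
  rw [mul_comm, pow_mul]
  exact (stab Δ N T).pow_mem h1 2

theorem trans_pow (a : ℝ) (n : ℕ) : SP38.trans a ^ n = SP38.trans (n * a) := by
  induction n with
  | zero =>
    rw [pow_zero]
    ext i j
    fin_cases i <;> fin_cases j <;> simp [SP38.trans]
  | succ n ih =>
    rw [pow_succ, ih]
    ext i j
    fin_cases i <;> fin_cases j <;> simp [SP38.trans, Matrix.mul_apply, Fin.sum_univ_two]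
    ring

theorem conj_trans_pow (g : Matrix.SpecialLinearGroup (Fin 2) ℝ) (a : ℝ) (n : ℕ) :
    (g * SP38.trans a * g⁻¹) ^ n = g * SP38.trans (n * a) * g⁻¹ := by
  rw [conj_pow, trans_pow]

/-- the flux of the sum at a cusp -/
theorem flux_le (hc : IsCurve Δ σ h X) (hP : ∀ n, Pot ⊥ (κ n) (N n) (T n))
    (hinv : PermInv Δ N T) (i : ι)
    (hgr : ∀ n, ∃ (C : ℕ) (Y₀ : ℝ), ∀ ζ : ℂ, 0 < ζ.im → Y₀ ≤ ζ.im →
      (N n (mob (σ i) ζ)).re ≤ ζ.im ^ C) {ε : ℝ} (hε : 0 < ε) {Y : ℝ} (hY : 0 < Y) :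
    flux (pb (mob (σ i)) (jF N T ε)) (h i) Y ≤ h i * (∑ n, κ n) / Y := by
  have hΩ := isOpen_Hc 0
  obtain ⟨π, hπ, hπm, -⟩ := hc.gen i
  have hh := (hc.width i).1
  -- a power of the generator
  obtain ⟨k, hk, π', hπ', hπ'm⟩ : ∃ k : ℕ, 0 < k ∧ ∃ π' ∈ stab Δ N T,
      mob π' = mob (σ i * trans (k * h i) * (σ i)⁻¹) := by
    rcases (hc.width i).2 with h1 | h1
    · obtain ⟨k, hk, hk'⟩ := exists_pow hinv h1
      refine ⟨2 * k, by omega, _, hk', ?_⟩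
      rw [conj_trans_pow]
    · obtain ⟨k, hk, hk'⟩ := exists_pow hinv h1
      refine ⟨2 * k, by omega, _, hk', ?_⟩
      rw [Even.neg_pow ⟨k, by ring⟩, conj_trans_pow]
  have hk0 : (0 : ℝ) < k := by exact_mod_cast hk
  have hmem : ∀ x : ℝ, ((x : ℂ) + Y * I) ∈ Hc 0 := by
    intro x
    show 0 < ((x : ℂ) + Y * I).im
    simpa using hY
  -- periodicity
  have hper : Function.Periodic
      (fun x : ℝ => (I * pb (mob (σ i)) (jF N T ε) (x + Y * I)).re) (h i) := by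
    intro x
    have hζ := hmem x
    set ζ : ℂ := (x : ℂ) + Y * I with hζdef
    have e0 : ((x + h i : ℝ) : ℂ) + Y * I = ζ + (h i : ℂ) := by
      rw [hζdef]
      push_cast
      ring
    have e1 : pb (mob (σ i)) (jF N T ε) (ζ + (h i : ℂ)) = pb (mob (σ i)) (jF N T ε) ζ := by
      have h1 : pb (mob (σ i * trans (h i) * (σ i)⁻¹ * σ i)) (jF N T ε) ζ =
          pb (mob (σ i)) (pb (mob (σ i * trans (h i) * (σ i)⁻¹)) (jF N T ε)) ζ :=
        pb_mul _ _ _ hζ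
      rw [inv_mul_cancel_right, pb_mul _ _ _ hζ] at h1
      have h2 : pb (mob (σ i)) (pb (mob (σ i * trans (h i) * (σ i)⁻¹)) (jF N T ε)) ζ =
          pb (mob (σ i)) (jF N T ε) ζ := by
        rw [← hπm, pb, jF_inv hP hinv hπ (mob_mem (σ i) hζ), pb]
      have h3 : pb (mob (trans (h i))) (pb (mob (σ i)) (jF N T ε)) ζ =
          pb (mob (σ i)) (jF N T ε) (ζ + (h i : ℂ)) := by
        rw [pb]
        have : mob (trans (h i)) = fun z => z + ((h i : ℝ) : ℂ) :=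
          funext fun z => mob_trans (h i) z
        rw [this]
        simp
      rw [← h3, h1, h2]
    show (I * pb (mob (σ i)) (jF N T ε) (((x + h i : ℝ) : ℂ) + Y * I)).re = _
    rw [e0, e1]
  -- continuity
  have hcont : ∀ j : ℂ → ℂ, SmS (Hc 0) j → Continuous
      (fun x : ℝ => (I * pb (mob (σ i)) j (x + Y * I)).re) := by
    intro j hj
    have h1 : SmS (Hc 0) (pb (mob (σ i)) j) :=
      SmS_pb hΩ hΩ hj (mob_holo (σ i)) fun z hz => mob_mem (σ i) hz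
    exact Complex.continuous_re.comp (continuous_const.mul
      (h1.continuousOn.comp_continuous (f := fun x : ℝ => ((x : ℂ) + Y * I)) (by fun_prop) hmem))
  have e1 : flux (pb (mob (σ i)) (jF N T ε)) (k * h i) Y =
      k * flux (pb (mob (σ i)) (jF N T ε)) (h i) Y := by
    have h1 := hper.intervalIntegral_add_zsmul_eq (k : ℤ) 0
      (fun t₁ t₂ => (hcont _ (jF_sm hP hε)).intervalIntegrable t₁ t₂)
    simp only [zero_add, natCast_zsmul, nsmul_eq_mul] at h1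
    exact h1
  have e2 : flux (pb (mob (σ i)) (jF N T ε)) (k * h i) Y =
      ∑ n, flux (pb (mob (σ i)) (jj (N n) (T n) ε)) (k * h i) Y := by
    simp only [flux]
    rw [← intervalIntegral.integral_finset_sum]
    · refine intervalIntegral.integral_congr fun x _ => ?_
      simp only [jF_pb]
      rw [Finset.mul_sum, Complex.re_sum]
    · intro n _
      exact (hcont _ (SmS_jj hΩ (hP n).smN (hP n).smT (hP n).im (hP n).nn hε)).intervalIntegrable _ _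
  have e3 : ∑ n, flux (pb (mob (σ i)) (jj (N n) (T n) ε)) (k * h i) Y ≤
      ∑ n, k * h i * κ n / Y := by
    refine Finset.sum_le_sum fun n _ => ?_
    obtain ⟨C, Y₀, hCY⟩ := hgr n
    exact cusp_flux (pot_stab (Δ := Δ) hP n) (by positivity) hπ' hπ'm hCY hε hY
  have e4 : ∑ n, k * h i * κ n / Y = k * (h i * (∑ n, κ n) / Y) := by
    rw [Finset.mul_sum, Finset.sum_div, Finset.mul_sum]
    exact Finset.sum_congr rfl fun n _ => by ring
  rw [← e2, e1, e4] at e3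
  exact le_of_mul_le_mul_left e3 hk0

theorem fam_tol (hc : IsCurve Δ σ h X) (hP : ∀ n, Pot ⊥ (κ n) (N n) (T n))
    (hinv : PermInv Δ N T)
    (hgr : ∀ n i, ∃ (C : ℕ) (Y₀ : ℝ), ∀ ζ : ℂ, 0 < ζ.im → Y₀ ≤ ζ.im →
      (N n (mob (σ i) ζ)).re ≤ ζ.im ^ C)
    (hiso : ∀ n, ∀ z₀ : ℂ, 0 < z₀.im → ∀ᶠ z in 𝓝[≠] z₀, N n z ≠ 0)
    (Z : Finset ℍ) (hZ0 : ∀ z ∈ Z, ∃ n, N n (z : ℂ) = 0)
    (hZ : ∀ z ∈ Z, ∀ z' ∈ Z, ∀ δ ∈ Δ, δ • z = z' → z = z') {tol : ℝ} (htol : 0 < tol) :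
    (Z.card : ℝ) * (Real.pi - tol) ≤ (∑ n, κ n) * (volume X).toReal := by
  rcases Z.eq_empty_or_nonempty with rfl | hne
  · simp only [Finset.card_empty, Nat.cast_zero, zero_mul]
    exact mul_nonneg (Finset.sum_nonneg fun n _ => (hP n).kappa) ENNReal.toReal_nonneg
  obtain ⟨z₁, hz₁⟩ := hne
  haveI : Nonempty J := ⟨(hZ0 z₁ hz₁).choose⟩
  choose! n hn using hZ0
  set κ' : ℝ := ∑ n, κ n with hκ'
  have hκ0 : 0 ≤ κ' := Finset.sum_nonneg fun n _ => (hP n).kappa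
  obtain ⟨r₀, hr₀, hrad⟩ := hc.exists_radius Z hZ
  have hm : ∀ z ∈ Z, ∃ r, 0 < r ∧ r < r₀ ∧ r < (z : ℂ).im ∧ ∃ ε₀, 0 < ε₀ ∧ ∀ ε, 0 < ε → ε < ε₀ →
      Real.pi - tol ≤ ∫ w in Metric.ball (z : ℂ) r, rho (jj (N (n z)) (T (n z)) ε) w :=
    fun z hz => zero_mass (hP (n z)) z.im_pos (hn z hz) (hiso _ _ z.im_pos) htol hr₀
  choose! r hr0 hrr hrim ε₀ hε₀ hmass using hm
  have hev : ∀ᶠ ε : ℝ in 𝓝[>] 0, ∀ z ∈ Z, ε < ε₀ z :=
    (Filter.eventually_all_finset Z).2 fun z hz =>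
      nhdsWithin_le_nhds (Iio_mem_nhds (hε₀ z hz))
  obtain ⟨ε, hεlt, hεpos⟩ := (hev.and self_mem_nhdsWithin).exists
  have hε : 0 < ε := hεpos
  set S : Set ℂ := ⋃ z ∈ Z, Metric.ball (z : ℂ) (r z) with hSdef
  have hcb : ∀ z ∈ Z, Metric.closedBall (z : ℂ) (r z) ⊆ Hc 0 := fun z hz =>
    cnt_closedBall (hrim z hz)
  have hjs : SmS (Hc 0) (jF N T ε) := jF_sm hP hε
  have hρc : ContinuousOn (rho (jF N T ε)) (Hc 0) :=
    continuousOn_const.mul (continuous_re.comp_continuousOn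
      (SmS.dzb (isOpen_Hc 0) hjs).continuousOn)
  have hρc' : ∀ n, ContinuousOn (rho (jj (N n) (T n) ε)) (Hc 0) := fun n =>
    continuousOn_const.mul (continuous_re.comp_continuousOn
      (SmS.dzb (isOpen_Hc 0)
        (SmS_jj (isOpen_Hc 0) (hP n).smN (hP n).smT (hP n).im (hP n).nn hε)).continuousOn)
  have hkc : ContinuousOn (fun z : ℂ => κ' / z.im ^ 2) (Hc 0) :=
    continuousOn_const.div (continuous_im.continuousOn.pow 2)
      fun z hz => (pow_pos (show 0 < z.im from hz) 2).ne'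
  have hge : ∀ n, ∀ z ∈ Hc 0, rho (jj (N n) (T n) ε) z ≤ rho (jF N T ε) z + κ' / z.im ^ 2 := by
    intro n z hz
    have hz' : 0 < z.im := hz
    rw [rho_jF hP hε hz, hκ', Finset.sum_div, ← Finset.sum_add_distrib]
    have h1 : ∀ n, 0 ≤ rho (jj (N n) (T n) ε) z + κ n / z.im ^ 2 := by
      intro n
      have := (hP n).ineq ε hε z hz
      linarith
    refine le_trans ?_ (Finset.single_le_sum (fun n _ => h1 n) (Finset.mem_univ n))
    have : 0 ≤ κ n / z.im ^ 2 := div_nonneg (hP n).kappa (sq_nonneg _)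
    linarith
  have hge' : ∀ z ∈ Hc 0, -(κ' / z.im ^ 2) ≤ rho (jF N T ε) z := by
    intro z hz
    rw [rho_jF hP hε hz, hκ', Finset.sum_div, ← Finset.sum_neg_distrib]
    exact Finset.sum_le_sum fun n _ => (hP n).ineq ε hε z hz
  have key : ∀ z ∈ Z, ∀ z' ∈ Z, ∀ δ ∈ Δ, ∀ w : ℂ, w ∈ Metric.ball (z : ℂ) (r z) →
      mob δ w ∈ Metric.ball (z' : ℂ) (r z') → z = z' ∧ δ = 1 := by
    intro z hz z' hz' δ hδ w hw hw'
    have hwH : 0 < w.im := hcb z hz (Metric.ball_subset_closedBall hw)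
    refine hrad z hz z' hz' δ hδ ⟨w, hwH⟩ (δ • ⟨w, hwH⟩) ?_ ?_ rfl
    · have h1 : ‖w - z‖ < r z := by
        rw [← dist_eq_norm]
        exact hw
      exact h1.trans (hrr z hz)
    · rw [← mob_coe]
      have h1 : ‖mob δ w - z'‖ < r z' := by
        rw [← dist_eq_norm]
        exact hw'
      exact h1.trans (hrr z' hz')
  have h1 := global_ineq hc (j := jF N T ε) hjs (fun δ hδ z hz => jF_inv hP hinv hδ hz) hκ0
    hge' (fun i Y hY => flux_le hc hP hinv i (fun n => hgr n i) hε (by linarith)) (S := S)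
    (Finset.measurableSet_biUnion _ fun z _ => Metric.isOpen_ball.measurableSet)
    ⟨⋃ z ∈ Z, Metric.closedBall (z : ℂ) (r z),
      Z.isCompact_biUnion fun z _ => isCompact_closedBall _ _,
      Set.iUnion₂_subset hcb, Set.iUnion₂_mono fun z _ => Metric.ball_subset_closedBall⟩
    (fun δ hδ w hw hw' => by
      simp only [hSdef, Set.mem_iUnion] at hw hw'
      obtain ⟨z, hz, hw⟩ := hw
      obtain ⟨z', hz', hw'⟩ := hw'
      exact (key z hz z' hz' δ hδ w hw hw').2)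
  refine le_trans ?_ h1
  rw [hSdef, integral_biUnion_finset Z (fun z _ => Metric.isOpen_ball.measurableSet) ?_ ?_]
  · rw [← nsmul_eq_mul]
    refine Finset.card_nsmul_le_sum Z _ _ fun z hz => ?_
    refine (hmass z hz ε hε (hεlt z hz)).trans ?_
    refine setIntegral_mono_on ?_ ?_ Metric.isOpen_ball.measurableSet fun w hw => ?_
    · exact (((hρc' (n z)).mono (hcb z hz)).integrableOn_compact
        (isCompact_closedBall _ _)).mono_set Metric.ball_subset_closedBall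
    · exact (((hρc.add hkc).mono (hcb z hz)).integrableOn_compact
        (isCompact_closedBall _ _)).mono_set Metric.ball_subset_closedBall
    · exact hge (n z) w (hcb z hz (Metric.ball_subset_closedBall hw))
  · intro z hz z' hz' hne
    rw [Function.onFun, Set.disjoint_left]
    intro w hw hw'
    exact hne (key z hz z' hz' 1 Δ.one_mem w hw (by rw [mob_one]; exact hw')).1
  · intro z hz
    exact (((hρc.add hkc).mono (hcb z hz)).integrableOn_compact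
      (isCompact_closedBall _ _)).mono_set Metric.ball_subset_closedBall

/-- the number of inequivalent zeros of a permuted finite family -/
theorem zeros_le_fam (hc : IsCurve Δ σ h X) (hP : ∀ n, Pot ⊥ (κ n) (N n) (T n))
    (hinv : PermInv Δ N T)
    (hgr : ∀ n i, ∃ (C : ℕ) (Y₀ : ℝ), ∀ ζ : ℂ, 0 < ζ.im → Y₀ ≤ ζ.im →
      (N n (mob (σ i) ζ)).re ≤ ζ.im ^ C)
    (hiso : ∀ n, ∀ z₀ : ℂ, 0 < z₀.im → ∀ᶠ z in 𝓝[≠] z₀, N n z ≠ 0)
    (Z : Finset ℍ) (hZ0 : ∀ z ∈ Z, ∃ n, N n (z : ℂ) = 0)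
    (hZ : ∀ z ∈ Z, ∀ z' ∈ Z, ∀ δ ∈ Δ, δ • z = z' → z = z') :
    (Z.card : ℝ) * Real.pi ≤ (∑ n, κ n) * (volume X).toReal := by
  refine le_of_forall_pos_le_add fun η hη => ?_
  have hpos : 0 < (Z.card : ℝ) + 1 := by positivity
  have h1 := fam_tol hc hP hinv hgr hiso Z hZ0 hZ (tol := η / (Z.card + 1)) (by positivity)
  have h2 : (Z.card : ℝ) * (η / (Z.card + 1)) ≤ η := by
    rw [mul_div_assoc', div_le_iff₀ hpos]
    nlinarith
  linarith

end ZW67
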