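import Pool.Agent.LibZQ38.BPb
import Pool.Agent.LibZQ38.B13
import Pool.Agent.LibZQ38.B07

/-! The polarization of the endomorphisms of the graded pieces (MP_eeb1a4_ag). -/

open Matrix Complex
open MW38 (Fl Tri blk dg HDA)
open ZQ38 hiding cx
open scoped ComplexOrder

namespace ZW67

variable {ι : Type} [Fintype ι] [DecidableEq ι] {wt p : ι → ℤ} {K : ℕ} {w : ℤ}
  {Φ : Matrix ι ι ℂ} {P : ℤ → Matrix ι ι ℂ} {Q : Matrix ι ι ℝ}

/-- the form on the endomorphisms of the graded pieces -/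
noncomputable def QE {R : Type*} [Field R] (wt : ι → ℤ) (Q A B : Matrix ι ι R) : R :=
  Matrix.trace (Aᵀ * dgR wt Q * B * (dgR wt Q)⁻¹)

/-- polarized graded pieces -/
structure PolG (wt p : ι → ℤ) (K : ℕ) (Q : Matrix ι ι ℝ) (Φ : Matrix ι ι ℂ)
    (P : ℤ → Matrix ι ι ℂ) : Prop where
  gr : GrP wt p K Φ P
  hd : ∀ k, HDA k K (blk wt k k Q) (fun a => blk wt k k (P a))

theorem polG {Q : Matrix ι ι ℝ} (h : MW38.MHS wt p Q Φ) {s : Equiv.Perm ι}
    (hs : ∀ j, wt (s j) = wt j ∧ p (s j) = wt j - p j) (hK : ∀ j, |p j| ≤ K) :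
    PolG wt p K Q Φ (PPg wt p s Φ) :=
  ⟨exists_GrP h hs hK, fun k => BPa_hda hs h k hK⟩

/-! ### block diagonal positive definite matrices -/

theorem posDef_of_blk {M : Matrix ι ι ℂ} (hM : BPaD wt M) (h : ∀ k, (blk wt k k M).PosDef) :
    M.PosDef := by
  apply Matrix.PosDef.of_dotProduct_mulVec_pos
  · ext i j
    rw [Matrix.conjTranspose_apply]
    by_cases hij : wt i = wt j
    · have h1 := congrFun (congrFun (h (wt i)).isHermitian ⟨i, rfl⟩) ⟨j, hij.symm⟩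
      exact h1
    · rw [hM i j hij, hM j i (Ne.symm hij), star_zero]
  · intro x hx
    have key : star x ⬝ᵥ (M *ᵥ x) = ∑ k ∈ Finset.univ.image wt,
        star (fun i : {i // wt i = k} => x i) ⬝ᵥ
          (blk wt k k M *ᵥ fun i : {i // wt i = k} => x i) := by
      have h1 : star x ⬝ᵥ (M *ᵥ x) = ∑ k ∈ Finset.univ.image wt,
          ∑ i ∈ Finset.univ.filter (fun i => wt i = k), star (x i) * (M *ᵥ x) i := by
        rw [Finset.sum_fiberwise_of_maps_to fun i _ => Finset.mem_image_of_mem wt (Finset.mem_univ i)]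
        rfl
      rw [h1]
      refine Finset.sum_congr rfl fun k _ => ?_
      have h2 : ∀ i : {i // wt i = k}, (M *ᵥ x) i =
          (blk wt k k M *ᵥ fun i : {i // wt i = k} => x i) i := fun i => BPa_mulVec hM x k i
      simp only [dotProduct, Pi.star_apply]
      rw [Finset.sum_subtype (p := fun i => wt i = k) (F := inferInstance)
        (Finset.univ.filter fun i => wt i = k) (by simp) (fun i => star (x i) * (M *ᵥ x) i)]
      exact Finset.sum_congr rfl fun i _ => by rw [h2 i]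
    have h0 : ∀ k (y : {i // wt i = k} → ℂ), 0 ≤ (star y ⬝ᵥ (blk wt k k M *ᵥ y)).re ∧
        (star y ⬝ᵥ (blk wt k k M *ᵥ y)).im = 0 := by
      intro k y
      have := (h k).posSemidef.dotProduct_mulVec_nonneg y
      rw [Complex.le_def] at this
      exact ⟨this.1, this.2.symm⟩
    rw [key, Complex.lt_def]
    constructor
    · rw [Complex.re_sum, Complex.zero_re]
      obtain ⟨i, hi⟩ := Function.ne_iff.1 hx
      refine Finset.sum_pos' (fun k _ => (h0 k _).1) ⟨wt i, Finset.mem_image_of_mem wt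
        (Finset.mem_univ i), ?_⟩
      have h3 : (fun j : {j // wt j = wt i} => x j) ≠ 0 := by
        intro h4
        exact hi (congrFun h4 ⟨i, rfl⟩)
      have h5 := (h (wt i)).dotProduct_mulVec_pos h3
      rw [Complex.lt_def] at h5
      exact h5.1
    · rw [Complex.im_sum, Complex.zero_im]
      exact (Finset.sum_eq_zero fun k _ => (h0 k _).2).symm

/-! ### the Hodge metric -/

/-- the Weil operator of the graded pieces -/
noncomputable def CC (wt : ι → ℤ) (K : ℕ) (P : ℤ → Matrix ι ι ℂ) : Matrix ι ι ℂ :=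
  (∑ a ∈ Finset.Icc (-(K : ℤ)) K, (I ^ (2 * a)) • P a) * Matrix.diagonal fun i => I ^ (-wt i)

/-- the Hodge metric of the graded pieces -/
noncomputable def MM (wt : ι → ℤ) (K : ℕ) (Q : Matrix ι ι ℝ) (P : ℤ → Matrix ι ι ℂ) :
    Matrix ι ι ℂ := (SP38.cm (dgR wt Q))ᵀ * CC wt K P

theorem diag_sum (hP : GrP wt p K Φ P) (c : ℤ → ℂ) :
    BPaD wt (∑ a ∈ Finset.Icc (-(K : ℤ)) K, c a • P a) := by
  intro i j hij
  rw [Matrix.sum_apply]
  exact Finset.sum_eq_zero fun a _ => by rw [Matrix.smul_apply, hP.diag a i j hij, smul_zero]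

theorem diag_CC (hP : GrP wt p K Φ P) : BPaD wt (CC wt K P) :=
  BPa_mul (diag_sum hP _) (BPa_diag_D _)

theorem diag_Q : BPaD wt (SP38.cm (dgR wt Q))ᵀ := by
  intro i j hij
  rw [Matrix.transpose_apply]
  show ((dgR wt Q j i : ℝ) : ℂ) = 0
  rw [dgR, if_neg (Ne.symm hij), Complex.ofReal_zero]

theorem diag_MM (hP : GrP wt p K Φ P) : BPaD wt (MM wt K Q P) := BPa_mul diag_Q (diag_CC hP)

theorem blk_MM (hP : GrP wt p K Φ P) (k : ℤ) : blk wt k k (MM wt K Q P) =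
    ∑ a ∈ Finset.Icc (-(K : ℤ)) K,
      (I ^ (2 * a - k)) • ((SP38.cm (blk wt k k Q))ᵀ * blk wt k k (P a)) := by
  have h1 : blk wt k k (SP38.cm (dgR wt Q))ᵀ = (SP38.cm (blk wt k k Q))ᵀ := by
    ext i j
    have h2 : wt (j : ι) = wt (i : ι) := by rw [i.2, j.2]
    show ((dgR wt Q (j : ι) (i : ι) : ℝ) : ℂ) = ((Q (j : ι) (i : ι) : ℝ) : ℂ)
    rw [dgR, if_pos h2]
  have h3 : blk wt k k (∑ a ∈ Finset.Icc (-(K : ℤ)) K, (I ^ (2 * a)) • P a) =
      ∑ a ∈ Finset.Icc (-(K : ℤ)) K, (I ^ (2 * a)) • blk wt k k (P a) := by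
    ext i j
    simp only [blk, Matrix.sum_apply, Matrix.smul_apply]
  have h4 : blk wt k k (Matrix.diagonal fun i => I ^ (-wt i)) =
      (I ^ (-k)) • (1 : Matrix {i // wt i = k} {i // wt i = k} ℂ) := by
    ext i j
    by_cases hij : i = j
    · subst hij
      simp [blk, i.2]
    · have h5 : (i : ι) ≠ j := fun e => hij (Subtype.ext e)
      simp [blk, hij, h5]
  rw [MM, CC, MW38.blk_mul_diag (BPa_tri diag_Q) (BPa_tri (BPa_mul (diag_sum hP _)
    (BPa_diag_D _))), MW38.blk_mul_diag (BPa_tri (diag_sum hP _)) (BPa_tri (BPa_diag_D _)), h1, h3,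
    h4, Matrix.mul_smul, Matrix.mul_one, Finset.smul_sum, Matrix.mul_sum]
  refine Finset.sum_congr rfl fun a _ => ?_
  rw [smul_smul, Matrix.mul_smul, ← zpow_add₀ I_ne_zero]
  congr 2
  ring

theorem PolG.posDef (h : PolG wt p K Q Φ P) : (MM wt K Q P).PosDef := by
  refine posDef_of_blk (diag_MM h.gr) fun k => ?_
  rw [blk_MM h.gr]
  exact (h.hd k).posDef

theorem PolG.unit_MM (h : PolG wt p K Q Φ P) : IsUnit (MM wt K Q P).det :=
  (Matrix.isUnit_iff_isUnit_det _).1 h.posDef.isUnit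

theorem PolG.unit_CC (h : PolG wt p K Q Φ P) : IsUnit (CC wt K P).det := by
  have h1 := h.unit_MM
  rw [MM, Matrix.det_mul] at h1
  exact isUnit_of_mul_isUnit_right h1

theorem PolG.unit_Q (h : PolG wt p K Q Φ P) : IsUnit (SP38.cm (dgR wt Q)).det := by
  have h1 := h.unit_MM
  rw [MM, Matrix.det_mul, Matrix.det_transpose] at h1
  exact isUnit_of_mul_isUnit_left h1

theorem PolG.unit_QR (h : PolG wt p K Q Φ P) : IsUnit (dgR wt Q).det := by
  have h1 := h.unit_Q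
  have h3 : (SP38.cm (dgR wt Q)).det = (((dgR wt Q).det : ℝ) : ℂ) :=
    (Complex.ofRealHom.map_det (dgR wt Q)).symm
  rw [h3] at h1
  rw [isUnit_iff_ne_zero] at h1 ⊢
  exact_mod_cast h1

/-! ### commutation -/

theorem P_PG (hP : GrP wt p K Φ P) (a : ℤ) : P a * PG K P = (a : ℂ) • P a := by
  rw [← B06_PG_mul hP a, PG, Finset.mul_sum, Finset.sum_mul]
  refine Finset.sum_congr rfl fun b _ => ?_
  rw [mul_smul_comm, smul_mul_assoc, hP.mul, hP.mul]
  by_cases h : a = b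
  · rw [if_pos h, if_pos h.symm, h]
  · rw [if_neg h, if_neg (Ne.symm h)]

theorem P_A_P (hP : GrP wt p K Φ P) {A : Matrix ι ι ℂ} {a : ℤ}
    (hA : PG K P * A - A * PG K P = (a : ℂ) • A) {b c : ℤ} (hbc : b ≠ a + c) :
    P b * A * P c = 0 := by
  have h1 : P b * (PG K P * A - A * PG K P) * P c = ((b : ℂ) - c) • (P b * A * P c) := by
    rw [mul_sub, sub_mul, ← Matrix.mul_assoc, P_PG hP, smul_mul_assoc, smul_mul_assoc,
      Matrix.mul_assoc (P b) (A * PG K P), Matrix.mul_assoc A, B06_PG_mul hP, mul_smul_comm,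
      mul_smul_comm, sub_smul, ← Matrix.mul_assoc]
  rw [hA, mul_smul_comm, smul_mul_assoc, ← sub_eq_zero, ← sub_smul] at h1
  refine (smul_eq_zero.1 h1).resolve_left fun e => hbc ?_
  have h2 : (b : ℂ) = ((a + c : ℤ) : ℂ) := by
    push_cast
    linear_combination -e
  exact_mod_cast h2

theorem sandwich (hP : GrP wt p K Φ P) (A : Matrix ι ι ℂ) :
    A = ∑ b ∈ Finset.Icc (-(K : ℤ)) K, ∑ c ∈ Finset.Icc (-(K : ℤ)) K, P b * A * P c := by
  have h1 : A = (∑ b ∈ Finset.Icc (-(K : ℤ)) K, P b) * A * ∑ c ∈ Finset.Icc (-(K : ℤ)) K, P c := by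
    rw [hP.sum, one_mul, mul_one]
  conv_lhs => rw [h1]
  rw [Finset.sum_mul, Finset.sum_mul]
  exact Finset.sum_congr rfl fun b _ => Finset.mul_sum _ _ _

theorem G_comm (hP : GrP wt p K Φ P) {A : Matrix ι ι ℂ} {a : ℤ}
    (hA : PG K P * A - A * PG K P = (a : ℂ) • A) :
    (∑ b ∈ Finset.Icc (-(K : ℤ)) K, (I ^ (2 * b)) • P b) * A =
      (I ^ (2 * a)) • (A * ∑ b ∈ Finset.Icc (-(K : ℤ)) K, (I ^ (2 * b)) • P b) := by
  set S := Finset.Icc (-(K : ℤ)) (K : ℤ) with hS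
  have e1 : (∑ b ∈ S, (I ^ (2 * b)) • P b) * A =
      ∑ b ∈ S, ∑ c ∈ S, (I ^ (2 * b)) • (P b * A * P c) := by
    have h1 : (∑ b ∈ S, (I ^ (2 * b)) • P b) * A = (∑ b ∈ S, (I ^ (2 * b)) • P b) * A *
        ∑ c ∈ S, P c := by rw [hP.sum, mul_one]
    rw [h1, Finset.sum_mul, Finset.sum_mul]
    refine Finset.sum_congr rfl fun b _ => ?_
    rw [Finset.mul_sum]
    exact Finset.sum_congr rfl fun c _ => by rw [smul_mul_assoc, smul_mul_assoc]
  have e2 : A * (∑ b ∈ S, (I ^ (2 * b)) • P b) =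
      ∑ b ∈ S, ∑ c ∈ S, (I ^ (2 * c)) • (P b * A * P c) := by
    have h1 : A * (∑ b ∈ S, (I ^ (2 * b)) • P b) = (∑ b ∈ S, P b) * (A *
        ∑ b ∈ S, (I ^ (2 * b)) • P b) := by rw [hP.sum, one_mul]
    rw [h1, Finset.sum_mul]
    refine Finset.sum_congr rfl fun b _ => ?_
    rw [← Matrix.mul_assoc, Finset.mul_sum]
    exact Finset.sum_congr rfl fun c _ => by rw [mul_smul_comm]
  rw [e1, e2, Finset.smul_sum]
  refine Finset.sum_congr rfl fun b _ => ?_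
  rw [Finset.smul_sum]
  refine Finset.sum_congr rfl fun c _ => ?_
  by_cases hbc : b = a + c
  · rw [smul_smul, ← zpow_add₀ I_ne_zero, hbc]
    congr 2
    ring
  · rw [P_A_P hP hA hbc, smul_zero, smul_zero, smul_zero]

theorem diag_comm {A : Matrix ι ι ℂ} (hw : ∀ i j, wt i ≠ wt j + w → A i j = 0) :
    (Matrix.diagonal fun i => I ^ (-wt i)) * A =
      (I ^ (-w)) • (A * Matrix.diagonal fun i => I ^ (-wt i)) := by
  ext i j
  rw [Matrix.diagonal_mul, Matrix.smul_apply, Matrix.mul_diagonal, smul_eq_mul]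
  by_cases hij : wt i = wt j + w
  · rw [hij, neg_add, zpow_add₀ I_ne_zero]
    ring
  · rw [hw i j hij]
    ring

theorem CC_comm (hP : GrP wt p K Φ P) {A : Matrix ι ι ℂ} {a : ℤ}
    (hw : ∀ i j, wt i ≠ wt j + w → A i j = 0)
    (hA : PG K P * A - A * PG K P = (a : ℂ) • A) :
    CC wt K P * A = (I ^ (2 * a - w)) • (A * CC wt K P) := by
  rw [CC, Matrix.mul_assoc, diag_comm hw, mul_smul_comm, ← Matrix.mul_assoc, G_comm hP hA,
    smul_mul_assoc, smul_smul, Matrix.mul_assoc, ← zpow_add₀ I_ne_zero]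
  congr 2
  ring

/-- the form in terms of the metric -/
theorem PolG.QE_eq (h : PolG wt p K Q Φ P) {A B : Matrix ι ι ℂ} {a : ℤ}
    (hw : ∀ i j, wt i ≠ wt j + w → A i j = 0)
    (hA : PG K P * A - A * PG K P = (a : ℂ) • A) :
    I ^ (2 * a - w) * QE wt (SP38.cm Q) A (B.map (starRingEnd ℂ)) =
      Matrix.trace ((MM wt K Q P)⁻¹ * Bᴴ * MM wt K Q P * A) := by
  have hQ : dgR wt (SP38.cm Q) = SP38.cm (dgR wt Q) := by
    ext i j
    show (if wt i = wt j then ((Q i j : ℝ) : ℂ) else 0) = ((if wt i = wt j then Q i j else 0 : ℝ) : ℂ)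
    split_ifs <;> simp
  set G := SP38.cm (dgR wt Q) with hG
  have hGu := h.unit_Q
  have hGt : IsUnit Gᵀ.det := by rwa [Matrix.det_transpose]
  have hCu := h.unit_CC
  have e1 : (MM wt K Q P)⁻¹ = (CC wt K P)⁻¹ * (Gᵀ)⁻¹ := by
    rw [MM, Matrix.mul_inv_rev]
  have e2 : MM wt K Q P * A = (I ^ (2 * a - w)) • (Gᵀ * A * CC wt K P) := by
    rw [MM, Matrix.mul_assoc, CC_comm h.gr hw hA, mul_smul_comm, ← Matrix.mul_assoc]
  have e3 : Matrix.trace ((MM wt K Q P)⁻¹ * Bᴴ * MM wt K Q P * A) =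
      I ^ (2 * a - w) * Matrix.trace ((Gᵀ)⁻¹ * Bᴴ * Gᵀ * A) := by
    rw [Matrix.mul_assoc _ (MM wt K Q P), e2, e1, mul_smul_comm, Matrix.trace_smul, smul_eq_mul]
    refine congrArg (fun t : ℂ => I ^ (2 * a - w) * t) ?_
    have : (CC wt K P)⁻¹ * (Gᵀ)⁻¹ * Bᴴ * (Gᵀ * A * CC wt K P) =
        (CC wt K P)⁻¹ * ((Gᵀ)⁻¹ * Bᴴ * Gᵀ * A) * CC wt K P := by
      simp only [Matrix.mul_assoc]
    rw [this, Matrix.trace_mul_comm, ← Matrix.mul_assoc, Matrix.mul_nonsing_inv _ hCu, one_mul]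
  rw [e3]
  refine congrArg (fun t : ℂ => I ^ (2 * a - w) * t) ?_
  rw [QE, hQ, ← Matrix.trace_transpose, Matrix.transpose_mul, Matrix.transpose_mul,
    Matrix.transpose_mul, Matrix.transpose_transpose, Matrix.transpose_nonsing_inv]
  have : (B.map (starRingEnd ℂ))ᵀ = Bᴴ := rfl
  rw [this, ← Matrix.mul_assoc, ← Matrix.mul_assoc]

theorem exists_sqrt {M : Matrix ι ι ℂ} (hM : M.PosDef) :
    ∃ R : Matrix ι ι ℂ, IsUnit R ∧ M = Rᴴ * R := by
  open scoped MatrixOrder in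
  obtain ⟨R, hR⟩ := CStarAlgebra.nonneg_iff_eq_star_mul_self.mp hM.posSemidef.nonneg
  refine ⟨R, ?_, hR⟩
  have h1 := hM.isUnit
  rw [Matrix.isUnit_iff_isUnit_det] at h1 ⊢
  rw [hR, Matrix.det_mul] at h1
  exact isUnit_of_mul_isUnit_right h1

/-- positivity -/
theorem PolG.QE_pos (h : PolG wt p K Q Φ P) {A : Matrix ι ι ℂ} {a : ℤ}
    (hw : ∀ i j, wt i ≠ wt j + w → A i j = 0)
    (hA : PG K P * A - A * PG K P = (a : ℂ) • A) (hA0 : A ≠ 0) :
    0 < (I ^ (2 * a - w) * QE wt (SP38.cm Q) A (A.map (starRingEnd ℂ))).re ∧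
      (I ^ (2 * a - w) * QE wt (SP38.cm Q) A (A.map (starRingEnd ℂ))).im = 0 := by
  rw [h.QE_eq hw hA]
  obtain ⟨R, hR, hRR⟩ := exists_sqrt h.posDef
  have hRd := (Matrix.isUnit_iff_isUnit_det _).1 hR
  have hRi : R⁻¹ * R = 1 := Matrix.nonsing_inv_mul _ hRd
  have hRi' : R * R⁻¹ = 1 := Matrix.mul_nonsing_inv _ hRd
  have e1 : Matrix.trace ((MM wt K Q P)⁻¹ * Aᴴ * MM wt K Q P * A) =
      Matrix.trace ((R * A * R⁻¹)ᴴ * (R * A * R⁻¹)) := by
    rw [hRR, Matrix.mul_inv_rev, Matrix.conjTranspose_mul, Matrix.conjTranspose_mul,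
      Matrix.conjTranspose_nonsing_inv]
    have e2 : R⁻¹ * (Rᴴ)⁻¹ * Aᴴ * (Rᴴ * R) * A = R⁻¹ * ((Rᴴ)⁻¹ * Aᴴ * Rᴴ * R * A) := by
      simp only [Matrix.mul_assoc]
    rw [e2, Matrix.trace_mul_comm]
    refine congrArg Matrix.trace ?_
    simp only [Matrix.mul_assoc]
  have hX : R * A * R⁻¹ ≠ 0 := by
    intro h0
    apply hA0
    have e3 : A = R⁻¹ * (R * A * R⁻¹) * R := by
      rw [Matrix.mul_assoc R, ← Matrix.mul_assoc R⁻¹, hRi, one_mul, Matrix.mul_assoc, hRi, mul_one]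
    rw [e3, h0]
    simp
  rw [e1]
  set X := R * A * R⁻¹ with hXdef
  have hnn : 0 ≤ Matrix.trace (Xᴴ * X) :=
    (Matrix.posSemidef_conjTranspose_mul_self X).trace_nonneg
  have hne : Matrix.trace (Xᴴ * X) ≠ 0 := fun h0 =>
    hX (Matrix.trace_conjTranspose_mul_self_eq_zero_iff.1 h0)
  have hlt := lt_of_le_of_ne hnn (Ne.symm hne)
  rw [Complex.lt_def] at hlt
  exact ⟨hlt.1, hlt.2.symm⟩

end ZW67
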