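import Pool.Agent.LibZW67.QE
import Pool.Agent.LibZW67.PVD
import Pool.Agent.LibZQ38.B08b
import Pool.Agent.LibZQ38.B01

/-! Orthogonality, rational nondegeneracy. -/

set_option linter.unusedSectionVars false

open Matrix Complex
open MW38 (Fl Tri blk dg HDA)
open ZQ38
open scoped ComplexOrder

namespace ZW67

variable {ι : Type} [Fintype ι] [DecidableEq ι] {wt p : ι → ℤ} {K : ℕ} {w : ℤ}
  {Φ : Matrix ι ι ℂ} {P : ℤ → Matrix ι ι ℂ} {Q : Matrix ι ι ℝ}

/-- `A` has weight `w` -/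
def WtM {R : Type*} [Zero R] (wt : ι → ℤ) (w : ℤ) (A : Matrix ι ι R) : Prop :=
  ∀ i j, wt i ≠ wt j + w → A i j = 0

theorem cm_dgR (Q : Matrix ι ι ℝ) : dgR wt (SP38.cm Q) = SP38.cm (dgR wt Q) := by
  ext i j
  show (if wt i = wt j then ((Q i j : ℝ) : ℂ) else 0) = ((if wt i = wt j then Q i j else 0 : ℝ) : ℂ)
  split_ifs <;> simp

theorem diag_cmQ : BPaD wt (SP38.cm (dgR wt Q)) := by
  intro i j hij
  show ((dgR wt Q i j : ℝ) : ℂ) = 0
  rw [dgR, if_neg hij, Complex.ofReal_zero]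

theorem diag_Pt (hP : GrP wt p K Φ P) (a : ℤ) : BPaD wt (P a)ᵀ := fun i j hij => by
  rw [Matrix.transpose_apply]
  exact hP.diag a j i (Ne.symm hij)

theorem PolG.PGP (h : PolG wt p K Q Φ P) (a b : ℤ) (i j : ι) (hab : a + b ≠ wt i) :
    ((P a)ᵀ * SP38.cm (dgR wt Q) * P b) i j = 0 := by
  have hd1 := diag_Pt h.gr a
  have hd2 : BPaD wt (P b) := fun i j hij => h.gr.diag b i j hij
  have hd3 : BPaD wt (SP38.cm (dgR wt Q)) := diag_cmQ
  by_cases hij : wt i = wt j
  · have h1 : blk wt (wt i) (wt i) ((P a)ᵀ * SP38.cm (dgR wt Q) * P b) = 0 := by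
      rw [MW38.blk_mul_diag (BPa_tri (BPa_mul hd1 hd3)) (BPa_tri hd2),
        MW38.blk_mul_diag (BPa_tri hd1) (BPa_tri hd3)]
      have e1 : blk wt (wt i) (wt i) (P a)ᵀ = (blk wt (wt i) (wt i) (P a))ᵀ := rfl
      have e2 : blk wt (wt i) (wt i) (SP38.cm (dgR wt Q)) =
          SP38.cm (blk wt (wt i) (wt i) Q) := by
        ext x y
        have h2 : wt (x : ι) = wt (y : ι) := by rw [x.2, y.2]
        show ((dgR wt Q (x : ι) (y : ι) : ℝ) : ℂ) = ((Q (x : ι) (y : ι) : ℝ) : ℂ)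
        rw [dgR, if_pos h2]
      rw [e1, e2]
      exact (h.hd (wt i)).orth a b hab
    exact congrFun (congrFun h1 ⟨i, rfl⟩) ⟨j, hij.symm⟩
  · exact BPa_mul (BPa_mul hd1 hd3) hd2 i j hij

/-- the grading operator and the polarization -/
theorem PolG.PG_skew (h : PolG wt p K Q Φ P) :
    (PG K P)ᵀ * SP38.cm (dgR wt Q) + SP38.cm (dgR wt Q) * PG K P =
      Dwt wt * SP38.cm (dgR wt Q) := by
  set G := SP38.cm (dgR wt Q) with hG
  set S := Finset.Icc (-(K : ℤ)) (K : ℤ) with hS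
  have hsum : ∑ a ∈ S, P a = 1 := h.gr.sum
  have hsumt : ∑ a ∈ S, (P a)ᵀ = 1 := by
    rw [← Matrix.transpose_sum, hsum, Matrix.transpose_one]
  have hPt : (PG K P)ᵀ = ∑ a ∈ S, (a : ℂ) • (P a)ᵀ := by
    rw [PG, Matrix.transpose_sum]
    exact Finset.sum_congr rfl fun a _ => Matrix.transpose_smul _ _
  have e1 : (PG K P)ᵀ * G = ∑ a ∈ S, ∑ b ∈ S, (a : ℂ) • ((P a)ᵀ * G * P b) := by
    have : (PG K P)ᵀ * G = (PG K P)ᵀ * G * ∑ b ∈ S, P b := by rw [hsum, mul_one]
    rw [this, hPt, Finset.sum_mul, Finset.sum_mul]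
    refine Finset.sum_congr rfl fun a _ => ?_
    rw [Finset.mul_sum]
    exact Finset.sum_congr rfl fun b _ => by rw [smul_mul_assoc, smul_mul_assoc]
  have e2 : G * PG K P = ∑ a ∈ S, ∑ b ∈ S, (b : ℂ) • ((P a)ᵀ * G * P b) := by
    have : G * PG K P = (∑ a ∈ S, (P a)ᵀ) * (G * PG K P) := by rw [hsumt, one_mul]
    rw [this, Finset.sum_mul]
    refine Finset.sum_congr rfl fun a _ => ?_
    rw [PG, ← Matrix.mul_assoc, Finset.mul_sum]
    exact Finset.sum_congr rfl fun b _ => by rw [mul_smul_comm]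
  have e3 : Dwt wt * G = ∑ a ∈ S, ∑ b ∈ S, Dwt wt * ((P a)ᵀ * G * P b) := by
    have : Dwt wt * G = Dwt wt * ((∑ a ∈ S, (P a)ᵀ) * G * ∑ b ∈ S, P b) := by
      rw [hsumt, hsum, one_mul, mul_one]
    rw [this, Finset.sum_mul, Finset.sum_mul, Finset.mul_sum]
    refine Finset.sum_congr rfl fun a _ => ?_
    rw [Finset.mul_sum, Finset.mul_sum]
  rw [e1, e2, e3, ← Finset.sum_add_distrib]
  refine Finset.sum_congr rfl fun a _ => ?_
  rw [← Finset.sum_add_distrib]
  refine Finset.sum_congr rfl fun b _ => ?_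
  ext i j
  rw [Matrix.add_apply, Matrix.smul_apply, Matrix.smul_apply, Dwt, Matrix.diagonal_mul,
    smul_eq_mul, smul_eq_mul, ← add_mul]
  by_cases hab : a + b = wt i
  · rw [← hab]
    push_cast
    ring
  · rw [h.PGP a b i j hab, mul_zero, mul_zero]

theorem diag_Dwt_comm {A : Matrix ι ι ℂ} (hA : BPaD wt A) : Dwt wt * A = A * Dwt wt := by
  ext i j
  rw [Dwt, Matrix.diagonal_mul, Matrix.mul_diagonal]
  by_cases hij : wt i = wt j
  · rw [hij, mul_comm]
  · rw [hA i j hij, mul_zero, zero_mul]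

theorem Dwt_wt {A : Matrix ι ι ℂ} (hA : WtM wt w A) : Dwt wt * A - A * Dwt wt = (w : ℂ) • A := by
  ext i j
  rw [Matrix.sub_apply, Dwt, Matrix.diagonal_mul, Matrix.mul_diagonal, Matrix.smul_apply,
    smul_eq_mul]
  by_cases hij : wt i = wt j + w
  · rw [hij]
    push_cast
    ring
  · rw [hA i j hij]
    ring

/-- invariance of the form -/
theorem PolG.QE_skew (h : PolG wt p K Q Φ P) {A B : Matrix ι ι ℂ} (hB : WtM wt w B) :
    QE wt (SP38.cm Q) (PG K P * A - A * PG K P) B +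
      QE wt (SP38.cm Q) A (PG K P * B - B * PG K P) = (w : ℂ) * QE wt (SP38.cm Q) A B := by
  unfold QE
  rw [cm_dgR]
  have hskew := h.PG_skew
  have hGu := h.unit_Q
  have hd : BPaD wt (SP38.cm (dgR wt Q)) := diag_cmQ
  set G := SP38.cm (dgR wt Q) with hG
  set X := PG K P with hX
  have hGi : G * G⁻¹ = 1 := Matrix.mul_nonsing_inv _ hGu
  have hGi' : G⁻¹ * G = 1 := Matrix.nonsing_inv_mul _ hGu
  have hDG : Dwt wt * G = G * Dwt wt := diag_Dwt_comm hd
  have e1 : Xᵀ * G = G * Dwt wt - G * X := by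
    rw [← hDG, ← hskew]
    abel
  have e2 : G⁻¹ * Xᵀ = Dwt wt * G⁻¹ - X * G⁻¹ := by
    calc G⁻¹ * Xᵀ = G⁻¹ * (Xᵀ * G) * G⁻¹ := by
          rw [Matrix.mul_assoc, Matrix.mul_assoc, hGi, mul_one]
      _ = G⁻¹ * (G * Dwt wt - G * X) * G⁻¹ := by rw [e1]
      _ = Dwt wt * G⁻¹ - X * G⁻¹ := by
          rw [mul_sub, ← Matrix.mul_assoc, ← Matrix.mul_assoc, hGi', one_mul, one_mul, sub_mul]
  have t1 : Matrix.trace ((X * A - A * X)ᵀ * G * B * G⁻¹) =
      Matrix.trace (Aᵀ * G * Dwt wt * B * G⁻¹) - Matrix.trace (Aᵀ * G * X * B * G⁻¹) -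
      (Matrix.trace (Aᵀ * G * B * Dwt wt * G⁻¹) - Matrix.trace (Aᵀ * G * B * X * G⁻¹)) := by
    rw [Matrix.transpose_sub, Matrix.transpose_mul, Matrix.transpose_mul]
    have a1 : (Aᵀ * Xᵀ - Xᵀ * Aᵀ) * G * B * G⁻¹ =
        Aᵀ * (Xᵀ * G) * B * G⁻¹ - Xᵀ * (Aᵀ * G * B * G⁻¹) := by
      noncomm_ring
    have a2 : Matrix.trace (Xᵀ * (Aᵀ * G * B * G⁻¹)) =
        Matrix.trace (Aᵀ * G * B * (G⁻¹ * Xᵀ)) := by
      rw [Matrix.trace_mul_comm, Matrix.mul_assoc (Aᵀ * G * B)]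
    rw [a1, Matrix.trace_sub, a2, e1, e2, ← Matrix.trace_sub, ← Matrix.trace_sub,
      ← Matrix.trace_sub, ← Matrix.trace_sub]
    refine congrArg Matrix.trace ?_
    noncomm_ring
  have t2 : Matrix.trace (Aᵀ * G * (X * B - B * X) * G⁻¹) =
      Matrix.trace (Aᵀ * G * X * B * G⁻¹) - Matrix.trace (Aᵀ * G * B * X * G⁻¹) := by
    rw [← Matrix.trace_sub]
    refine congrArg Matrix.trace ?_
    noncomm_ring
  have t3 : Matrix.trace (Aᵀ * G * Dwt wt * B * G⁻¹) - Matrix.trace (Aᵀ * G * B * Dwt wt * G⁻¹) =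
      (w : ℂ) * Matrix.trace (Aᵀ * G * B * G⁻¹) := by
    have a3 : Aᵀ * G * Dwt wt * B * G⁻¹ - Aᵀ * G * B * Dwt wt * G⁻¹ =
        Aᵀ * G * (Dwt wt * B - B * Dwt wt) * G⁻¹ := by
      noncomm_ring
    rw [← Matrix.trace_sub, a3, Dwt_wt hB, mul_smul_comm, smul_mul_assoc, Matrix.trace_smul,
      smul_eq_mul]
  rw [t1, t2, ← t3]
  ring

/-! ### bilinearity -/

theorem QE_add_left {R : Type*} [Field R] (Q A A' B : Matrix ι ι R) :
    QE wt Q (A + A') B = QE wt Q A B + QE wt Q A' B := by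
  unfold QE
  rw [Matrix.transpose_add, add_mul, add_mul, add_mul, Matrix.trace_add]

theorem QE_add_right {R : Type*} [Field R] (Q A B B' : Matrix ι ι R) :
    QE wt Q A (B + B') = QE wt Q A B + QE wt Q A B' := by
  unfold QE
  rw [mul_add, add_mul, Matrix.trace_add]

theorem QE_smul_left {R : Type*} [Field R] (c : R) (Q A B : Matrix ι ι R) :
    QE wt Q (c • A) B = c * QE wt Q A B := by
  unfold QE
  rw [Matrix.transpose_smul, smul_mul_assoc, smul_mul_assoc, smul_mul_assoc, Matrix.trace_smul,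
    smul_eq_mul]

theorem QE_smul_right {R : Type*} [Field R] (c : R) (Q A B : Matrix ι ι R) :
    QE wt Q A (c • B) = c * QE wt Q A B := by
  unfold QE
  rw [mul_smul_comm, smul_mul_assoc, Matrix.trace_smul, smul_eq_mul]

theorem QE_zero_left {R : Type*} [Field R] (Q B : Matrix ι ι R) : QE wt Q 0 B = 0 := by
  unfold QE
  rw [Matrix.transpose_zero, zero_mul, zero_mul, zero_mul, Matrix.trace_zero]

theorem QE_zero_right {R : Type*} [Field R] (Q A : Matrix ι ι R) : QE wt Q A 0 = 0 := by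
  unfold QE
  rw [mul_zero, zero_mul, Matrix.trace_zero]

theorem QE_sum_left {R : Type*} [Field R] {J : Type*} (s : Finset J) (Q : Matrix ι ι R)
    (A : J → Matrix ι ι R) (B : Matrix ι ι R) :
    QE wt Q (∑ k ∈ s, A k) B = ∑ k ∈ s, QE wt Q (A k) B := by
  classical
  induction s using Finset.induction_on with
  | empty => rw [Finset.sum_empty, Finset.sum_empty, QE_zero_left]
  | insert a s ha ih => rw [Finset.sum_insert ha, Finset.sum_insert ha, QE_add_left, ih]

theorem QE_sum_right {R : Type*} [Field R] {J : Type*} (s : Finset J) (Q A : Matrix ι ι R)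
    (B : J → Matrix ι ι R) :
    QE wt Q A (∑ k ∈ s, B k) = ∑ k ∈ s, QE wt Q A (B k) := by
  classical
  induction s using Finset.induction_on with
  | empty => rw [Finset.sum_empty, Finset.sum_empty, QE_zero_right]
  | insert a s ha ih => rw [Finset.sum_insert ha, Finset.sum_insert ha, QE_add_right, ih]

theorem inv_map {R S : Type*} [Field R] [Field S] (f : R →+* S) (A : Matrix ι ι R) :
    (A⁻¹).map f = (A.map f)⁻¹ := by
  have h1 : (A.map f).det = f A.det := (f.map_det A).symm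
  have h2 : (A.map f).adjugate = A.adjugate.map f := (f.map_adjugate A).symm
  rw [Matrix.inv_def, Matrix.inv_def, Ring.inverse_eq_inv', Ring.inverse_eq_inv', h1, h2]
  ext i j
  rw [Matrix.map_apply, Matrix.smul_apply, Matrix.smul_apply, Matrix.map_apply, smul_eq_mul,
    smul_eq_mul, map_mul, map_inv₀]

theorem dgR_map' {R S : Type*} [Field R] [Field S] (f : R →+* S) (A : Matrix ι ι R) :
    dgR wt (A.map f) = (dgR wt A).map f := by
  ext i j
  rw [Matrix.map_apply, dgR, dgR]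
  split_ifs
  · rw [Matrix.map_apply]
  · rw [map_zero]

theorem QE_map {R S : Type*} [Field R] [Field S] (f : R →+* S) (Q A B : Matrix ι ι R) :
    QE wt (Q.map f) (A.map f) (B.map f) = f (QE wt Q A B) := by
  unfold QE
  rw [dgR_map', ← inv_map, ← Matrix.transpose_map, ← Matrix.map_mul, ← Matrix.map_mul,
    ← Matrix.map_mul]
  exact (AddMonoidHom.map_trace f.toAddMonoidHom _).symm

/-! ### orthogonality -/

theorem PolG.QE_orth (h : PolG wt p K Q Φ P) {A B : Matrix ι ι ℂ} {a b : ℤ} (hB : WtM wt w B)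
    (hA' : PG K P * A - A * PG K P = (a : ℂ) • A) (hB' : PG K P * B - B * PG K P = (b : ℂ) • B)
    (hab : a + b ≠ w) : QE wt (SP38.cm Q) A B = 0 := by
  have h1 := h.QE_skew (A := A) hB
  rw [hA', hB', QE_smul_left, QE_smul_right, ← sub_eq_zero] at h1
  have h2 : ((a : ℂ) + b - w) * QE wt (SP38.cm Q) A B = 0 := by
    rw [← h1]
    ring
  refine (mul_eq_zero.1 h2).resolve_left fun e => hab ?_
  have h3 : ((a + b : ℤ) : ℂ) = (w : ℂ) := by
    push_cast
    linear_combination e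
  exact_mod_cast h3

theorem bar_wt {A : Matrix ι ι ℂ} (hA : WtM wt w A) : WtM wt w (bar A) := fun i j hij => by
  rw [bar, Matrix.map_apply, hA i j hij, map_zero]

theorem bar_typ (hP : GrP wt p K Φ P) {A : Matrix ι ι ℂ} {a : ℤ} (hA : WtM wt w A)
    (h : PG K P * A - A * PG K P = (a : ℂ) • A) :
    PG K P * bar A - bar A * PG K P = ((w - a : ℤ) : ℂ) • bar A := by
  have h1 : bar (PG K P) * bar A - bar A * bar (PG K P) = (a : ℂ) • bar A := by
    have h2 := congrArg bar h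
    have e1 : bar (PG K P * A - A * PG K P) = bar (PG K P) * bar A - bar A * bar (PG K P) := by
      rw [← B08b_bar_mul, ← B08b_bar_mul]
      ext i j
      simp only [bar, Matrix.map_apply, Matrix.sub_apply, map_sub]
    have e2 : bar ((a : ℂ) • A) = (a : ℂ) • bar A := by
      ext i j
      simp [bar]
    rw [← e1, h2, e2]
  rw [B08b_bar_PG hP] at h1
  have h3 := Dwt_wt (bar_wt hA)
  have h4 : PG K P * bar A - bar A * PG K P = (Dwt wt * bar A - bar A * Dwt wt) -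
      ((Dwt wt - PG K P) * bar A - bar A * (Dwt wt - PG K P)) := by
    noncomm_ring
  rw [h4, h3, h1]
  push_cast
  rw [sub_smul]

theorem PolG.QE_orth' (h : PolG wt p K Q Φ P) {A B : Matrix ι ι ℂ} {a b : ℤ} (hB : WtM wt w B)
    (hA' : PG K P * A - A * PG K P = (a : ℂ) • A) (hB' : PG K P * B - B * PG K P = (b : ℂ) • B)
    (hab : a ≠ b) : QE wt (SP38.cm Q) A (bar B) = 0 :=
  h.QE_orth (bar_wt hB) hA' (bar_typ h.gr hB hB') (by omega)

/-! ### decomposition into types -/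

theorem npoly_rts (K : ℕ) : npoly (2 * K) = rts (-(2 * K)) (2 * K) := by
  unfold npoly rts
  push_cast
  rfl

theorem npoly_adm (hP : GrP wt p K Φ P) (M : Matrix ι ι ℂ) :
    Polynomial.aeval (adm (PG K P)) (npoly (2 * K)) M = 0 := by
  have hun : Un wt (1 : Matrix ι ι ℂ) := by
    intro i j _
    rw [Matrix.one_apply]
  have h1 := poly_all hP hun M
  have h2 : oP K P 1 = PG K P := by
    rw [oP, one_mul, inv_one, mul_one]
  rw [h2] at h1
  rw [npoly_rts]
  exact h1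

/-- the component of type `a` -/
noncomputable def cmp (K : ℕ) (P : ℤ → Matrix ι ι ℂ) (a : ℤ) (M : Matrix ι ι ℂ) :
    Matrix ι ι ℂ := Polynomial.aeval (adm (PG K P)) (lpoly (2 * K) a) M

theorem cmp_sum (M : Matrix ι ι ℂ) :
    ∑ a ∈ Finset.Icc (-((2 * K : ℕ) : ℤ)) ((2 * K : ℕ) : ℤ), cmp K P a M = M := by
  have h1 := congrArg (fun f => Polynomial.aeval (adm (PG K P)) f M) (lpoly_sum (2 * K))
  simp only [map_sum, map_one, Module.End.one_apply] at h1
  rw [LinearMap.sum_apply] at h1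
  exact h1

theorem cmp_typ (hP : GrP wt p K Φ P) (a : ℤ) (M : Matrix ι ι ℂ) :
    PG K P * cmp K P a M - cmp K P a M * PG K P = (a : ℂ) • cmp K P a M := by
  obtain ⟨c, hc⟩ := X_sub_mul_lpoly (2 * K) a
  have h1 := congrArg (fun f => Polynomial.aeval (adm (PG K P)) f M) hc
  simp only [map_mul, map_sub, Polynomial.aeval_X, Polynomial.aeval_C, Module.End.mul_apply,
    npoly_adm hP, map_zero] at h1
  rw [← adm_apply]
  have h2 : (adm (PG K P) - algebraMap ℂ (Module.End ℂ (Matrix ι ι ℂ)) (a : ℂ)) (cmp K P a M) =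
      adm (PG K P) (cmp K P a M) - (a : ℂ) • cmp K P a M := by
    rw [LinearMap.sub_apply, Module.algebraMap_end_apply]
  rw [← sub_eq_zero, ← h2]
  exact h1

theorem aeval_mem {L : Submodule ℂ (Matrix ι ι ℂ)} {X : Matrix ι ι ℂ}
    (hst : ∀ x ∈ L, X * x - x * X ∈ L) (f : Polynomial ℂ) {x : Matrix ι ι ℂ} (hx : x ∈ L) :
    Polynomial.aeval (adm X) f x ∈ L := by
  induction f using Polynomial.induction_on' with
  | add p q hp hq =>
    rw [map_add, LinearMap.add_apply]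
    exact L.add_mem hp hq
  | monomial n a =>
    rw [Polynomial.aeval_monomial, Module.End.mul_apply, Module.algebraMap_end_apply]
    apply L.smul_mem
    induction n with
    | zero => rw [pow_zero, Module.End.one_apply]; exact hx
    | succ n ih =>
      rw [pow_succ', Module.End.mul_apply, adm_apply]
      exact hst _ ih

theorem cx_wt {L : Submodule ℚ (Matrix ι ι ℚ)} (hw : ∀ x ∈ L, WtM wt w x) {X : Matrix ι ι ℂ}
    (hX : X ∈ cx L) : WtM wt w X := by
  intro i j hij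
  exact B01_eq_zero fun f => hw _ ((mem_cx_iff L X).1 hX f) i j hij

/-- the form is nondegenerate on rational subspaces which are stable under the grading operator -/
theorem PolG.QE_nd {Q : Matrix ι ι ℚ} (h : PolG wt p K (Q.map (algebraMap ℚ ℝ)) Φ P)
    {L : Submodule ℚ (Matrix ι ι ℚ)} (hw : ∀ x ∈ L, WtM wt w x)
    (hst : ∀ x ∈ cx L, PG K P * x - x * PG K P ∈ cx L) {x : Matrix ι ι ℚ} (hx : x ∈ L)
    (h0 : ∀ y ∈ L, QE wt Q x y = 0) : x = 0 := by
  set X := x.map (algebraMap ℚ ℂ) with hX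
  have hQc : SP38.cm (Q.map (algebraMap ℚ ℝ)) = Q.map (algebraMap ℚ ℂ) := by
    ext i j
    simp [SP38.cm]
  have hXL : X ∈ cx L := mem_cx_of_mem hx
  have h1 : ∀ Y ∈ cx L, QE wt (SP38.cm (Q.map (algebraMap ℚ ℝ))) X Y = 0 := by
    intro Y hY
    refine Submodule.span_induction
      (p := fun Y _ => QE wt (SP38.cm (Q.map (algebraMap ℚ ℝ))) X Y = 0) ?_ ?_ ?_ ?_ hY
    · rintro _ ⟨y, hy, rfl⟩
      rw [hQc]
      show QE wt (Q.map (algebraMap ℚ ℂ)) (x.map (algebraMap ℚ ℂ)) (y.map (algebraMap ℚ ℂ)) = 0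
      rw [QE_map, h0 y hy, map_zero]
    · exact QE_zero_right _ _
    · intro a b _ _ ha hb
      rw [QE_add_right, ha, hb, add_zero]
    · intro c a _ ha
      rw [QE_smul_right, ha, mul_zero]
  have h2 : ∀ a : ℤ, cmp K P a X = 0 := by
    intro a
    by_contra hne
    have hmem : cmp K P a X ∈ cx L := aeval_mem hst _ hXL
    have hwt := cx_wt hw hmem
    have h3 := h1 _ (bar_mem_cx hmem)
    have h4 : QE wt (SP38.cm (Q.map (algebraMap ℚ ℝ))) X (bar (cmp K P a X)) =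
        QE wt (SP38.cm (Q.map (algebraMap ℚ ℝ))) (cmp K P a X) (bar (cmp K P a X)) := by
      have hz : ∀ b : ℤ, b ≠ a → QE wt (SP38.cm (Q.map (algebraMap ℚ ℝ))) (cmp K P b X)
          (bar (cmp K P a X)) = 0 := fun b hb =>
        h.QE_orth' hwt (cmp_typ h.gr b X) (cmp_typ h.gr a X) hb
      have ha : a ∈ Finset.Icc (-((2 * K : ℕ) : ℤ)) ((2 * K : ℕ) : ℤ) := by
        by_contra ha
        apply hne
        rw [cmp, lpoly, if_neg ha, map_zero, LinearMap.zero_apply]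
      have e1 : QE wt (SP38.cm (Q.map (algebraMap ℚ ℝ))) X (bar (cmp K P a X)) =
          ∑ b ∈ Finset.Icc (-((2 * K : ℕ) : ℤ)) ((2 * K : ℕ) : ℤ),
          QE wt (SP38.cm (Q.map (algebraMap ℚ ℝ))) (cmp K P b X) (bar (cmp K P a X)) := by
        rw [← QE_sum_left, cmp_sum]
      rw [e1]
      generalize QE wt (SP38.cm (Q.map (algebraMap ℚ ℝ))) = F at hz ⊢
      rw [Finset.sum_eq_single_of_mem a ha]
      intro b _ hb
      exact hz b hb
    have h5 := (h.QE_pos hwt (cmp_typ h.gr a X) hne).1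
    have h6 : (cmp K P a X).map (starRingEnd ℂ) = bar (cmp K P a X) := rfl
    rw [h6, ← h4, h3, mul_zero, Complex.zero_re] at h5
    exact lt_irrefl _ h5
  have h3 : X = 0 := by
    rw [← cmp_sum (K := K) (P := P) X]
    exact Finset.sum_eq_zero fun a _ => h2 a
  ext i j
  have h4 := congrFun (congrFun h3 i) j
  rw [hX, Matrix.map_apply, Matrix.zero_apply, map_eq_zero] at h4
  exact h4

end ZW67
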