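import Pool.Agent.LibZW67.QE2
import Pool.Agent.LibZW67.Stmt
import Pool.Agent.LibZQ38.CDef
import Pool.Agent.LibZQ38.W1

/-! The polarized variation and the frame of a quotient of the unipotent part embedded in the
endomorphisms of the graded pieces. -/

set_option linter.unusedSectionVars false

open Matrix Complex
open MW38 (Fl Tri blk dg HDA)
open SP38 (Hc)
open ZQ38
open scoped ComplexOrder

namespace ZW67

variable {ι : Type} [Fintype ι] [DecidableEq ι] {wt p : ι → ℤ} {K : ℕ} {w : ℤ} {r : ℕ}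
  {m : Submodule ℚ (Matrix ι ι ℚ)} {rho : Matrix ι ι ℚ →ₗ[ℚ] Matrix (Fin r) (Fin r) ℚ}
  {j : (Fin r → ℚ) →ₗ[ℚ] Matrix ι ι ℚ}

/-- an equivariant embedding into the endomorphisms of weight `w` of the graded pieces -/
structure JE (wt : ι → ℤ) (m : Submodule ℚ (Matrix ι ι ℚ)) (w : ℤ) (r : ℕ)
    (rho : Matrix ι ι ℚ →ₗ[ℚ] Matrix (Fin r) (Fin r) ℚ)
    (j : (Fin r → ℚ) →ₗ[ℚ] Matrix ι ι ℚ) : Prop where
  supp : ∀ v i k, wt i - wt k ≠ w → j v i k = 0
  inj : Function.Injective j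
  act : ∀ A ∈ m, ∀ v, j (rho A *ᵥ v) = dgR wt A * j v - j v * dgR wt A

/-- complexification of `j` -/
noncomputable def jC (j : (Fin r → ℚ) →ₗ[ℚ] Matrix ι ι ℚ) (v : Fin r → ℂ) : Matrix ι ι ℂ :=
  ∑ a, v a • (j (Pi.single a 1)).map (algebraMap ℚ ℂ)

theorem jC_add (u v : Fin r → ℂ) : jC j (u + v) = jC j u + jC j v := by
  simp only [jC, Pi.add_apply, add_smul, Finset.sum_add_distrib]

theorem jC_smul (c : ℂ) (v : Fin r → ℂ) : jC j (c • v) = c • jC j v := by
  simp only [jC, Pi.smul_apply, smul_eq_mul, mul_smul, Finset.smul_sum]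

theorem jC_zero : jC j (0 : Fin r → ℂ) = 0 := by
  simp only [jC, Pi.zero_apply, zero_smul, Finset.sum_const_zero]

theorem jC_sum {J : Type*} (s : Finset J) (v : J → Fin r → ℂ) :
    jC j (∑ k ∈ s, v k) = ∑ k ∈ s, jC j (v k) := by
  classical
  induction s using Finset.induction_on with
  | empty => rw [Finset.sum_empty, Finset.sum_empty, jC_zero]
  | insert a s ha ih => rw [Finset.sum_insert ha, Finset.sum_insert ha, jC_add, ih]

theorem jC_rat (v : Fin r → ℚ) :
    jC j (fun a => ((v a : ℚ) : ℂ)) = (j v).map (algebraMap ℚ ℂ) := by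
  have h1 : j v = ∑ a, v a • j (Pi.single a 1) := by
    conv_lhs => rw [pi_eq_sum_univ' v]
    rw [map_sum]
    refine Finset.sum_congr rfl fun a _ => ?_
    rw [map_smul]
  rw [h1, jC]
  ext i k
  simp only [Matrix.sum_apply, Matrix.smul_apply, Matrix.map_apply, smul_eq_mul, map_sum, map_mul]
  rfl

theorem jC_single (a : Fin r) : jC j (Pi.single a 1) = (j (Pi.single a 1)).map (algebraMap ℚ ℂ) := by
  rw [jC, Finset.sum_eq_single_of_mem a (Finset.mem_univ a)]
  · rw [Pi.single_eq_same, one_smul]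
  · intro b _ hb
    rw [Pi.single_eq_of_ne hb, zero_smul]

theorem jC_decomp (v : Fin r → ℂ) : jC j v = ∑ a, v a • jC j (Pi.single a 1) := by
  simp only [jC_single]
  rfl

theorem JE.jC_wt (h : JE wt m w r rho j) (v : Fin r → ℂ) : WtM wt w (jC j v) := by
  intro i k hik
  simp only [jC, Matrix.sum_apply, Matrix.smul_apply, Matrix.map_apply]
  refine Finset.sum_eq_zero fun a _ => ?_
  rw [h.supp _ i k (by omega), map_zero, smul_zero]

theorem JE.jC_inj (h : JE wt m w r rho j) {v : Fin r → ℂ} (hv : jC j v = 0) : v = 0 := by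
  have h1 : ∀ f : ℂ →ₗ[ℚ] ℚ, (fun a => f (v a)) = 0 := by
    intro f
    apply h.inj
    rw [map_zero]
    have h2 : j (fun a => f (v a)) = (jC j v).map f := by
      have h3 : j (fun a => f (v a)) = ∑ a, f (v a) • j (Pi.single a 1) := by
        conv_lhs => rw [pi_eq_sum_univ' (fun a => f (v a))]
        rw [map_sum]
        refine Finset.sum_congr rfl fun a _ => ?_
        rw [map_smul]
      rw [h3]
      ext i k
      simp only [jC, Matrix.sum_apply, Matrix.smul_apply, Matrix.map_apply, smul_eq_mul, map_sum]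
      refine Finset.sum_congr rfl fun a _ => ?_
      rw [show (algebraMap ℚ ℂ) (j (Pi.single a 1) i k) = ((j (Pi.single a 1) i k : ℚ) : ℂ) from rfl,
        B01_map_ratCast, mul_comm]
    rw [h2, hv]
    ext i k
    simp
  funext a
  exact B01_eq_zero fun f => congrFun (h1 f) a

theorem dgR_smulC (c : ℂ) (A : Matrix ι ι ℂ) : dgR wt (c • A) = c • dgR wt A := by
  ext i k
  by_cases h : wt i = wt k
  · simp only [dgR, if_pos h, Matrix.smul_apply]
  · simp only [dgR, if_neg h, Matrix.smul_apply, smul_zero]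

theorem JE.jC_act (h : JE wt m w r rho j) {A : Matrix ι ι ℂ} (hA : A ∈ cx m) (v : Fin r → ℂ) :
    jC j (rhoC rho A *ᵥ v) = dgR wt A * jC j v - jC j v * dgR wt A := by
  refine Submodule.span_induction (p := fun A _ => jC j (rhoC rho A *ᵥ v) =
    dgR wt A * jC j v - jC j v * dgR wt A) ?_ ?_ ?_ ?_ hA
  · rintro _ ⟨B, hB, rfl⟩
    show jC j (rhoC rho (B.map (algebraMap ℚ ℂ)) *ᵥ v) = _
    rw [rhoC_rat]
    have e1 : ∀ a : Fin r, jC j ((rho B).map (algebraMap ℚ ℂ) *ᵥ Pi.single a 1) =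
        dgR wt (B.map (algebraMap ℚ ℂ)) * jC j (Pi.single a 1) -
          jC j (Pi.single a 1) * dgR wt (B.map (algebraMap ℚ ℂ)) := by
      intro a
      have e2 : (rho B).map (algebraMap ℚ ℂ) *ᵥ (Pi.single a 1 : Fin r → ℂ) =
          fun b => (((rho B *ᵥ (Pi.single a 1 : Fin r → ℚ)) b : ℚ) : ℂ) := by
        funext b
        rw [Matrix.mulVec_single_one, Matrix.mulVec_single_one]
        rfl
      rw [e2, jC_rat, h.act B hB, jC_single, dgR_map' (algebraMap ℚ ℂ), ← Matrix.map_mul,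
        ← Matrix.map_mul]
      ext i k
      simp only [Matrix.map_apply, Matrix.sub_apply, map_sub]
    have e3 : (rho B).map (algebraMap ℚ ℂ) *ᵥ v =
        ∑ a, v a • ((rho B).map (algebraMap ℚ ℂ) *ᵥ (Pi.single a 1 : Fin r → ℂ)) := by
      conv_lhs => rw [pi_eq_sum_univ' v]
      rw [Matrix.mulVec_sum]
      refine Finset.sum_congr rfl fun a _ => ?_
      rw [Matrix.mulVec_smul]
    rw [e3, jC_sum, jC_decomp v, Finset.mul_sum, Finset.sum_mul, ← Finset.sum_sub_distrib]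
    refine Finset.sum_congr rfl fun a _ => ?_
    rw [jC_smul, e1, smul_sub, mul_smul_comm, smul_mul_assoc]
  · have e1 : rhoC rho (0 : Matrix ι ι ℂ) = 0 := by
      have := rhoC_smul (rho := rho) 0 (0 : Matrix ι ι ℂ)
      rwa [zero_smul, zero_smul] at this
    have e2 : dgR wt (0 : Matrix ι ι ℂ) = 0 := by
      ext i k
      simp [dgR]
    rw [e1, Matrix.zero_mulVec, jC_zero, e2, zero_mul, mul_zero, sub_zero]
  · intro A B _ _ hA hB
    rw [rhoC_add, Matrix.add_mulVec, jC_add, hA, hB, B13_dgR_add]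
    noncomm_ring
  · intro c A _ hA
    rw [rhoC_smul, Matrix.smul_mulVec, jC_smul, hA, dgR_smulC, smul_sub, smul_mul_assoc,
      mul_smul_comm]

/-! ### one point -/

variable {Φ : Matrix ι ι ℂ} {P : ℤ → Matrix ι ι ℂ} {h : Matrix ι ι ℂ}

theorem JE.jC_D (hj : JE wt m w r rho j) (hP : GrP wt p K Φ P) (hh : Un wt h)
    (h1 : oP K P h ∈ cx m) (v : Fin r → ℂ) :
    jC j (rhoC rho (oP K P h) *ᵥ v) = PG K P * jC j v - jC j v * PG K P := by
  rw [hj.jC_act h1, B13_oP hP hh]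
  have h2 : oP K P 1 = PG K P := by
    rw [oP, one_mul, inv_one, mul_one]
  rw [h2]

theorem JE.jC_poly (hj : JE wt m w r rho j) (hP : GrP wt p K Φ P) (hh : Un wt h)
    (h1 : oP K P h ∈ cx m) (v : Fin r → ℂ) (f : Polynomial ℂ) :
    jC j (Polynomial.aeval (rhoC rho (oP K P h)) f *ᵥ v) =
      Polynomial.aeval (adm (PG K P)) f (jC j v) := by
  induction f using Polynomial.induction_on' with
  | add p q hp hq =>
    rw [map_add, map_add, Matrix.add_mulVec, jC_add, hp, hq, LinearMap.add_apply]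
  | monomial n a =>
    rw [Polynomial.aeval_monomial, Polynomial.aeval_monomial, Module.End.mul_apply,
      Module.algebraMap_end_apply, Algebra.algebraMap_eq_smul_one, smul_mul_assoc, one_mul,
      Matrix.smul_mulVec, jC_smul]
    congr 1
    induction n with
    | zero => rw [pow_zero, pow_zero, Matrix.one_mulVec, Module.End.one_apply]
    | succ n ih =>
      rw [pow_succ', pow_succ', ← Matrix.mulVec_mulVec, hj.jC_D hP hh h1, ih,
        Module.End.mul_apply, adm_apply]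

theorem typ_Fend (hP : GrP wt p K Φ P) {X : Matrix ι ι ℂ} {a : ℤ}
    (hX : PG K P * X - X * PG K P = (a : ℂ) • X) : X ∈ Fend p (dg wt Φ) a := by
  intro b v hv
  rw [hP.fil] at hv ⊢
  intro c hc
  have h1 : P c *ᵥ (X *ᵥ v) = ∑ d ∈ Finset.Icc (-(K : ℤ)) K, (P c * X * P d) *ᵥ v := by
    rw [← Matrix.sum_mulVec, ← Finset.mul_sum, hP.sum, mul_one, Matrix.mulVec_mulVec]
  rw [h1]
  refine Finset.sum_eq_zero fun d _ => ?_
  by_cases hd : c = a + d
  · rw [← Matrix.mulVec_mulVec, hv d (by omega), Matrix.mulVec_zero]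
  · rw [P_A_P hP hX hd, Matrix.zero_mulVec]

theorem Fend_anti {a b : ℤ} (hab : a ≤ b) : Fend p Φ b ≤ Fend p Φ a := by
  intro M hM c v hv
  exact MW38.Fl_anti (by omega) (hM c v hv)

/-- the Hodge filtration of the quotient -/
theorem JE.mem_iff (hj : JE wt m w r rho j) (hP : GrP wt p K Φ P) (hh : Un wt h)
    (h1 : oP K P h ∈ cx m)
    (hp : Polynomial.aeval (rhoC rho (oP K P h)) (npoly (2 * K)) = 0) (l : ℤ) (v : Fin r → ℂ) :
    (∀ a : ℤ, a < l → LP (2 * K) (rhoC rho (oP K P h)) a *ᵥ v = 0) ↔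
      jC j v ∈ Fend p (dg wt Φ) l := by
  constructor
  · intro h2
    have h3 : v = ∑ a ∈ Finset.Icc (-((2 * K : ℕ) : ℤ)) ((2 * K : ℕ) : ℤ),
        LP (2 * K) (rhoC rho (oP K P h)) a *ᵥ v := by
      rw [← Matrix.sum_mulVec, LP_sum, Matrix.one_mulVec]
    rw [h3, jC_sum]
    refine Submodule.sum_mem _ fun a _ => ?_
    rcases lt_or_ge a l with ha | ha
    · rw [h2 a ha, jC_zero]
      exact Submodule.zero_mem _
    · refine Fend_anti ha (typ_Fend hP ?_)
      rw [← hj.jC_D hP hh h1, Matrix.mulVec_mulVec, LP_left hp, Matrix.smul_mulVec, jC_smul]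
  · intro h2 a ha
    have h3 := poly_Fend (grP_gr hP) (delH_gr hP) h2
    have h4 : oP K P 1 = PG K P := by
      rw [oP, one_mul, inv_one, mul_one]
    rw [h4, ← hj.jC_poly hP hh h1] at h3
    have h5 := hj.jC_inj h3
    have h6 := aeval_eigen_right (LP_right hp a) (rts l (2 * K))
    have h7 : LP (2 * K) (rhoC rho (oP K P h)) a *ᵥ
        (Polynomial.aeval (rhoC rho (oP K P h)) (rts l (2 * K)) *ᵥ v) = 0 := by
      rw [h5, Matrix.mulVec_zero]
    rw [Matrix.mulVec_mulVec, h6, Matrix.smul_mulVec] at h7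
    refine (smul_eq_zero.1 h7).resolve_left ?_
    rw [rts, Polynomial.eval_prod]
    refine Finset.prod_ne_zero_iff.2 ?_
    intro c hc
    rw [Polynomial.eval_sub, Polynomial.eval_X, Polynomial.eval_C, sub_ne_zero]
    intro e
    have e' : a = c := by exact_mod_cast e
    have := (Finset.mem_Icc.1 hc).1
    omega

/-! ### the form -/

/-- the polarization of the quotient -/
noncomputable def QJ (wt : ι → ℤ) (Q : Matrix ι ι ℚ) (j : (Fin r → ℚ) →ₗ[ℚ] Matrix ι ι ℚ) :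
    Matrix (Fin r) (Fin r) ℝ := fun a b =>
  ((QE wt Q (j (Pi.single a 1)) (j (Pi.single b 1)) : ℚ) : ℝ)

variable {Q : Matrix ι ι ℚ}

theorem cm_map (Q : Matrix ι ι ℚ) :
    SP38.cm (Q.map (algebraMap ℚ ℝ)) = Q.map (algebraMap ℚ ℂ) := by
  ext i j
  simp [SP38.cm]

theorem bil_QJ (u v : Fin r → ℂ) : SP38.bil (QJ wt Q j) u v =
    QE wt (SP38.cm (Q.map (algebraMap ℚ ℝ))) (jC j u) (jC j v) := by
  rw [cm_map, jC_decomp u, jC_decomp v, QE_sum_left, SP38.bil]
  refine Finset.sum_congr rfl fun a _ => ?_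
  rw [QE_sum_right]
  refine Finset.sum_congr rfl fun b _ => ?_
  rw [QE_smul_left, QE_smul_right, jC_single, jC_single, QE_map]
  show u a * (((QE wt Q (j (Pi.single a 1)) (j (Pi.single b 1)) : ℚ) : ℝ) : ℂ) * v b = _
  rw [Complex.ofReal_ratCast]
  show _ = u a * (v b * ((QE wt Q (j (Pi.single a 1)) (j (Pi.single b 1)) : ℚ) : ℂ))
  ring

theorem bil_single (M : Matrix (Fin r) (Fin r) ℝ) (A : Matrix (Fin r) (Fin r) ℂ) (a b : Fin r) :
    SP38.bil M (A *ᵥ Pi.single a 1) (Pi.single b 1) = (Aᵀ * SP38.cm M) a b ∧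
    SP38.bil M (Pi.single a 1) (A *ᵥ Pi.single b 1) = (SP38.cm M * A) a b ∧
    SP38.bil M (Pi.single a 1) (Pi.single b 1) = SP38.cm M a b := by
  refine ⟨?_, ?_, ?_⟩
  · rw [SP38.hd1_bil_eq, Matrix.mulVec_single_one, Matrix.mulVec_single_one, Matrix.mul_apply]
    rfl
  · rw [SP38.hd1_bil_eq, Matrix.mulVec_single_one, single_one_dotProduct]
    rfl
  · rw [SP38.hd1_bil_eq, Matrix.mulVec_single_one, single_one_dotProduct]
    rfl

theorem JE.skew (hj : JE wt m w r rho j) (hg : PolG wt p K (Q.map (algebraMap ℚ ℝ)) Φ P)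
    (hh : Un wt h) (h1 : oP K P h ∈ cx m) :
    (rhoC rho (oP K P h))ᵀ * SP38.cm (QJ wt Q j) + SP38.cm (QJ wt Q j) * rhoC rho (oP K P h) =
      (w : ℂ) • SP38.cm (QJ wt Q j) := by
  ext a b
  have h2 := hg.QE_skew (A := jC j (Pi.single a 1)) (hj.jC_wt (Pi.single b 1))
  rw [← hj.jC_D hg.gr hh h1, ← hj.jC_D hg.gr hh h1, ← bil_QJ, ← bil_QJ, ← bil_QJ] at h2
  have h3 := bil_single (QJ wt Q j) (rhoC rho (oP K P h)) a b
  rw [h3.1, h3.2.1, h3.2.2] at h2
  rw [Matrix.add_apply, Matrix.smul_apply, smul_eq_mul]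
  exact h2

theorem jC_bar (v : Fin r → ℂ) : (jC j v).map (starRingEnd ℂ) = jC j (SP38.cj v) := by
  ext i k
  simp only [jC, Matrix.map_apply, Matrix.sum_apply, Matrix.smul_apply, smul_eq_mul, map_sum,
    map_mul, SP38.cj]
  refine Finset.sum_congr rfl fun a _ => ?_
  congr 1
  show (starRingEnd ℂ) ((j (Pi.single a 1) i k : ℚ) : ℂ) = ((j (Pi.single a 1) i k : ℚ) : ℂ)
  rw [map_ratCast]

theorem JE.pos (hj : JE wt m w r rho j) (hg : PolG wt p K (Q.map (algebraMap ℚ ℝ)) Φ P)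
    (hh : Un wt h) (h1 : oP K P h ∈ cx m) {a : ℤ} {v : Fin r → ℂ}
    (hv : rhoC rho (oP K P h) *ᵥ v = (a : ℂ) • v) (hv0 : v ≠ 0) :
    0 < (I ^ (2 * a - w) * SP38.bil (QJ wt Q j) v (SP38.cj v)).re ∧
      (I ^ (2 * a - w) * SP38.bil (QJ wt Q j) v (SP38.cj v)).im = 0 := by
  rw [bil_QJ, ← jC_bar]
  refine hg.QE_pos (hj.jC_wt v) ?_ fun e => hv0 (hj.jC_inj e)
  rw [← hj.jC_D hg.gr hh h1, hv, jC_smul]

end ZW67
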